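import Pool.Agent.H13.Q1.FourF

/-!
# Cardy's formula from the explicit solution
-/

open Complex Metric Set Topology Filter MeasureTheory
open scoped ComplexConjugate Interval
open H87.FM

noncomputable section

namespace Pool.Agent.H13.Q1.Four

/-- the density of the equilateral triangle -/
def bet (s : ℝ) : ℝ := s ^ (-2 / 3 : ℝ) * (1 - s) ^ (-2 / 3 : ℝ)

/-- **Cardy's function** `∫_0^l (s(1-s))^(-2/3) ds / ∫_0^1 (s(1-s))^(-2/3) ds`. -/
def cardy (l : ℝ) : ℝ := (∫ s in (0 : ℝ)..l, bet s) / ∫ s in (0 : ℝ)..1, bet s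

theorem cube_rpow {t : ℝ} (ht : 0 ≤ t) : (t ^ (-2 / 3 : ℝ)) ^ 3 = (t ^ 2)⁻¹ := by
  rw [← Real.rpow_natCast, ← Real.rpow_mul ht,
    show (-2 / 3 * ((3 : ℕ) : ℝ) : ℝ) = -2 by norm_num, Real.rpow_neg ht]
  norm_num

theorem key1 {p q r A B C : ℝ} (hp : 0 < p) (hq : 0 < q) (hr : 0 < r) (hA : 0 < A) (hB : 0 < B)
    (hC : 0 < C) : A * C / (B * q ^ 2) * ((p * A / (q * B)) ^ (-2 / 3 : ℝ) *
      (r * C / (q * B)) ^ (-2 / 3 : ℝ)) =
      (A * B * C) ^ (1 / 3 : ℝ) * (p ^ (-2 / 3 : ℝ) * q ^ (-2 / 3 : ℝ) * r ^ (-2 / 3 : ℝ)) := by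
  rw [← pow_left_inj₀ (n := 3) (by positivity) (by positivity) (by norm_num)]
  have hK : ((A * B * C) ^ (1 / 3 : ℝ)) ^ 3 = A * B * C := by
    rw [← Real.rpow_natCast, ← Real.rpow_mul (by positivity)]
    norm_num
  simp only [mul_pow, cube_rpow hp.le, cube_rpow hq.le, cube_rpow hr.le, hK,
    cube_rpow (by positivity : 0 ≤ p * A / (q * B)),
    cube_rpow (by positivity : 0 ≤ r * C / (q * B))]
  field_simp

/-- a change of variables by a Moebius map on an interval -/
theorem change {a b c d : ℝ} (hab : a < b) (hcd : c < d) {f f' g h : ℝ → ℝ} {K : ℝ}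
    (hd : ∀ u ∈ Ioo a b, HasDerivAt f (f' u) u) (hi : InjOn f (Ioo a b))
    (him : f '' Ioo a b = Ioo c d) (hk : ∀ u ∈ Ioo a b, |f' u| * g (f u) = K * h u) :
    ∫ s in c..d, g s = K * ∫ u in a..b, h u := by
  rw [intervalIntegral.integral_of_le hcd.le, integral_Ioc_eq_integral_Ioo,
    intervalIntegral.integral_of_le hab.le, integral_Ioc_eq_integral_Ioo, ← him,
    integral_image_eq_integral_abs_deriv_smul measurableSet_Ioo
      (fun u hu => (hd u hu).hasDerivWithinAt) hi, ← integral_const_mul]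
  apply setIntegral_congr_fun measurableSet_Ioo
  intro u hu
  exact hk u hu

theorem sig_eq {a0 a1 a2 a3 u : ℝ} : sig ![a0, a1, a2, a3] u =
    |u - a1| ^ (-2 / 3 : ℝ) * |u - a2| ^ (-2 / 3 : ℝ) * |u - a3| ^ (-2 / 3 : ℝ) := by
  simp [sig]

/-- the left arc -/
theorem arc_left {a0 a1 a2 a3 : ℝ} (h01 : a0 < a1) (h12 : a1 < a2) (h23 : a2 < a3) :
    ∫ s in (0 : ℝ)..((a1 - a0) * (a3 - a2) / ((a2 - a0) * (a3 - a1))), bet s =
      ((a3 - a2) * (a3 - a1) * (a2 - a1)) ^ (1 / 3 : ℝ) *
        ∫ u in a0..a1, sig ![a0, a1, a2, a3] u := by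
  have hA : 0 < a3 - a2 := by linarith
  have hB : 0 < a3 - a1 := by linarith
  have hC : 0 < a2 - a1 := by linarith
  have hD : 0 < a2 - a0 := by linarith
  have hE : 0 < a1 - a0 := by linarith
  apply change (f := fun u => (a1 - u) * (a3 - a2) / ((a2 - u) * (a3 - a1)))
    (f' := fun u => -((a3 - a2) * (a2 - a1) / ((a3 - a1) * (a2 - u) ^ 2))) h01 (by positivity)
  · intro u hu
    have hu2 : a2 - u ≠ 0 := by
      have := hu.2
      intro h
      linarith
    have h1 : HasDerivAt (fun u : ℝ => (a1 - u) * (a3 - a2)) ((-1) * (a3 - a2)) u :=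
      ((hasDerivAt_id u).const_sub a1).mul_const _
    have h2 : HasDerivAt (fun u : ℝ => (a2 - u) * (a3 - a1)) ((-1) * (a3 - a1)) u :=
      ((hasDerivAt_id u).const_sub a2).mul_const _
    refine (h1.div h2 (mul_ne_zero hu2 hB.ne')).congr_deriv ?_
    field_simp
    ring
  · intro u hu v hv huv
    have hu2 : 0 < a2 - u := by linarith [hu.2]
    have hv2 : 0 < a2 - v := by linarith [hv.2]
    simp only at huv
    rw [div_eq_div_iff (by positivity) (by positivity)] at huv
    have h1 : ((a3 - a2) * (a3 - a1)) * ((a2 - a1) * (u - v)) = 0 := by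
      linear_combination -huv
    have h2 : (a2 - a1) * (u - v) = 0 := by
      rcases mul_eq_zero.1 h1 with h | h
      · exact absurd h (by positivity)
      · exact h
    rcases mul_eq_zero.1 h2 with h | h
    · exact absurd h hC.ne'
    · linarith
  · ext s
    constructor
    · rintro ⟨u, hu, rfl⟩
      have hu1 : 0 < a1 - u := by linarith [hu.2]
      have hu2 : 0 < a2 - u := by linarith [hu.2]
      refine ⟨by positivity, ?_⟩
      simp only
      rw [div_lt_div_iff₀ (by positivity) (by positivity)]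
      have h1 : 0 < (a3 - a2) * (a3 - a1) * ((u - a0) * (a2 - a1)) :=
        mul_pos (by positivity) (mul_pos (by linarith [hu.1]) hC)
      linarith [h1, show (a1 - a0) * (a3 - a2) * ((a2 - u) * (a3 - a1)) -
        (a1 - u) * (a3 - a2) * ((a2 - a0) * (a3 - a1)) =
        (a3 - a2) * (a3 - a1) * ((u - a0) * (a2 - a1)) by ring]
    · rintro ⟨hs0, hs1⟩
      rw [lt_div_iff₀ (by positivity)] at hs1
      have hden : 0 < (a3 - a2) - s * (a3 - a1) := by
        have h1 : s * (a3 - a1) * (a2 - a0) < (a3 - a2) * (a2 - a0) := by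
          have : (a1 - a0) * (a3 - a2) < (a3 - a2) * (a2 - a0) := by nlinarith
          nlinarith
        have := lt_of_mul_lt_mul_right h1 hD.le
        linarith
      refine ⟨(a1 * (a3 - a2) - s * (a3 - a1) * a2) / ((a3 - a2) - s * (a3 - a1)), ⟨?_, ?_⟩, ?_⟩
      · rw [lt_div_iff₀ hden]
        nlinarith
      · rw [div_lt_iff₀ hden]
        nlinarith [mul_pos (mul_pos hs0 hB) hC]
      · simp only
        have e1 : a1 - (a1 * (a3 - a2) - s * (a3 - a1) * a2) / ((a3 - a2) - s * (a3 - a1)) =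
            s * (a3 - a1) * (a2 - a1) / ((a3 - a2) - s * (a3 - a1)) := by
          field_simp
          ring
        have e2 : a2 - (a1 * (a3 - a2) - s * (a3 - a1) * a2) / ((a3 - a2) - s * (a3 - a1)) =
            (a3 - a2) * (a2 - a1) / ((a3 - a2) - s * (a3 - a1)) := by
          field_simp
          ring
        rw [e1, e2]
        field_simp
  · intro u hu
    have hu1 : 0 < a1 - u := by linarith [hu.2]
    have hu2 : 0 < a2 - u := by linarith [hu.2]
    have hu3 : 0 < a3 - u := by linarith [hu.2]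
    have e1 : 1 - (a1 - u) * (a3 - a2) / ((a2 - u) * (a3 - a1)) =
        (a3 - u) * (a2 - a1) / ((a2 - u) * (a3 - a1)) := by
      field_simp
      ring
    unfold bet
    rw [e1, abs_neg, abs_of_pos (by positivity), sig_eq, abs_sub_comm u a1, abs_sub_comm u a2,
      abs_sub_comm u a3, abs_of_pos hu1, abs_of_pos hu2, abs_of_pos hu3]
    exact key1 hu1 hu2 hu3 hA hB hC

/-- the middle arc -/
theorem arc_mid {a0 a1 a2 a3 : ℝ} (h12 : a1 < a2) (h23 : a2 < a3) :
    ∫ s in (0 : ℝ)..1, bet s = ((a3 - a2) * (a3 - a1) * (a2 - a1)) ^ (1 / 3 : ℝ) *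
        ∫ u in a1..a2, sig ![a0, a1, a2, a3] u := by
  have hA : 0 < a3 - a2 := by linarith
  have hB : 0 < a3 - a1 := by linarith
  have hC : 0 < a2 - a1 := by linarith
  apply change (f := fun u => (u - a1) * (a3 - a2) / ((a3 - u) * (a2 - a1)))
    (f' := fun u => (a3 - a2) * (a3 - a1) / ((a2 - a1) * (a3 - u) ^ 2)) h12 one_pos
  · intro u hu
    have hu3 : a3 - u ≠ 0 := by
      have := hu.2
      intro h
      linarith
    have h1 : HasDerivAt (fun u : ℝ => (u - a1) * (a3 - a2)) (1 * (a3 - a2)) u :=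
      ((hasDerivAt_id u).sub_const a1).mul_const _
    have h2 : HasDerivAt (fun u : ℝ => (a3 - u) * (a2 - a1)) ((-1) * (a2 - a1)) u :=
      ((hasDerivAt_id u).const_sub a3).mul_const _
    refine (h1.div h2 (mul_ne_zero hu3 hC.ne')).congr_deriv ?_
    field_simp
    ring
  · intro u hu v hv huv
    have hu3 : 0 < a3 - u := by linarith [hu.2]
    have hv3 : 0 < a3 - v := by linarith [hv.2]
    simp only at huv
    rw [div_eq_div_iff (by positivity) (by positivity)] at huv
    have h1 : ((a3 - a2) * (a2 - a1)) * ((a3 - a1) * (u - v)) = 0 := by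
      linear_combination huv
    have h2 : (a3 - a1) * (u - v) = 0 := by
      rcases mul_eq_zero.1 h1 with h | h
      · exact absurd h (by positivity)
      · exact h
    rcases mul_eq_zero.1 h2 with h | h
    · exact absurd h hB.ne'
    · linarith
  · ext s
    constructor
    · rintro ⟨u, hu, rfl⟩
      have hu1 : 0 < u - a1 := by linarith [hu.1]
      have hu3 : 0 < a3 - u := by linarith [hu.2]
      refine ⟨by positivity, ?_⟩
      simp only
      rw [div_lt_one (by positivity)]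
      have h1 : 0 < (a2 - u) * (a3 - a1) := mul_pos (by linarith [hu.2]) hB
      linarith [show (a3 - u) * (a2 - a1) - (u - a1) * (a3 - a2) = (a2 - u) * (a3 - a1) by ring]
    · rintro ⟨hs0, hs1⟩
      have hden : 0 < (a3 - a2) + s * (a2 - a1) := by positivity
      refine ⟨(a1 * (a3 - a2) + s * (a2 - a1) * a3) / ((a3 - a2) + s * (a2 - a1)), ⟨?_, ?_⟩, ?_⟩
      · rw [lt_div_iff₀ hden]
        nlinarith [mul_pos (mul_pos hs0 hC) hB]
      · rw [div_lt_iff₀ hden]
        nlinarith [mul_pos (mul_pos (sub_pos.2 hs1) hC) hA]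
      · simp only
        have e1 : (a1 * (a3 - a2) + s * (a2 - a1) * a3) / ((a3 - a2) + s * (a2 - a1)) - a1 =
            s * (a2 - a1) * (a3 - a1) / ((a3 - a2) + s * (a2 - a1)) := by
          field_simp
          ring
        have e2 : a3 - (a1 * (a3 - a2) + s * (a2 - a1) * a3) / ((a3 - a2) + s * (a2 - a1)) =
            (a3 - a2) * (a3 - a1) / ((a3 - a2) + s * (a2 - a1)) := by
          field_simp
          ring
        rw [e1, e2]
        field_simp
  · intro u hu
    have hu1 : 0 < u - a1 := by linarith [hu.1]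
    have hu2 : 0 < a2 - u := by linarith [hu.2]
    have hu3 : 0 < a3 - u := by linarith [hu.2]
    have e1 : 1 - (u - a1) * (a3 - a2) / ((a3 - u) * (a2 - a1)) =
        (a2 - u) * (a3 - a1) / ((a3 - u) * (a2 - a1)) := by
      field_simp
      ring
    unfold bet
    rw [e1, abs_of_pos (by positivity), sig_eq, abs_of_pos hu1, abs_sub_comm u a2,
      abs_sub_comm u a3, abs_of_pos hu2, abs_of_pos hu3]
    have h := key1 hu1 hu3 hu2 hA hC hB
    rw [show (a3 - a2) * (a3 - a1) * (a2 - a1) = (a3 - a2) * (a2 - a1) * (a3 - a1) by ring]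
    rw [h]
    ring

/-- **The ratio of the two arcs is Cardy's function of the cross ratio.** -/
theorem ratio_cardy {a0 a1 a2 a3 : ℝ} (h01 : a0 < a1) (h12 : a1 < a2) (h23 : a2 < a3) :
    (∫ u in a0..a1, sig ![a0, a1, a2, a3] u) / (∫ u in a1..a2, sig ![a0, a1, a2, a3] u) =
      cardy ((a1 - a0) * (a3 - a2) / ((a2 - a0) * (a3 - a1))) := by
  unfold cardy
  rw [arc_left h01 h12 h23, arc_mid (a0 := a0) h12 h23]
  have hA : 0 < a3 - a2 := by linarith
  have hB : 0 < a3 - a1 := by linarith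
  have hC : 0 < a2 - a1 := by linarith
  have hK : 0 < ((a3 - a2) * (a3 - a1) * (a2 - a1)) ^ (1 / 3 : ℝ) := by positivity
  rw [mul_div_mul_left _ _ hK.ne']

end Pool.Agent.H13.Q1.Four
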