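import Pool.Agent.H13.Q1.FourG

/-!
# Properties of Cardy's function
-/

open Complex Metric Set Topology Filter MeasureTheory
open scoped ComplexConjugate Interval
open H87.FM

noncomputable section

namespace Pool.Agent.H13.Q1.Four

theorem bet_pos {s : ℝ} (h0 : 0 < s) (h1 : s < 1) : 0 < bet s := by
  unfold bet
  have : 0 < 1 - s := by linarith
  positivity

theorem bet_meas : Measurable bet := by
  unfold bet
  fun_prop

theorem bet_int01 : IntervalIntegrable bet volume 0 1 := by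
  have h1 : IntervalIntegrable (fun s : ℝ => (2 : ℝ) ^ (2 / 3 : ℝ) *
      (|s - 0| ^ (-2 / 3 : ℝ) + |s - 1| ^ (-2 / 3 : ℝ))) volume 0 1 :=
    ((abs_sub_rpow_int (by norm_num) 0 0 1).add (abs_sub_rpow_int (by norm_num) 1 0 1)).const_mul _
  refine h1.mono_fun' bet_meas.aestronglyMeasurable ?_
  rw [uIoc_of_le zero_le_one, EventuallyLE, ae_restrict_iff' measurableSet_Ioc]
  refine Eventually.of_forall fun s hs => ?_
  have hs0 := hs.1
  have hs1 : 0 ≤ 1 - s := by linarith [hs.2]
  have e2 : |s - 1| = 1 - s := by rw [abs_sub_comm, abs_of_nonneg hs1]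
  rw [sub_zero, abs_of_pos hs0, e2, Real.norm_of_nonneg (by unfold bet; positivity)]
  unfold bet
  have hb : ∀ t : ℝ, 1 / 2 ≤ t → t ^ (-2 / 3 : ℝ) ≤ (2 : ℝ) ^ (2 / 3 : ℝ) := by
    intro t ht
    have h2 : t ^ (-2 / 3 : ℝ) ≤ (1 / 2 : ℝ) ^ (-2 / 3 : ℝ) :=
      Real.rpow_le_rpow_of_nonpos (by norm_num) ht (by norm_num)
    refine h2.trans (le_of_eq ?_)
    rw [one_div, Real.inv_rpow (by norm_num), ← Real.rpow_neg (by norm_num)]
    norm_num
  have p0 : 0 ≤ s ^ (-2 / 3 : ℝ) := by positivity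
  have p1 : 0 ≤ (1 - s) ^ (-2 / 3 : ℝ) := by positivity
  have p2 : (0 : ℝ) ≤ (2 : ℝ) ^ (2 / 3 : ℝ) := by positivity
  rcases le_total (1 / 2) s with h | h
  · have := mul_le_mul_of_nonneg_right (hb s h) p1
    nlinarith [mul_nonneg p2 p0]
  · have := mul_le_mul_of_nonneg_left (hb (1 - s) (by linarith)) p0
    nlinarith [mul_nonneg p2 p1]

theorem bet_int {a b : ℝ} (ha : a ∈ Icc (0 : ℝ) 1) (hb : b ∈ Icc (0 : ℝ) 1) :
    IntervalIntegrable bet volume a b := by
  apply bet_int01.mono_set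
  rw [uIcc_of_le zero_le_one]
  exact uIcc_subset_Icc ha hb

theorem bet_total_pos : 0 < ∫ s in (0 : ℝ)..1, bet s :=
  intervalIntegral.intervalIntegral_pos_of_pos_on bet_int01 (fun s hs => bet_pos hs.1 hs.2)
    one_pos

theorem cardy_zero : cardy 0 = 0 := by
  unfold cardy
  rw [intervalIntegral.integral_same, zero_div]

theorem cardy_one : cardy 1 = 1 := div_self bet_total_pos.ne'

theorem cardy_strictMono : StrictMonoOn cardy (Icc 0 1) := by
  intro a ha b hb hab
  unfold cardy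
  apply div_lt_div_of_pos_right _ bet_total_pos
  have h1 := intervalIntegral.integral_add_adjacent_intervals
    (bet_int (left_mem_Icc.2 zero_le_one) ha) (bet_int ha hb)
  have h2 : 0 < ∫ s in a..b, bet s :=
    intervalIntegral.intervalIntegral_pos_of_pos_on (bet_int ha hb)
      (fun s hs => bet_pos (ha.1.trans_lt hs.1) (hs.2.trans_le hb.2)) hab
  linarith

theorem cardy_cont : ContinuousOn cardy (Icc 0 1) := by
  unfold cardy
  apply ContinuousOn.div_const
  have h := intervalIntegral.continuousOn_primitive_interval' bet_int01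
    (left_mem_uIcc (a := (0 : ℝ)) (b := 1))
  rwa [uIcc_of_le zero_le_one] at h

theorem bet_symm (s : ℝ) : bet (1 - s) = bet s := by
  unfold bet
  rw [sub_sub_cancel, mul_comm]

theorem cardy_symm {l : ℝ} (hl : l ∈ Icc (0 : ℝ) 1) : cardy (1 - l) = 1 - cardy l := by
  have hl' : 1 - l ∈ Icc (0 : ℝ) 1 := ⟨by linarith [hl.2], by linarith [hl.1]⟩
  have h1 := intervalIntegral.integral_add_adjacent_intervals
    (bet_int (left_mem_Icc.2 zero_le_one) hl) (bet_int hl (right_mem_Icc.2 zero_le_one))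
  have h2 : ∫ s in (0 : ℝ)..(1 - l), bet s = ∫ s in l..1, bet s := by
    have h3 := intervalIntegral.integral_comp_sub_left (a := (0 : ℝ)) (b := 1 - l) bet 1
    simp only [bet_symm, sub_zero, sub_sub_cancel] at h3
    exact h3
  unfold cardy
  rw [h2, eq_sub_iff_add_eq, ← add_div, div_eq_one_iff_eq bet_total_pos.ne']
  linarith

theorem cardy_mem {l : ℝ} (hl : l ∈ Icc (0 : ℝ) 1) : cardy l ∈ Icc (0 : ℝ) 1 := by
  constructor
  · rw [← cardy_zero]
    exact cardy_strictMono.monotoneOn (left_mem_Icc.2 zero_le_one) hl hl.1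
  · rw [← cardy_one]
    exact cardy_strictMono.monotoneOn hl (right_mem_Icc.2 zero_le_one) hl.2

end Pool.Agent.H13.Q1.Four
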