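import Pool.Agent.H13.Q1.Leaf

set_option autoImplicit false
open Finset

/-! # Merging two labels at a cap

`iW E W q c0 k0 c`: the increment across `c` with the random labels `E` (complex weights `q`) and the
wired labels `W`; for a plane environment this is `incW` (`plane_incW`).

`iW_mergeO`: a vertex `v` at which all labels but `e1`, `e2` are closed. The two labels may be replaced
by one label: `e2` is open, and `e1` is open with weight `q e1 * q e2`. `iW_mergeC`: a face `f` at which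
all labels but `e1`, `e2` are open: `e2` is closed, and `e1` is closed with weight
`(1 - q e1) * (1 - q e2)`. `iW_ties`: any number of such replacements at once. -/

namespace Pool.Agent.H13.Q1

open Pool.Agent.Q1 Pool.Agent.H75.Perc Pool.Agent.H75.TwoArm Pool.Agent.H80.Sweep
open Pool.Agent.H75.Four

/-- the increment with random labels `E` and wired labels `W` -/
noncomputable def iW (E W : Finset (ℤ × ℤ)) (q : ℤ × ℤ → ℂ) (c0 : ℤ × ℤ) (k0 : ℤ) (c : ℤ × ℤ) : ℂ :=
  Ec q E (fun ω => iG c0 k0 c (ω ∪ W))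

theorem plane_incW {E W : Finset (ℤ × ℤ)} {c0 : ℤ × ℤ} {k0 : ℤ} {g : ℤ × ℤ}
    {hE : ∀ e ∈ E, (e.1 + e.2) % 2 = 1} {hd : Disjoint E W} {hk : k0 % 4 = ty c0}
    {hroot : plab c0 ∉ E} {hg : DCo (E ∪ W) (fi c0) g}
    {hlow : ∀ v, Co (E ∪ W) (vx c0) v → g.2 < v.2} (q : ℤ × ℤ → ℂ) (c : ℤ × ℤ) :
    (Env.plane E W c0 k0 g hE hd hk hroot hg hlow).incW q c = iW E W q c0 k0 c := by
  unfold Env.incW iW
  refine Ec_congr fun ω hω => ?_
  have hω' : ω ⊆ E := hω
  unfold Env.incO iG incG
  rw [plane_len hω']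
  refine Finset.sum_congr rfl fun i _ => ?_
  rw [plane_z hω' i, plane_K hω' i]

variable {E W : Finset (ℤ × ℤ)} {e1 e2 c1 c2 c0 c : ℤ × ℤ} {k0 : ℤ} {q q' : ℤ × ℤ → ℂ}

/-- the sum over two labels -/
theorem iW_two (h1 : e1 ∈ E) (h2 : e2 ∈ E) (hne : e1 ≠ e2) :
    iW E W q c0 k0 c = Ec q ((E.erase e2).erase e1) (fun ω =>
      (1 - q e1) * (1 - q e2) * iG c0 k0 c (ω ∪ W) +
      (1 - q e1) * q e2 * iG c0 k0 c (insert e2 ω ∪ W) +
      q e1 * (1 - q e2) * iG c0 k0 c (insert e1 ω ∪ W) +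
      q e1 * q e2 * iG c0 k0 c (insert e2 (insert e1 ω) ∪ W)) := by
  unfold iW
  have hE2 : insert e2 (E.erase e2) = E := insert_erase h2
  have h1' : e1 ∈ E.erase e2 := mem_erase.2 ⟨hne, h1⟩
  have hE1 : insert e1 ((E.erase e2).erase e1) = E.erase e2 := insert_erase h1'
  rw [← hE2, Ec_insert q (notMem_erase e2 E), hE2]
  rw [← hE1, Ec_insert q (notMem_erase e1 _), Ec_insert q (notMem_erase e1 _), hE1]
  simp only [Ec_add, Ec_smul]
  ring

/-- **Two open labels at an inner vertex of a cap.** -/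
theorem iW_mergeO {v : ℤ × ℤ} (hc1 : vx c1 = v) (he1 : lab c1 = e1) (hc2 : vx c2 = v)
    (he2 : lab c2 = e2) (hne : e1 ≠ e2) (h1 : e1 ∈ E) (h2 : e2 ∈ E) (hd : Disjoint E W)
    (hv : ∀ c, vx c = v → lab c ∈ E ∪ W → lab c = e1 ∨ lab c = e2)
    (hq : q' e1 = q e1 * q e2) (hq' : ∀ e ∈ E, e ≠ e1 → e ≠ e2 → q' e = q e)
    (h0 : vx c0 ≠ v) (hc : vx c ≠ v) :
    iW (E.erase e2) (insert e2 W) q' c0 k0 c = iW E W q c0 k0 c := by
  rw [iW_two h1 h2 hne]
  have h1' : e1 ∈ E.erase e2 := mem_erase.2 ⟨hne, h1⟩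
  have hE1 : insert e1 ((E.erase e2).erase e1) = E.erase e2 := insert_erase h1'
  have hL : iW (E.erase e2) (insert e2 W) q' c0 k0 c =
      Ec q' ((E.erase e2).erase e1) (fun ω =>
        (1 - q' e1) * iG c0 k0 c (ω ∪ insert e2 W) +
        q' e1 * iG c0 k0 c (insert e1 ω ∪ insert e2 W)) := by
    unfold iW
    conv_lhs => rw [← hE1]
    rw [Ec_insert q' (notMem_erase e1 _)]
    simp only [Ec_add, Ec_smul]
  rw [hL, Ec_congr_q (q := q') (q' := q) (fun e he => by
    rw [mem_erase, mem_erase] at he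
    exact hq' e he.2.2 he.1 he.2.1)]
  refine Ec_congr fun ω hω => ?_
  have hn1 : e1 ∉ ω := fun h => (mem_erase.1 (hω h)).1 rfl
  have hn2 : e2 ∉ ω := fun h => (mem_erase.1 (mem_erase.1 (hω h)).2).1 rfl
  have hw1 : e1 ∉ W := disjoint_left.1 hd h1
  have hw2 : e2 ∉ W := disjoint_left.1 hd h2
  have hsub : ω ⊆ E := fun x hx => (mem_erase.1 (mem_erase.1 (hω hx)).2).2
  have hv0 : ∀ c, vx c = v → lab c ∉ ω ∪ W := by
    intro x hx hl
    rcases hv x hx (union_subset_union_left hsub hl) with h | h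
    · rw [h, mem_union] at hl
      rcases hl with h' | h'
      · exact hn1 h'
      · exact hw1 h'
    · rw [h, mem_union] at hl
      rcases hl with h' | h'
      · exact hn2 h'
      · exact hw2 h'
  have key : ∀ {e c' : ℤ × ℤ}, vx c' = v → lab c' = e → e ∉ ω ∪ W →
      iG c0 k0 c (insert e (ω ∪ W)) = iG c0 k0 c (ω ∪ W) := by
    intro e c' h3 h4 h5
    have := iG_leafO (H := insert e (ω ∪ W)) h3 h4 (fun x hx hl => by
      rcases mem_insert.1 hl with h | h
      · exact h
      · exact absurd h (hv0 x hx)) h0 hc k0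
    rw [erase_insert h5] at this
    exact this.symm
  have k1 := key hc1 he1 (by rw [← he1]; exact hv0 c1 hc1)
  have k2 := key hc2 he2 (by rw [← he2]; exact hv0 c2 hc2)
  have s1 : insert e2 ω ∪ W = insert e2 (ω ∪ W) := insert_union _ _ _
  have s2 : insert e1 ω ∪ W = insert e1 (ω ∪ W) := insert_union _ _ _
  have s3 : ω ∪ insert e2 W = insert e2 (ω ∪ W) := union_insert _ _ _
  have s4 : insert e1 ω ∪ insert e2 W = insert e2 (insert e1 ω) ∪ W := by
    rw [union_insert, ← insert_union]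
  rw [s1, s2, s3, s4, k1, k2, hq]
  ring

/-- **Two closed labels at an inner face of a cap.** -/
theorem iW_mergeC {f : ℤ × ℤ} (hc1 : fi c1 = f) (he1 : lab c1 = e1) (hc2 : fi c2 = f)
    (he2 : lab c2 = e2) (hne : e1 ≠ e2) (h1 : e1 ∈ E) (h2 : e2 ∈ E)
    (hv : ∀ c, fi c = f → lab c ∉ W → lab c = e1 ∨ lab c = e2)
    (hq : 1 - q' e1 = (1 - q e1) * (1 - q e2))
    (hq' : ∀ e ∈ E, e ≠ e1 → e ≠ e2 → q' e = q e)
    (h0 : fi c0 ≠ f) (hc : fi c ≠ f) :
    iW (E.erase e2) W q' c0 k0 c = iW E W q c0 k0 c := by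
  rw [iW_two h1 h2 hne]
  have h1' : e1 ∈ E.erase e2 := mem_erase.2 ⟨hne, h1⟩
  have hE1 : insert e1 ((E.erase e2).erase e1) = E.erase e2 := insert_erase h1'
  have hL : iW (E.erase e2) W q' c0 k0 c =
      Ec q' ((E.erase e2).erase e1) (fun ω =>
        (1 - q' e1) * iG c0 k0 c (ω ∪ W) +
        q' e1 * iG c0 k0 c (insert e1 ω ∪ W)) := by
    unfold iW
    conv_lhs => rw [← hE1]
    rw [Ec_insert q' (notMem_erase e1 _)]
    simp only [Ec_add, Ec_smul]
  rw [hL, Ec_congr_q (q := q') (q' := q) (fun e he => by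
    rw [mem_erase, mem_erase] at he
    exact hq' e he.2.2 he.1 he.2.1)]
  refine Ec_congr fun ω hω => ?_
  have s1 : insert e2 ω ∪ W = insert e2 (ω ∪ W) := insert_union _ _ _
  have s2 : insert e1 ω ∪ W = insert e1 (ω ∪ W) := insert_union _ _ _
  have s4 : insert e2 (insert e1 ω) ∪ W = insert e2 (insert e1 (ω ∪ W)) := by
    rw [insert_union, insert_union]
  -- all configurations in which one of the two labels is open agree
  have k1 : iG c0 k0 c (insert e2 (insert e1 (ω ∪ W))) = iG c0 k0 c (insert e1 (ω ∪ W)) := by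
    refine iG_leafC hc2 he2 (fun x hx hl => ?_) h0 hc k0
    rw [mem_insert, mem_union, not_or, not_or] at hl
    rcases hv x hx hl.2.2 with h | h
    · exact absurd h hl.1
    · exact h
  have k2 : iG c0 k0 c (insert e2 (insert e1 (ω ∪ W))) = iG c0 k0 c (insert e2 (ω ∪ W)) := by
    rw [insert_comm]
    refine iG_leafC hc1 he1 (fun x hx hl => ?_) h0 hc k0
    rw [mem_insert, mem_union, not_or, not_or] at hl
    rcases hv x hx hl.2.2 with h | h
    · exact h
    · exact absurd h hl.1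
  have hq2 : q' e1 = 1 - (1 - q e1) * (1 - q e2) := by rw [← hq]; ring
  rw [s1, s2, s4, ← k2, k1, hq2]
  ring

/-! ### Any number of caps -/

/-- the corner `c` is at the vertex (`o = true`) resp. at the face (`o = false`) `v` -/
def At (o : Bool) (v c : ℤ × ℤ) : Prop := if o then vx c = v else fi c = v

/-- a vertex (`o = true`) or face (`o = false`) `v` inside a cap, with the labels `e1`, `e2` -/
structure Cap (E W : Finset (ℤ × ℤ)) (o : Bool) (v e1 e2 : ℤ × ℤ) : Prop where
  a1 : ∃ c, At o v c ∧ lab c = e1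
  a2 : ∃ c, At o v c ∧ lab c = e2
  ne : e1 ≠ e2
  m1 : e1 ∈ E
  m2 : e2 ∈ E
  restO : o = true → ∀ c, vx c = v → lab c ≠ e1 → lab c ≠ e2 → lab c ∉ E ∪ W
  restC : o = false → ∀ c, fi c = v → lab c ≠ e1 → lab c ≠ e2 → lab c ∈ W

/-- the weight of the label `e1` after the merge -/
def mg (o : Bool) (x y : ℂ) : ℂ := if o then x * y else 1 - (1 - x) * (1 - y)

theorem iW_cap {o : Bool} {v : ℤ × ℤ} (h : Cap E W o v e1 e2) (hd : Disjoint E W)
    (hq : q' e1 = mg o (q e1) (q e2)) (hq' : ∀ e ∈ E, e ≠ e1 → e ≠ e2 → q' e = q e)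
    (h0 : ¬ At o v c0) (hc : ¬ At o v c) :
    iW (E.erase e2) (if o then insert e2 W else W) q' c0 k0 c = iW E W q c0 k0 c := by
  obtain ⟨x1, y1, z1⟩ := h.a1
  obtain ⟨x2, y2, z2⟩ := h.a2
  cases o
  · simp only [At, Bool.false_eq_true, if_false] at y1 y2 h0 hc ⊢
    refine iW_mergeC y1 z1 y2 z2 h.ne h.m1 h.m2 (fun x hx hl => ?_) ?_ hq' h0 hc
    · by_contra hcon
      rw [not_or] at hcon
      exact hl (h.restC rfl x hx hcon.1 hcon.2)
    · rw [hq]
      simp only [mg, Bool.false_eq_true, if_false]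
      ring
  · simp only [At, if_true] at y1 y2 h0 hc ⊢
    refine iW_mergeO y1 z1 y2 z2 h.ne h.m1 h.m2 hd (fun x hx hl => ?_) ?_ hq' h0 hc
    · by_contra hcon
      rw [not_or] at hcon
      exact h.restO rfl x hx hcon.1 hcon.2 hl
    · rw [hq]
      simp only [mg, if_true]

/-- **Any number of caps.** -/
theorem iW_ties {κ : Type*} [DecidableEq κ] (P : Finset κ) (o : κ → Bool) (v e1 e2 : κ → ℤ × ℤ)
    (hP : ∀ k ∈ P, Cap E W (o k) (v k) (e1 k) (e2 k)) (hd : Disjoint E W)
    (hdis : ∀ k ∈ P, ∀ l ∈ P, k ≠ l → e1 k ≠ e1 l ∧ e1 k ≠ e2 l ∧ e2 k ≠ e2 l)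
    (h0 : ∀ k ∈ P, ¬ At (o k) (v k) c0) (hc : ∀ k ∈ P, ¬ At (o k) (v k) c)
    (hq : ∀ k ∈ P, q' (e1 k) = mg (o k) (q (e1 k)) (q (e2 k)))
    (hq' : ∀ e ∈ E, (∀ k ∈ P, e ≠ e1 k ∧ e ≠ e2 k) → q' e = q e) :
    iW (E \ P.image e2) (W ∪ (P.filter (fun k => o k = true)).image e2) q' c0 k0 c =
      iW E W q c0 k0 c := by
  induction P using Finset.induction_on generalizing q' with
  | empty =>
    simp only [image_empty, sdiff_empty, filter_empty, union_empty]
    unfold iW
    exact Ec_congr_q (fun e he => hq' e he (fun k hk => absurd hk (notMem_empty _))) _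
  | insert k P hk ih =>
    set q2 : ℤ × ℤ → ℂ := fun e => if e = e1 k ∨ e = e2 k then q e else q' e with hq2
    have hkP := hP k (mem_insert_self _ _)
    have hne : ∀ l ∈ P, l ≠ k := fun l hl h => hk (by rw [← h]; exact hl)
    have d1 : ∀ l ∈ P, e1 k ≠ e1 l ∧ e1 k ≠ e2 l ∧ e2 k ≠ e2 l := fun l hl =>
      hdis k (mem_insert_self _ _) l (mem_insert_of_mem hl) (hne l hl).symm
    have d2 : ∀ l ∈ P, e1 l ≠ e2 k := fun l hl =>
      (hdis l (mem_insert_of_mem hl) k (mem_insert_self _ _) (hne l hl)).2.1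
    have IH := ih (q' := q2) (fun l hl => hP l (mem_insert_of_mem hl))
      (fun a ha b hb hab => hdis a (mem_insert_of_mem ha) b (mem_insert_of_mem hb) hab)
      (fun l hl => h0 l (mem_insert_of_mem hl)) (fun l hl => hc l (mem_insert_of_mem hl))
      (fun l hl => ?_) (fun e he h => ?_)
    · rw [← IH]
      set EP := E \ P.image e2 with hEP
      set WP := W ∪ (P.filter (fun k => o k = true)).image e2 with hWP
      have hEPsub : EP ⊆ E := sdiff_subset
      have hEW : EP ∪ WP ⊆ E ∪ W := by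
        intro x hx
        rw [hEP, hWP] at hx
        rcases mem_union.1 hx with h | h
        · exact mem_union_left _ (mem_sdiff.1 h).1
        · rcases mem_union.1 h with h | h
          · exact mem_union_right _ h
          · obtain ⟨l, hl, rfl⟩ := mem_image.1 h
            exact mem_union_left _ (hP l (mem_insert_of_mem (mem_filter.1 hl).1)).m2
      have hdP : Disjoint EP WP := by
        rw [disjoint_left]
        intro x hx hx'
        rw [hEP] at hx
        rw [hWP] at hx'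
        obtain ⟨x1, x2⟩ := mem_sdiff.1 hx
        rcases mem_union.1 hx' with h | h
        · exact disjoint_left.1 hd x1 h
        · obtain ⟨l, hl, rfl⟩ := mem_image.1 h
          exact x2 (mem_image_of_mem _ (mem_filter.1 hl).1)
      have hcap : Cap EP WP (o k) (v k) (e1 k) (e2 k) := by
        refine ⟨hkP.a1, hkP.a2, hkP.ne, ?_, ?_, ?_, ?_⟩
        · rw [hEP, mem_sdiff]
          refine ⟨hkP.m1, fun h => ?_⟩
          obtain ⟨l, hl, h'⟩ := mem_image.1 h
          exact (d1 l hl).2.1 h'.symm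
        · rw [hEP, mem_sdiff]
          refine ⟨hkP.m2, fun h => ?_⟩
          obtain ⟨l, hl, h'⟩ := mem_image.1 h
          exact (d1 l hl).2.2 h'.symm
        · intro ho x hx h1 h2 h3
          exact hkP.restO ho x hx h1 h2 (hEW h3)
        · intro ho x hx h1 h2
          exact mem_union_left _ (hkP.restC ho x hx h1 h2)
      have key := iW_cap (q := q2) (q' := q') (c0 := c0) (c := c) (k0 := k0) hcap hdP ?_ ?_
        (h0 k (mem_insert_self _ _)) (hc k (mem_insert_self _ _))
      · rw [← key]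
        congr 1
        · rw [image_insert, sdiff_insert]
        · by_cases ho : o k = true
          · rw [filter_insert, if_pos ho, image_insert, union_insert, if_pos ho]
          · rw [filter_insert, if_neg ho, if_neg ho]
      · rw [hq k (mem_insert_self _ _)]
        simp only [hq2, true_or, or_true, if_true]
      · intro e he h1 h2
        simp only [hq2]
        rw [if_neg (by rw [not_or]; exact ⟨h1, h2⟩)]
    · -- weights of the other caps
      have := hq l (mem_insert_of_mem hl)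
      have a1 : ¬ (e1 l = e1 k ∨ e1 l = e2 k) := by
        rw [not_or]; exact ⟨(d1 l hl).1.symm, d2 l hl⟩
      simp only [hq2]
      rw [if_neg a1, this]
    · simp only [hq2]
      by_cases h' : e = e1 k ∨ e = e2 k
      · rw [if_pos h']
      · rw [if_neg h']
        rw [not_or] at h'
        refine hq' e he fun l hl => ?_
        rcases mem_insert.1 hl with h1 | h1
        · rw [h1]; exact h'
        · exact h l h1

end Pool.Agent.H13.Q1
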