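import Pool.Agent.H81.G1.Net
import Pool.Agent.H80.Sweep.Ret

set_option autoImplicit false

/-! # Blocks of tiles as tiles

`Cover X Y e c F`: the network `Y` is obtained from the network `X` if blocks of tiles are replaced by
single tiles; `e` sends an end of `Y` to an end of `X`, `F s` is the state of `Y` which belongs to the
state `s` of `X`, `c` is a change of the zero of the turnings. Then the amplitudes agree (`Cover.amp`),
and if the weights of `Y` are the weights of `X` summed over the blocks, then the state sums agree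
(`Cover.Z`). -/

namespace Pool.Agent.H13.Q1

open Finset Pool.Agent.H81.G1 Pool.Agent.H80.Sweep

/-! ### Maps -/

section Maps

variable {D D' : Type*} {f : D → D} {d : D → ℤ} {g : D' → D'} {d' : D' → ℤ} {e : D' → D}
  {c : D' → ℤ} {n : D' → ℕ}

/-- the number of steps of `f` for `j` steps of `g` -/
def tm (g : D' → D') (n : D' → ℕ) (x : D') : ℕ → ℕ
  | 0 => 0
  | j + 1 => tm g n x j + n (g^[j] x)

variable (h0 : ∀ y, 0 < n y) (h1 : ∀ y, f^[n y] (e y) = e (g y))
  (h2 : ∀ y k, 0 < k → k < n y → f^[k] (e y) ∉ Set.range e)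
  (h3 : ∀ y, ∑ k ∈ range (n y), d (f^[k] (e y)) = d' y + c (g y) - c y)

include h0 in
theorem tm_lt (x : D') (j : ℕ) : tm g n x j < tm g n x (j + 1) := by
  change _ < _ + _
  have := h0 (g^[j] x)
  omega

include h0 in
theorem tm_mono (x : D') : StrictMono (tm g n x) := strictMono_nat_of_lt_succ (tm_lt h0 x)

include h1 in
theorem tm_iter (x : D') (j : ℕ) : f^[tm g n x j] (e x) = e (g^[j] x) := by
  induction j with
  | zero => rfl
  | succ j ih =>
    change f^[tm g n x j + n (g^[j] x)] (e x) = _
    rw [Nat.add_comm, Function.iterate_add_apply, ih, h1, Function.iterate_succ_apply']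

include h1 h3 in
theorem tm_sum (x : D') (j : ℕ) : ∑ k ∈ range (tm g n x j), d (f^[k] (e x)) =
    ∑ k ∈ range j, d' (g^[k] x) + c (g^[j] x) - c x := by
  induction j with
  | zero => simp [tm]
  | succ j ih =>
    change ∑ k ∈ range (tm g n x j + n (g^[j] x)), _ = _
    rw [Finset.sum_range_add, ih, Finset.sum_range_succ]
    have e1 : ∀ k, f^[tm g n x j + k] (e x) = f^[k] (e (g^[j] x)) := by
      intro k
      rw [Nat.add_comm, Function.iterate_add_apply, tm_iter h1]
    simp only [e1]
    rw [h3, Function.iterate_succ_apply']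
    ring

include h0 h1 h2 in
/-- the visits of the range of `e` -/
theorem tm_surj (x : D') (m : ℕ) (hm : f^[m] (e x) ∈ Set.range e) : ∃ j, tm g n x j = m := by
  have hmono := tm_mono (g := g) (n := n) h0 x
  -- the last `j` with `tm j ≤ m`
  have hex : ∃ j, m < tm g n x (j + 1) := ⟨m, lt_of_lt_of_le (Nat.lt_succ_self m) (hmono.id_le _)⟩
  classical
  set j := Nat.find hex with hj
  have hj1 : m < tm g n x (j + 1) := Nat.find_spec hex
  have hj2 : tm g n x j ≤ m := by
    rcases Nat.eq_zero_or_pos j with h | h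
    · rw [h]; exact Nat.zero_le _
    · have := Nat.find_min hex (m := j - 1) (by omega)
      rw [Nat.sub_add_cancel h] at this
      omega
  refine ⟨j, ?_⟩
  by_contra hne
  have hlt : tm g n x j < m := lt_of_le_of_ne hj2 hne
  have hn : m - tm g n x j < n (g^[j] x) := by
    change m < tm g n x j + n (g^[j] x) at hj1
    omega
  apply h2 (g^[j] x) (m - tm g n x j) (by omega) hn
  rw [← tm_iter h1 x j, ← Function.iterate_add_apply, Nat.sub_add_cancel hj2]
  exact hm

include h0 h1 h2 in
theorem tm_period (he : Function.Injective e) (x : D') : Function.minimalPeriod f (e x) =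
    tm g n x (Function.minimalPeriod g x) := by
  have hmono := tm_mono (g := g) (n := n) h0 x
  rcases Nat.eq_zero_or_pos (Function.minimalPeriod g x) with hP | hP
  · rw [hP]
    change _ = 0
    by_contra hne
    have hpos : 0 < Function.minimalPeriod f (e x) := Nat.pos_of_ne_zero hne
    have hper : f^[Function.minimalPeriod f (e x)] (e x) = e x := Function.iterate_minimalPeriod
    obtain ⟨j, hj⟩ := tm_surj h0 h1 h2 x _ (by rw [hper]; exact ⟨x, rfl⟩)
    have h4 : g^[j] x = x := by
      apply he
      rw [← tm_iter h1, hj, hper]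
    have hj0 : 0 < j := by
      rcases Nat.eq_zero_or_pos j with h | h
      · rw [h] at hj
        change 0 = _ at hj
        omega
      · exact h
    have := Function.IsPeriodicPt.minimalPeriod_pos hj0 h4
    omega
  · have hper : g^[Function.minimalPeriod g x] x = x := Function.iterate_minimalPeriod
    have hp1 : f^[tm g n x (Function.minimalPeriod g x)] (e x) = e x := by
      rw [tm_iter h1, hper]
    have hp0 : 0 < tm g n x (Function.minimalPeriod g x) := by
      have := hmono hP
      change 0 < _ at this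
      exact this
    apply le_antisymm
    · exact Function.IsPeriodicPt.minimalPeriod_le hp0 hp1
    · have hpos : 0 < Function.minimalPeriod f (e x) :=
        Function.IsPeriodicPt.minimalPeriod_pos hp0 hp1
      have hper' : f^[Function.minimalPeriod f (e x)] (e x) = e x := Function.iterate_minimalPeriod
      obtain ⟨j, hj⟩ := tm_surj h0 h1 h2 x _ (by rw [hper']; exact ⟨x, rfl⟩)
      have h4 : g^[j] x = x := by
        apply he
        rw [← tm_iter h1, hj, hper']
      have hj0 : 0 < j := by
        rcases Nat.eq_zero_or_pos j with h | h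
        · rw [h] at hj
          change 0 = _ at hj
          omega
        · exact h
      rw [← hj]
      exact hmono.monotone (Function.IsPeriodicPt.minimalPeriod_le hj0 h4)

include h0 h1 h2 h3 in
/-- **Amplitudes of a map and of its first return map.** -/
theorem sum_cover [DecidableEq D] [DecidableEq D'] (he : Function.Injective e) (x y : D')
    (φ : ℤ → ℂ) :
    ∑ k ∈ range (Function.minimalPeriod f (e x)),
      (if f^[k] (e x) = e y then φ (∑ i ∈ range k, d (f^[i] (e x))) else 0) =
    ∑ k ∈ range (Function.minimalPeriod g x),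
      (if g^[k] x = y then φ (∑ i ∈ range k, d' (g^[i] x) + c y - c x) else 0) := by
  have hmono := tm_mono (g := g) (n := n) h0 x
  rw [tm_period h0 h1 h2 he x]
  have hinj : Set.InjOn (tm g n x) (range (Function.minimalPeriod g x) : Set ℕ) :=
    fun a _ b _ h => hmono.injective h
  have hsub : (range (Function.minimalPeriod g x)).image (tm g n x) ⊆
      range (tm g n x (Function.minimalPeriod g x)) := by
    intro m hm
    obtain ⟨j, hj, rfl⟩ := mem_image.1 hm
    exact mem_range.2 (hmono (mem_range.1 hj))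
  rw [← Finset.sum_subset hsub, Finset.sum_image hinj]
  · refine Finset.sum_congr rfl fun j _ => ?_
    rw [tm_iter h1, tm_sum h1 h3]
    by_cases h : g^[j] x = y
    · rw [if_pos h, if_pos (by rw [h]), h]
    · rw [if_neg h, if_neg (fun h' => h (he h'))]
  · intro m hm hm'
    rw [if_neg]
    intro h
    obtain ⟨j, hj⟩ := tm_surj h0 h1 h2 x m (by rw [h]; exact ⟨y, rfl⟩)
    apply hm'
    refine mem_image.2 ⟨j, mem_range.2 ?_, hj⟩
    by_contra hge
    have := hmono.monotone (not_lt.1 hge)
    have hm1 := mem_range.1 hm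
    omega

end Maps

/-! ### Networks -/

variable {ι κ : Type*}

/-- `Thru X s R x z t`: the strand which enters at `x` leaves at the end `z` of a tile, before it
comes back to `R`; `t` is its turning -/
inductive Thru (X : Net ι) (s : ι → Bool) (R : Set (ι × Dir)) : ι × Dir → ι × Dir → ℤ → Prop
  | out {x z : ι × Dir} {t : ℤ} (h1 : z = (x.1, x.2.mate (s x.1))) (h2 : t = x.2.tn (s x.1)) :
      Thru X s R x z t
  | step {x y z : ι × Dir} {t t' : ℤ} (h1 : X.π (x.1, x.2.mate (s x.1)) = y) (h2 : y ∉ R)
      (h3 : Thru X s R y z t') (h4 : t = x.2.tn (s x.1) + X.t (x.1, x.2.mate (s x.1)) + t') :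
      Thru X s R x z t

theorem Thru.ret {X : Net ι} {s : ι → Bool} {R : Set (ι × Dir)} {x z : ι × Dir} {t : ℤ}
    (h : Thru X s R x z t) (hz : X.π z ∈ R) :
    Ret (X.step s) (X.dt s) (· ∈ R) x (X.π z) (t + X.t z) := by
  induction h with
  | @out x z t h1 h2 =>
    refine Ret.last ?_ hz ?_
    · unfold Net.step; rw [h1]
    · unfold Net.dt; rw [h2, h1]
  | @step x y z t t' h1 h2 _ h4 ih =>
    have e : t + X.t z = X.dt s x + (t' + X.t z) := by
      unfold Net.dt; rw [h4]; ring
    rw [e]
    exact Ret.step (z := y) (by unfold Net.step; exact h1) h2 rfl (ih hz)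

/-- `Y` arises from `X` if blocks of tiles are replaced by tiles -/
structure Cover (X : Net ι) (Y : Net κ) (e : κ × Dir → ι × Dir) (c : κ × Dir → ℤ)
    (F : (ι → Bool) → κ → Bool) : Prop where
  inj : Function.Injective e
  x0 : e Y.x0 = X.x0
  y0 : e Y.y0 = X.y0
  wire : ∀ y, X.π (e y) = e (Y.π y)
  turn : ∀ y, X.t (e y) = Y.t y - c y + c (Y.π y)
  thru : ∀ s k (d : Dir), Thru X s (Set.range e) (e (k, d)) (e (k, d.mate (F s k)))
    (d.tn (F s k) - c (k, d) + c (k, d.mate (F s k)))

variable {X : Net ι} {Y : Net κ} {e : κ × Dir → ι × Dir} {c : κ × Dir → ℤ}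
  {F : (ι → Bool) → κ → Bool}

theorem Cover.ret (h : Cover X Y e c F) (s : ι → Bool) (y : κ × Dir) :
    Ret (X.step s) (X.dt s) (· ∈ Set.range e) (e y) (e (Y.step (F s) y))
      (Y.dt (F s) y + c (Y.step (F s) y) - c y) := by
  obtain ⟨k, d⟩ := y
  have h1 := (h.thru s k d).ret (by rw [h.wire]; exact ⟨_, rfl⟩)
  rw [h.wire, h.turn] at h1
  have e1 : d.tn (F s k) - c (k, d) + c (k, d.mate (F s k)) +
      (Y.t (k, d.mate (F s k)) - c (k, d.mate (F s k)) + c (Y.π (k, d.mate (F s k)))) =
      Y.dt (F s) (k, d) + c (Y.step (F s) (k, d)) - c (k, d) := by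
    unfold Net.dt Net.step
    ring
  rw [e1] at h1
  exact h1

/-- **The amplitudes agree.** -/
theorem Cover.amp [DecidableEq ι] [DecidableEq κ] (h : Cover X Y e c F) (s : ι → Bool) :
    X.amp s = zt ^ (-2 * (c Y.y0 - c Y.x0)) * Y.amp (F s) := by
  choose n hn using fun y => (h.ret s y).iter
  have key := sum_cover (f := X.step s) (d := X.dt s) (g := Y.step (F s)) (d' := Y.dt (F s))
    (e := e) (c := c) (n := n) (fun y => (hn y).1) (fun y => (hn y).2.1)
    (fun y k hk hk' => (hn y).2.2.2.1 k hk hk') (fun y => (hn y).2.2.2.2.symm) h.inj Y.x0 Y.y0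
    (fun k => zt ^ (-2 * k))
  unfold Net.amp Net.ln Net.KT
  rw [← h.x0, ← h.y0, key, Finset.mul_sum]
  refine Finset.sum_congr rfl fun k _ => ?_
  split_ifs
  · rw [← zpow_add₀ zt_ne]
    congr 1
    ring
  · rw [mul_zero]

/-! ### Sums over the states -/

section Sums

variable [Fintype ι] [DecidableEq ι] [Fintype κ] [DecidableEq κ]

/-- the states of the tiles are the states of the blocks -/
def blkE (q : ι → κ) : (ι → Bool) ≃ (∀ k : κ, {i // q i = k} → Bool) :=
  ((Equiv.sigmaFiberEquiv q).arrowCongr (Equiv.refl Bool)).symm.trans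
    (Equiv.piCurry (fun _ _ => Bool))

omit [Fintype ι] [DecidableEq ι] [Fintype κ] [DecidableEq κ] in
theorem blkE_apply (q : ι → κ) (s : ι → Bool) (k : κ) (i : {i // q i = k}) :
    blkE q s k i = s i.1 := rfl

/-- **Sums over blocks.** -/
theorem sum_blocks (q : ι → κ) (F : (ι → Bool) → κ → Bool)
    (Fk : ∀ k : κ, ({i // q i = k} → Bool) → Bool)
    (hF : ∀ s k, F s k = Fk k (fun i => s i.1)) (w : ι → Bool → ℂ) (w' : κ → Bool → ℂ)
    (hw : ∀ k β, (∑ u : {i // q i = k} → Bool,
      if Fk k u = β then ∏ i, w i.1 (u i) else 0) = w' k β) (G : (κ → Bool) → ℂ) :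
    ∑ s : ι → Bool, (∏ i, w i (s i)) * G (F s) = ∑ σ : κ → Bool, (∏ k, w' k (σ k)) * G σ := by
  classical
  have h1 : ∀ σ : κ → Bool, ∏ k, w' k (σ k) = ∑ s : ι → Bool,
      if F s = σ then ∏ i, w i (s i) else 0 := by
    intro σ
    have e1 : ∏ k, w' k (σ k) = ∏ k, ∑ u : {i // q i = k} → Bool,
        (if Fk k u = σ k then ∏ i, w i.1 (u i) else 0) :=
      Finset.prod_congr rfl fun k _ => (hw k (σ k)).symm
    rw [e1, Finset.prod_univ_sum, Fintype.piFinset_univ, ← Equiv.sum_comp (blkE q)]
    refine Finset.sum_congr rfl fun s _ => ?_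
    by_cases h : F s = σ
    · rw [if_pos h]
      have e2 : ∀ k ∈ (univ : Finset κ), (if Fk k (blkE q s k) = σ k then
          ∏ i, w i.1 (blkE q s k i) else 0) = ∏ i : {i // q i = k}, w i.1 (s i.1) := by
        intro k _
        rw [if_pos]
        · rfl
        · rw [← h, hF]; rfl
      rw [Finset.prod_congr rfl e2]
      exact Fintype.prod_fiberwise q (fun i => w i (s i))
    · rw [if_neg h]
      obtain ⟨k, hk⟩ : ∃ k, F s k ≠ σ k := by
        by_contra hcon
        push Not at hcon
        exact h (funext hcon)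
      refine Finset.prod_eq_zero (mem_univ k) ?_
      rw [if_neg]
      intro h'
      apply hk
      rw [hF, ← h']; rfl
  simp only [h1]
  simp only [Finset.sum_mul]
  rw [Finset.sum_comm]
  refine Finset.sum_congr rfl fun s _ => ?_
  rw [Finset.sum_eq_single (F s)]
  · rw [if_pos rfl]
  · intro σ _ hσ
    rw [if_neg (Ne.symm hσ), zero_mul]
  · intro h; exact absurd (mem_univ _) h

/-- **The state sums agree.** -/
theorem Cover.Z (h : Cover X Y e c F) (q : ι → κ)
    (Fk : ∀ k : κ, ({i // q i = k} → Bool) → Bool)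
    (hF : ∀ s k, F s k = Fk k (fun i => s i.1)) (a b : ι → ℂ) (a' b' : κ → ℂ)
    (hw : ∀ k β, (∑ u : {i // q i = k} → Bool,
      if Fk k u = β then ∏ i, (if u i then b i.1 else a i.1) else 0) =
        if β then b' k else a' k) :
    X.Z a b = zt ^ (-2 * (c Y.y0 - c Y.x0)) * Y.Z a' b' := by
  unfold Net.Z
  rw [Finset.mul_sum]
  have e1 := sum_blocks q F Fk hF (fun i β => if β then b i else a i)
    (fun k β => if β then b' k else a' k) hw
    (fun σ => zt ^ (-2 * (c Y.y0 - c Y.x0)) * Y.amp σ)
  simp only [h.amp]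
  rw [e1]
  exact Finset.sum_congr rfl fun σ _ => by ring

end Sums

end Pool.Agent.H13.Q1
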