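import Pool.Agent.H13.Q1.FourK

/-!
# The contour integral
-/

open Complex Metric Set Topology Filter MeasureTheory
open scoped ComplexConjugate Interval
open H87.FM (HP CH w)

noncomputable section

namespace Pool.Agent.H13.Q1.Four

theorem isOpen_HP : IsOpen HP := isOpen_lt continuous_const Complex.continuous_im

theorem line_int {Q : ℂ → ℂ} (hd : DifferentiableOn ℂ Q HP) {g : ℝ → ℝ} (hg : Integrable g)
    (hQg : ∀ᵐ t : ℝ, ∀ ε : ℝ, 0 < ε → ε ≤ 1 → ‖Q (t + ε * I)‖ ≤ g t) {ε : ℝ} (h0 : 0 < ε)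
    (h1 : ε ≤ 1) : Integrable (fun t : ℝ => Q (t + ε * I)) := by
  refine hg.mono' ?_ ?_
  · apply Continuous.aestronglyMeasurable
    have hc : ContinuousOn Q HP := hd.continuousOn
    refine hc.comp_continuous (by fun_prop) ?_
    intro t
    change 0 < ((t : ℂ) + ε * I).im
    simpa using h0
  · filter_upwards [hQg] with t ht
    exact ht ε h0 h1

theorem line_zero {Q : ℂ → ℂ} (hd : DifferentiableOn ℂ Q HP) {C K : ℝ}
    (hC : ∀ s : ℂ, 0 < s.im → K ≤ ‖s‖ → ‖Q s‖ ≤ C / ‖s‖ ^ 2) {ε : ℝ} (h0 : 0 < ε)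
    (hi : Integrable (fun t : ℝ => Q (t + ε * I))) : ∫ t : ℝ, Q (t + ε * I) = 0 := by
  have hlim : Tendsto (fun T : ℝ => ∫ t in (-T)..T, Q (t + ε * I)) atTop
      (𝓝 (∫ t : ℝ, Q (t + ε * I))) :=
    intervalIntegral_tendsto_integral hi tendsto_neg_atTop_atBot tendsto_id
  have hz : Tendsto (fun T : ℝ => ∫ t in (-T)..T, Q (t + ε * I)) atTop (𝓝 0) := by
    rw [tendsto_zero_iff_norm_tendsto_zero]
    have hb : Tendsto (fun T : ℝ => 4 * C * T⁻¹) atTop (𝓝 0) := by
      have := tendsto_inv_atTop_zero.const_mul (4 * C) (f := fun T : ℝ => T⁻¹)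
      simpa using this
    refine squeeze_zero' (Eventually.of_forall fun _ => norm_nonneg _) ?_ hb
    filter_upwards [eventually_ge_atTop (max K (max 1 (ε + 1)))] with T hT
    have hTK : K ≤ T := (le_max_left _ _).trans hT
    have hT1 : 1 ≤ T := (le_max_left _ _).trans ((le_max_right _ _).trans hT)
    have hTε : ε + 1 ≤ T := (le_max_right _ _).trans ((le_max_right _ _).trans hT)
    have hT0 : 0 < T := by linarith
    -- the bound on the far sides
    have far : ∀ s : ℂ, 0 < s.im → T ≤ ‖s‖ → ‖Q s‖ ≤ C / T ^ 2 := by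
      intro s hs hsT
      have e1 := hC s hs (hTK.trans hsT)
      have hs0 : 0 < ‖s‖ := by linarith
      have hC0 : 0 ≤ C := by
        have h2 := (norm_nonneg _).trans e1
        have h3 : 0 < ‖s‖ ^ 2 := by positivity
        by_contra hcon
        rw [not_le] at hcon
        have := div_neg_of_neg_of_pos hcon h3
        linarith
      refine e1.trans ?_
      apply div_le_div_of_nonneg_left hC0 (by positivity)
      exact pow_le_pow_left₀ hT0.le hsT 2
    have hrect := integral_boundary_rect_eq_zero_of_differentiableOn Q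
      (⟨-T, ε⟩ : ℂ) (⟨T, T⟩ : ℂ) (by
        refine hd.mono ?_
        intro s hs
        have : s.im ∈ [[ε, T]] := hs.2
        rw [uIcc_of_le (by linarith)] at this
        exact h0.trans_le this.1)
    simp only at hrect
    have n1 : ‖∫ x in (-T)..T, Q (x + T * I)‖ ≤ C / T ^ 2 * |T - -T| := by
      apply intervalIntegral.norm_integral_le_of_norm_le_const
      intro x _
      apply far
      · simpa using hT0
      · have := abs_im_le_norm ((x : ℂ) + T * I)
        simp only [add_im, ofReal_im, mul_im, ofReal_re, I_im, mul_one, I_re, mul_zero, add_zero,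
          zero_add] at this
        exact (le_abs_self T).trans this
    have n2 : ‖∫ y in ε..T, Q (T + y * I)‖ ≤ C / T ^ 2 * |T - ε| := by
      apply intervalIntegral.norm_integral_le_of_norm_le_const
      intro y hy
      rw [uIoc_of_le (by linarith)] at hy
      apply far
      · have := h0.trans hy.1
        simpa using this
      · have := abs_re_le_norm ((T : ℂ) + y * I)
        simp only [add_re, ofReal_re, mul_re, I_re, mul_zero, ofReal_im, I_im, mul_one, sub_self,
          add_zero] at this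
        exact (le_abs_self T).trans this
    have n3 : ‖∫ y in ε..T, Q (((-T : ℝ) : ℂ) + y * I)‖ ≤ C / T ^ 2 * |T - ε| := by
      apply intervalIntegral.norm_integral_le_of_norm_le_const
      intro y hy
      rw [uIoc_of_le (by linarith)] at hy
      apply far
      · have := h0.trans hy.1
        simpa using this
      · have := abs_re_le_norm (((-T : ℝ) : ℂ) + y * I)
        simp only [add_re, ofReal_re, mul_re, I_re, mul_zero, ofReal_im, I_im, mul_one, sub_self,
          add_zero, abs_neg] at this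
        exact (le_abs_self T).trans this
    have hC0 : 0 ≤ C := by
      have e1 := far (T * I) (by simpa using hT0) (by
        rw [norm_mul, Complex.norm_I, mul_one, Complex.norm_real, Real.norm_of_nonneg hT0.le])
      have h2 := (norm_nonneg _).trans e1
      by_contra hcon
      rw [not_le] at hcon
      have := div_neg_of_neg_of_pos hcon (by positivity : 0 < T ^ 2)
      linarith
    have key : ∫ t in (-T)..T, Q (t + ε * I) = (∫ x in (-T)..T, Q (x + T * I)) -
        I • (∫ y in ε..T, Q (T + y * I)) + I • (∫ y in ε..T, Q (((-T : ℝ) : ℂ) + y * I)) := by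
      linear_combination hrect
    rw [key]
    refine (norm_add_le _ _).trans ?_
    have m1 := norm_sub_le (∫ x in (-T)..T, Q (x + T * I)) (I • (∫ y in ε..T, Q (T + y * I)))
    rw [norm_smul, Complex.norm_I, one_mul] at m1
    rw [norm_smul, Complex.norm_I, one_mul]
    have a1 : |T - -T| = 2 * T := by rw [abs_of_pos (by linarith)]; ring
    have a2 : |T - ε| ≤ T := by rw [abs_of_pos (by linarith)]; linarith
    rw [a1] at n1
    have b1 : C / T ^ 2 * |T - ε| ≤ C / T ^ 2 * T :=
      mul_le_mul_of_nonneg_left a2 (by positivity)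
    have b2 : C / T ^ 2 * (2 * T) = 2 * C * T⁻¹ := by field_simp
    have b3 : C / T ^ 2 * T = C * T⁻¹ := by field_simp
    linarith
  exact tendsto_nhds_unique hlim hz

/-- **The contour integral.** -/
theorem contour_zero {Q : ℂ → ℂ} (hd : DifferentiableOn ℂ Q HP) {g : ℝ → ℝ} (hg : Integrable g)
    (hQg : ∀ᵐ t : ℝ, ∀ ε : ℝ, 0 < ε → ε ≤ 1 → ‖Q (t + ε * I)‖ ≤ g t) {C K : ℝ}
    (hC : ∀ s : ℂ, 0 < s.im → K ≤ ‖s‖ → ‖Q s‖ ≤ C / ‖s‖ ^ 2) {q : ℝ → ℂ}
    (hq : ∀ᵐ t : ℝ, Tendsto (fun ε : ℝ => Q (t + ε * I)) (𝓝[>] 0) (𝓝 (q t))) :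
    ∫ t, q t = 0 := by
  have h1 : Tendsto (fun ε : ℝ => ∫ t : ℝ, Q (t + ε * I)) (𝓝[>] 0) (𝓝 (∫ t, q t)) := by
    have hev : ∀ᶠ ε : ℝ in 𝓝[>] 0, 0 < ε ∧ ε ≤ 1 := by
      filter_upwards [Ioc_mem_nhdsGT (zero_lt_one' ℝ)] with ε hε
      exact hε
    apply tendsto_integral_filter_of_dominated_convergence g
    · filter_upwards [hev] with ε hε
      exact (line_int hd hg hQg hε.1 hε.2).aestronglyMeasurable
    · filter_upwards [hev] with ε hε
      filter_upwards [hQg] with t ht
      exact ht ε hε.1 hε.2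
    · exact hg
    · exact hq
  have h2 : Tendsto (fun ε : ℝ => ∫ t : ℝ, Q (t + ε * I)) (𝓝[>] 0) (𝓝 0) := by
    refine tendsto_const_nhds.congr' ?_
    filter_upwards [Ioc_mem_nhdsGT (zero_lt_one' ℝ)] with ε hε
    exact (line_zero hd hC hε.1 (line_int hd hg hQg hε.1 hε.2)).symm
  exact tendsto_nhds_unique h1 h2

end Pool.Agent.H13.Q1.Four
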