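import Pool.Agent.H13.Q1.FourC

/-!
# The explicit solution of the four mark problem
-/

open Complex Metric Set Topology Filter MeasureTheory
open scoped ComplexConjugate Interval
open H87.FM

noncomputable section

namespace Pool.Agent.H13.Q1.Four

theorem cpow_cont (c : ℂ) {z : ℂ} (h0 : z ≠ 0) : ContinuousWithinAt (fun z : ℂ => z ^ c) CH z := by
  have hlog : ContinuousWithinAt log CH z := by
    by_cases hs : z ∈ slitPlane
    · exact (continuousAt_clog hs).continuousWithinAt
    · rw [mem_slitPlane_iff, not_or, not_lt, not_not] at hs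
      have hre : z.re < 0 := by
        rcases hs.1.lt_or_eq with h | h
        · exact h
        · exact absurd (Complex.ext h hs.2) h0
      exact continuousWithinAt_log_of_re_neg_of_im_zero hre hs.2
  have h2 : ContinuousWithinAt (fun z => exp (log z * c)) CH z :=
    (hlog.mul continuousWithinAt_const).cexp
  refine h2.congr_of_eventuallyEq ?_ ?_
  · have : ∀ᶠ v in 𝓝[CH] z, v ≠ 0 := nhdsWithin_le_nhds (isOpen_ne.mem_nhds h0)
    filter_upwards [this] with v hv
    exact cpow_def_of_ne_zero hv _
  · exact cpow_def_of_ne_zero h0 _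

/-- the integrand -/
def QQ (x : Fin 4 → ℝ) (z s : ℂ) : ℂ := (∏ k, (s + x k) ^ ((-2 / 3 : ℝ) : ℂ)) * kr (z + s)

theorem norm_QQ (x : Fin 4 → ℝ) (z s : ℂ) :
    ‖QQ x z s‖ = (∏ k, ‖s + x k‖ ^ (-2 / 3 : ℝ)) * ‖z + s‖ ^ (2 / 3 : ℝ) := by
  unfold QQ
  rw [norm_mul, norm_prod, norm_kr]
  congr 1
  exact Finset.prod_congr rfl fun k _ => norm_cpow_real _ _

theorem slit_of_HP {s : ℂ} (hs : 0 < s.im) : s ∈ slitPlane := by
  rw [mem_slitPlane_iff]
  exact Or.inr hs.ne'

theorem QQ_diff (x : Fin 4 → ℝ) {z : ℂ} (hz : z ∈ CH) : DifferentiableOn ℂ (QQ x z) HP := by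
  intro s hs
  apply DifferentiableAt.differentiableWithinAt
  have hs' : 0 < s.im := hs
  have hz' : 0 ≤ z.im := hz
  unfold QQ kr
  apply DifferentiableAt.mul
  · apply DifferentiableAt.fun_finset_prod
    intro k _
    have h1 : s + (x k : ℂ) ∈ slitPlane := slit_of_HP (by simpa using hs')
    exact (differentiableAt_id.add_const _).cpow_const h1
  · have h1 : z + s ∈ slitPlane := slit_of_HP (by rw [add_im]; linarith)
    exact (differentiableAt_id.const_add z).cpow_const h1

theorem neg_inj {x : Fin 4 → ℝ} (hx : Function.Injective x) :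
    Function.Injective (fun k => - x k) := fun a b h => hx (neg_injective h)

/-- **The contour integral vanishes.** -/
theorem QQ_zero {x : Fin 4 → ℝ} (hx : Function.Injective x) {z : ℂ} (hz : z ∈ CH) :
    ∫ t : ℝ, QQ x z t = 0 := by
  have hz' : 0 ≤ z.im := hz
  obtain ⟨K, hK1, hKc, hK⟩ := exists_K (fun k => - x k) ‖z‖
  apply contour_zero (QQ_diff x hz) (dom_int (neg_inj hx) (c := ‖z‖ + 1) (by positivity))
    (C := 16) (K := K)
  · have hae : ∀ᵐ t : ℝ, ∀ k, t ≠ - x k := by
      rw [ae_all_iff]
      intro k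
      have := (Set.countable_singleton (-x k)).ae_notMem (volume : Measure ℝ)
      filter_upwards [this] with t ht
      simpa using ht
    filter_upwards [hae] with t ht ε h0 h1
    rw [norm_QQ]
    unfold rho
    apply mul_le_mul _ _ (by positivity) (Finset.prod_nonneg fun k _ => by positivity)
    · apply Finset.prod_le_prod
      · intro k _
        positivity
      · intro k _
        have h2 : |t - -x k| ≤ ‖(t : ℂ) + ε * I + x k‖ := by
          have := abs_re_le_norm ((t : ℂ) + ε * I + x k)
          simpa using this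
        have h3 : 0 < |t - -x k| := abs_pos.2 (sub_ne_zero.2 (ht k))
        exact Real.rpow_le_rpow_of_nonpos h3 h2 (by norm_num)
    · apply Real.rpow_le_rpow (norm_nonneg _) _ (by norm_num)
      refine (norm_add_le _ _).trans ?_
      have h2 : ‖(t : ℂ) + ε * I‖ ≤ |t| + ε := by
        refine (norm_add_le _ _).trans ?_
        rw [norm_mul, Complex.norm_I, mul_one, Complex.norm_real, Complex.norm_real,
          Real.norm_eq_abs, Real.norm_of_nonneg h0.le]
      linarith
  · intro s hs hsK
    rw [norm_QQ]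
    have h1 := tail_bound hK1 hKc (norm_nonneg z) hsK (hK s hsK)
    refine le_trans ?_ h1
    apply mul_le_mul _ _ (by positivity) (Finset.prod_nonneg fun k _ => by positivity)
    · apply le_of_eq
      apply Finset.prod_congr rfl
      intro k _
      push_cast
      rw [sub_neg_eq_add]
    · apply Real.rpow_le_rpow (norm_nonneg _) _ (by norm_num)
      rw [add_comm z s]
      exact norm_add_le _ _
  · have hae : ∀ᵐ t : ℝ, ∀ k, t ≠ - x k := by
      rw [ae_all_iff]
      intro k
      have := (Set.countable_singleton (-x k)).ae_notMem (volume : Measure ℝ)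
      filter_upwards [this] with t ht
      simpa using ht
    filter_upwards [hae] with t ht
    unfold QQ
    have hbase : ∀ c : ℂ, Tendsto (fun ε : ℝ => (t : ℂ) + ε * I + c) (𝓝[>] 0)
        (𝓝 ((t : ℂ) + c)) := by
      intro c
      have h1 : Tendsto (fun ε : ℝ => (t : ℂ) + ε * I + c) (𝓝 0)
          (𝓝 ((t : ℂ) + ((0 : ℝ) : ℂ) * I + c)) :=
        (by fun_prop : Continuous fun ε : ℝ => (t : ℂ) + ε * I + c).tendsto 0
      have h2 : (t : ℂ) + ((0 : ℝ) : ℂ) * I + c = (t : ℂ) + c := by simp
      rw [h2] at h1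
      exact h1.mono_left nhdsWithin_le_nhds
    apply Tendsto.mul
    · apply tendsto_finset_prod
      intro k _
      have h0 : (t : ℂ) + x k ≠ 0 := by
        intro h
        apply ht k
        have : ((t + x k : ℝ) : ℂ) = 0 := by push_cast; exact h
        rw [ofReal_eq_zero] at this
        linarith
      have h1 := cpow_cont ((-2 / 3 : ℝ) : ℂ) h0
      refine h1.tendsto.comp (tendsto_nhdsWithin_iff.2 ⟨hbase _, ?_⟩)
      filter_upwards [self_mem_nhdsWithin] with ε hε
      have hε' : 0 < ε := hε
      change 0 ≤ ((t : ℂ) + ε * I + x k).im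
      simpa using hε'.le
    · have h1 := kr_cont (z + t)
      have h2 : Tendsto (fun ε : ℝ => z + ((t : ℂ) + ε * I)) (𝓝[>] 0) (𝓝 (z + t)) := by
        have := hbase z
        rw [add_comm z (t : ℂ)]
        refine this.congr fun ε => ?_
        ring
      refine h1.tendsto.comp (tendsto_nhdsWithin_iff.2 ⟨h2, ?_⟩)
      filter_upwards [self_mem_nhdsWithin] with ε hε
      have hε' : 0 < ε := hε
      change 0 ≤ (z + ((t : ℂ) + ε * I)).im
      simp only [add_im, ofReal_im, mul_im, ofReal_re, I_im, mul_one, I_re, mul_zero, add_zero,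
        zero_add]
      linarith

end Pool.Agent.H13.Q1.Four
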