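import Pool.Agent.H13.Q1.FourD

/-!
# The explicit solution of the four mark problem: the relation, and `Sol4`
-/

open Complex Metric Set Topology Filter MeasureTheory
open scoped ComplexConjugate Interval
open H87.FM

noncomputable section

namespace Pool.Agent.H13.Q1.Four

theorem w_sq_eq : w ^ 2 = exp (Real.pi * I * ((-2 / 3 : ℝ) : ℂ)) := by
  have h1 : w * w ^ 2 = 1 := by rw [← w_cube]; ring
  have h2 : w * exp (Real.pi * I * ((-2 / 3 : ℝ) : ℂ)) = 1 := by
    unfold w
    rw [← exp_add]
    have : 2 * (Real.pi : ℂ) / 3 * I + Real.pi * I * ((-2 / 3 : ℝ) : ℂ) = 0 := by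
      push_cast; ring
    rw [this, exp_zero]
  have h3 := h1.trans h2.symm
  exact mul_left_cancel₀ w_ne h3

theorem factor (x u : ℝ) : (-(u : ℂ) + x) ^ ((-2 / 3 : ℝ) : ℂ) =
    (if x < u then w ^ 2 else 1) * ((|u - x| ^ (-2 / 3 : ℝ) : ℝ) : ℂ) := by
  have e : -(u : ℂ) + x = ((x - u : ℝ) : ℂ) := by push_cast; ring
  rw [e]
  by_cases h : x < u
  · rw [if_pos h, ofReal_cpow_of_nonpos (by linarith), ← w_sq_eq, mul_comm,
      ← ofReal_neg, ← ofReal_cpow (by linarith), abs_of_pos (by linarith)]
    congr 3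
    ring
  · rw [if_neg h, one_mul, ← ofReal_cpow (by linarith), abs_sub_comm, abs_of_nonneg (by linarith)]

theorem QQ_neg (x : Fin 4 → ℝ) (z : ℂ) (u : ℝ) : QQ x z (-(u : ℂ)) =
    (∏ k, if x k < u then w ^ 2 else 1) * ((rho x u : ℂ) * kr (z - u)) := by
  unfold QQ rho
  rw [Finset.prod_congr rfl fun k _ => factor (x k) u, Finset.prod_mul_distrib, ofReal_prod,
    ← sub_eq_add_neg]
  ring

theorem QQ_int {x : Fin 4 → ℝ} (hx : Function.Injective x) (z : ℂ) :
    Integrable (fun u : ℝ => QQ x z (-(u : ℂ))) := by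
  refine (dom_int hx (c := ‖z‖) (norm_nonneg z)).mono' ?_ ?_
  · apply Measurable.aestronglyMeasurable
    unfold QQ kr
    apply Measurable.mul
    · apply Finset.measurable_fun_prod
      intro k _
      exact ((Complex.measurable_ofReal.neg).add_const _).pow_const _
    · exact ((Complex.measurable_ofReal.neg).const_add _).pow_const _
  · refine Eventually.of_forall fun u => ?_
    rw [norm_QQ]
    unfold rho
    apply mul_le_mul _ _ (by positivity) (Finset.prod_nonneg fun k _ => by positivity)
    · apply le_of_eq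
      apply Finset.prod_congr rfl
      intro k _
      congr 1
      have e : -(u : ℂ) + x k = ((x k - u : ℝ) : ℂ) := by push_cast; ring
      rw [e, Complex.norm_real, Real.norm_eq_abs, abs_sub_comm]
    · apply Real.rpow_le_rpow (norm_nonneg _) _ (by norm_num)
      refine (norm_add_le _ _).trans ?_
      rw [norm_neg, Complex.norm_real, Real.norm_eq_abs]
      linarith

theorem w4 : w ^ 2 * w ^ 2 = w := by linear_combination w * w_cube

theorem w6 : w ^ 2 * w ^ 2 * w ^ 2 = 1 := by linear_combination (w ^ 3 + 1) * w_cube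

/-- **The linear relation.** -/
theorem rel_zero {x : Fin 4 → ℝ} (hx : StrictMono x) {z : ℂ} (hz : z ∈ CH) :
    (∫ u in Iic (x 0), (rho x u : ℂ) * kr (z - u)) + w ^ 2 * JJ (rho x) (x 0) (x 1) z +
      w * JJ (rho x) (x 1) (x 2) z + JJ (rho x) (x 2) (x 3) z +
      w ^ 2 * (∫ u in Ioi (x 3), (rho x u : ℂ) * kr (z - u)) = 0 := by
  have x01 : x 0 < x 1 := hx (by decide)
  have x12 : x 1 < x 2 := hx (by decide)
  have x23 : x 2 < x 3 := hx (by decide)
  set F : ℝ → ℂ := fun u => QQ x z (-(u : ℂ)) with hF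
  have hFi : Integrable F := QQ_int hx.injective z
  have h0 : ∫ u, F u = 0 := by
    have := QQ_zero hx.injective hz
    rw [← integral_neg_eq_self] at this
    rw [← this]
    congr 1
    funext u
    simp only [hF, ofReal_neg]
  have hsplit : (∫ u in Iic (x 0), F u) + (∫ u in (x 0)..(x 1), F u) +
      (∫ u in (x 1)..(x 2), F u) + (∫ u in (x 2)..(x 3), F u) + (∫ u in Ioi (x 3), F u) = 0 := by
    have e1 := intervalIntegral.integral_Iic_add_Ioi (b := x 3) (μ := volume) (f := F)
      hFi.integrableOn hFi.integrableOn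
    have e2 := intervalIntegral.integral_Iic_sub_Iic (a := x 0) (b := x 3) (μ := volume) (f := F)
      hFi.integrableOn hFi.integrableOn
    have e3 := intervalIntegral.integral_add_adjacent_intervals (a := x 0) (b := x 1) (c := x 2)
      (μ := volume) (f := F) hFi.intervalIntegrable hFi.intervalIntegrable
    have e4 := intervalIntegral.integral_add_adjacent_intervals (a := x 0) (b := x 2) (c := x 3)
      (μ := volume) (f := F) hFi.intervalIntegrable hFi.intervalIntegrable
    rw [h0] at e1
    linear_combination e1 - e2 + e3 + e4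
  have a0 : (∫ u in Iic (x 0), F u) = ∫ u in Iic (x 0), (rho x u : ℂ) * kr (z - u) := by
    apply setIntegral_congr_fun measurableSet_Iic
    intro u hu
    have hu' : u ≤ x 0 := hu
    simp only [hF, QQ_neg, Fin.prod_univ_four]
    rw [if_neg (by linarith), if_neg (by linarith), if_neg (by linarith), if_neg (by linarith)]
    ring
  have a1 : (∫ u in (x 0)..(x 1), F u) = w ^ 2 * JJ (rho x) (x 0) (x 1) z := by
    unfold JJ
    rw [← intervalIntegral.integral_const_mul]
    apply intervalIntegral.integral_congr_ae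
    refine Eventually.of_forall fun u hu => ?_
    rw [uIoc_of_le x01.le] at hu
    simp only [hF, QQ_neg, Fin.prod_univ_four]
    rw [if_pos hu.1, if_neg (by linarith [hu.2]), if_neg (by linarith [hu.2]),
      if_neg (by linarith [hu.2])]
    ring
  have a2 : (∫ u in (x 1)..(x 2), F u) = w * JJ (rho x) (x 1) (x 2) z := by
    unfold JJ
    rw [← intervalIntegral.integral_const_mul]
    apply intervalIntegral.integral_congr_ae
    refine Eventually.of_forall fun u hu => ?_
    rw [uIoc_of_le x12.le] at hu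
    simp only [hF, QQ_neg, Fin.prod_univ_four]
    rw [if_pos (by linarith [hu.1]), if_pos hu.1, if_neg (by linarith [hu.2]),
      if_neg (by linarith [hu.2]), mul_one, mul_one, w4]
  have a3 : (∫ u in (x 2)..(x 3), F u) = JJ (rho x) (x 2) (x 3) z := by
    unfold JJ
    apply intervalIntegral.integral_congr_ae
    refine Eventually.of_forall fun u hu => ?_
    rw [uIoc_of_le x23.le] at hu
    simp only [hF, QQ_neg, Fin.prod_univ_four]
    rw [if_pos (by linarith [hu.1]), if_pos (by linarith [hu.1]), if_pos hu.1,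
      if_neg (by linarith [hu.2]), mul_one, w6, one_mul]
  have a4 : (∫ u in Ioi (x 3), F u) = w ^ 2 * ∫ u in Ioi (x 3), (rho x u : ℂ) * kr (z - u) := by
    rw [← integral_const_mul]
    apply setIntegral_congr_fun measurableSet_Ioi
    intro u hu
    have hu' : x 3 < u := hu
    simp only [hF, QQ_neg, Fin.prod_univ_four]
    rw [if_pos (by linarith), if_pos (by linarith), if_pos (by linarith), if_pos hu', w6, one_mul]
  rw [a0, a1, a2, a3, a4] at hsplit
  exact hsplit

/-- the fourth function -/
def J14 (x : Fin 4 → ℝ) (z : ℂ) : ℂ :=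
  -(w * JJ (rho x) (x 1) (x 2) z + JJ (rho x) (x 2) (x 3) z + w ^ 2 * JJ (rho x) (x 0) (x 1) z)

theorem J14_real {x : Fin 4 → ℝ} (hx : StrictMono x) {t : ℝ} (h0 : x 0 < t) (h1 : t < x 3) :
    (J14 x t).im = 0 := by
  have hz : (t : ℂ) ∈ CH := by
    change 0 ≤ (t : ℂ).im
    simp
  have h := rel_zero hx hz
  have e1 : (∫ u in Iic (x 0), (rho x u : ℂ) * kr (t - u)) =
      ((∫ u in Iic (x 0), rho x u * (t - u) ^ (2 / 3 : ℝ) : ℝ) : ℂ) := by
    rw [← integral_complex_ofReal]
    apply setIntegral_congr_fun measurableSet_Iic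
    intro u hu
    have hu' : u ≤ x 0 := hu
    simp only
    rw [← ofReal_sub, kr_nonneg (by linarith), ofReal_mul]
  have e2 : (∫ u in Ioi (x 3), (rho x u : ℂ) * kr (t - u)) =
      w * ((∫ u in Ioi (x 3), rho x u * (u - t) ^ (2 / 3 : ℝ) : ℝ) : ℂ) := by
    rw [← integral_complex_ofReal, ← integral_const_mul]
    apply setIntegral_congr_fun measurableSet_Ioi
    intro u hu
    have hu' : x 3 < u := hu
    have e3 : kr ((t : ℂ) - u) = w * (((u - t) ^ (2 / 3 : ℝ) : ℝ) : ℂ) := by
      rw [← ofReal_sub, kr_nonpos (by linarith), show -(t - u) = u - t by ring]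
    simp only
    rw [e3]
    push_cast
    ring
  have e3 : J14 x t = ((∫ u in Iic (x 0), rho x u * (t - u) ^ (2 / 3 : ℝ) : ℝ) : ℂ) +
      ((∫ u in Ioi (x 3), rho x u * (u - t) ^ (2 / 3 : ℝ) : ℝ) : ℂ) := by
    rw [e1, e2] at h
    unfold J14
    linear_combination -h + ((∫ u in Ioi (x 3), rho x u * (u - t) ^ (2 / 3 : ℝ) : ℝ) : ℂ) * w_cube
  rw [e3, ← ofReal_add, ofReal_im]

end Pool.Agent.H13.Q1.Four
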