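import Pool.Agent.H13.Q1.FourE

/-!
# The explicit solution as a member of `Sol4`, and its values at the first mark
-/

open Complex Metric Set Topology Filter MeasureTheory
open scoped ComplexConjugate Interval
open H87.FM

noncomputable section

namespace Pool.Agent.H13.Q1.Four

/-- growth of order `2/3` -/
def Gr (f : ℂ → ℂ) : Prop := ∃ C M : ℝ, 0 ≤ C ∧ 0 ≤ M ∧ ∀ z, ‖f z‖ ≤ C * (‖z‖ + M) ^ (2 / 3 : ℝ)

theorem JJ_Gr {g : ℝ → ℝ} {a b : ℝ} (hg : IntervalIntegrable g volume a b) : Gr (JJ g a b) := by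
  refine ⟨_, |a| + |b|, abs_nonneg (∫ u in a..b, |g u|), by positivity, fun z => ?_⟩
  rw [mul_comm]
  exact JJ_norm hg z

theorem Gr.add {f g : ℂ → ℂ} (hf : Gr f) (hg : Gr g) : Gr (fun z => f z + g z) := by
  obtain ⟨C, M, hC, hM, h⟩ := hf
  obtain ⟨C', M', hC', hM', h'⟩ := hg
  refine ⟨C + C', max M M', by positivity, by positivity, fun z => ?_⟩
  have e1 : (‖z‖ + M) ^ (2 / 3 : ℝ) ≤ (‖z‖ + max M M') ^ (2 / 3 : ℝ) :=
    Real.rpow_le_rpow (by positivity) (by linarith [le_max_left M M']) (by norm_num)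
  have e2 : (‖z‖ + M') ^ (2 / 3 : ℝ) ≤ (‖z‖ + max M M') ^ (2 / 3 : ℝ) :=
    Real.rpow_le_rpow (by positivity) (by linarith [le_max_right M M']) (by norm_num)
  calc ‖f z + g z‖ ≤ ‖f z‖ + ‖g z‖ := norm_add_le _ _
    _ ≤ C * (‖z‖ + M) ^ (2 / 3 : ℝ) + C' * (‖z‖ + M') ^ (2 / 3 : ℝ) := add_le_add (h z) (h' z)
    _ ≤ C * (‖z‖ + max M M') ^ (2 / 3 : ℝ) + C' * (‖z‖ + max M M') ^ (2 / 3 : ℝ) :=
        add_le_add (mul_le_mul_of_nonneg_left e1 hC) (mul_le_mul_of_nonneg_left e2 hC')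
    _ = _ := by ring

theorem Gr.const_mul {f : ℂ → ℂ} (hf : Gr f) (c : ℂ) : Gr (fun z => c * f z) := by
  obtain ⟨C, M, hC, hM, h⟩ := hf
  refine ⟨‖c‖ * C, M, by positivity, hM, fun z => ?_⟩
  rw [norm_mul, mul_assoc]
  exact mul_le_mul_of_nonneg_left (h z) (norm_nonneg _)

theorem Gr.bdd {f : ℂ → ℂ} (hf : Gr f) (x : ℝ) :
    ∃ C r : ℝ, 0 < r ∧ ∀ z ∈ HP, ‖z - (x : ℂ)‖ < r → ‖f z‖ ≤ C := by
  obtain ⟨C, M, hC, hM, h⟩ := hf
  refine ⟨C * (|x| + 1 + M) ^ (2 / 3 : ℝ), 1, one_pos, fun z _ hz => ?_⟩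
  refine (h z).trans (mul_le_mul_of_nonneg_left ?_ hC)
  apply Real.rpow_le_rpow (by positivity) _ (by norm_num)
  have : ‖z‖ ≤ ‖z - x‖ + ‖(x : ℂ)‖ := by
    have := norm_add_le (z - x) (x : ℂ)
    rwa [sub_add_cancel] at this
  rw [Complex.norm_real, Real.norm_eq_abs] at this
  linarith

theorem Gr.inf {f : ℂ → ℂ} (hf : Gr f) :
    ∃ C R : ℝ, 0 < R ∧ ∀ z ∈ HP, R < ‖z‖ → ‖f z‖ ≤ C * ‖z‖ ^ (2 / 3 : ℝ) := by
  obtain ⟨C, M, hC, hM, h⟩ := hf
  refine ⟨C * 2 ^ (2 / 3 : ℝ), M + 1, by positivity, fun z _ hz => ?_⟩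
  refine (h z).trans ?_
  rw [mul_assoc, ← Real.mul_rpow (by norm_num) (norm_nonneg _)]
  apply mul_le_mul_of_nonneg_left _ hC
  exact Real.rpow_le_rpow (by positivity) (by linarith) (by norm_num)

theorem JJ_im_right {g : ℝ → ℝ} {a b : ℝ} (hab : a ≤ b) {t : ℝ} (ht : b ≤ t) :
    (JJ g a b t).im = 0 := by
  rw [JJ_right hab ht, ofReal_im]

theorem JJ_im_left {g : ℝ → ℝ} {a b : ℝ} (hab : a ≤ b) {t : ℝ} (ht : t ≤ a) :
    (w ^ 2 * JJ g a b t).im = 0 := by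
  rw [JJ_left hab ht, ← mul_assoc, show w ^ 2 * w = 1 from by rw [← w_cube]; ring, one_mul,
    ofReal_im]

/-- **The explicit solution.** -/
theorem sol4 {x : Fin 4 → ℝ} (hx : StrictMono x) :
    Sol4 (x 0) (x 1) (x 2) (x 3) ∅ (JJ (rho x) (x 0) (x 1)) (JJ (rho x) (x 1) (x 2))
      (JJ (rho x) (x 2) (x 3)) (J14 x) := by
  have x01 : x 0 < x 1 := hx (by decide)
  have x12 : x 1 < x 2 := hx (by decide)
  have x23 : x 2 < x 3 := hx (by decide)
  have hi := fun a b => rho_int hx.injective a b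
  have hd := fun a b => JJ_diff (hi a b)
  have hc := fun a b => JJ_cont (hi a b)
  have hg := fun a b => JJ_Gr (hi a b)
  have g14 : Gr (J14 x) := by
    have h1 := (((hg (x 1) (x 2)).const_mul w).add (hg (x 2) (x 3))).add
      ((hg (x 0) (x 1)).const_mul (w ^ 2))
    have h2 := h1.const_mul (-1)
    have e : J14 x = fun z => -1 * (w * JJ (rho x) (x 1) (x 2) z + JJ (rho x) (x 2) (x 3) z +
        w ^ 2 * JJ (rho x) (x 0) (x 1) z) := by
      funext z
      unfold J14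
      ring
    rw [e]
    exact h2
  have gall : ∀ f ∈ ({JJ (rho x) (x 0) (x 1), JJ (rho x) (x 1) (x 2), JJ (rho x) (x 2) (x 3),
      J14 x} : Set (ℂ → ℂ)), Gr f := by
    intro f hf
    rcases hf with rfl | rfl | rfl | rfl
    · exact hg _ _
    · exact hg _ _
    · exact hg _ _
    · exact g14
  exact {
    h12 := hd _ _
    h23 := hd _ _
    h34 := hd _ _
    h14 := (((hd _ _).const_mul w).add (hd _ _)).add ((hd _ _).const_mul (w ^ 2)) |>.neg
    c12 := (hc _ _).mono diff_subset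
    c23 := (hc _ _).mono diff_subset
    c34 := (hc _ _).mono diff_subset
    c14 := (((continuousOn_const.mul (hc _ _)).add (hc _ _)).add
      (continuousOn_const.mul (hc _ _))).neg.mono diff_subset
    rel := fun z _ => by unfold J14; ring
    r12 := fun t _ ht => JJ_im_right x01.le ht.le
    l12 := fun t _ ht => JJ_im_left x01.le ht.le
    r23 := fun t _ ht => JJ_im_right x12.le ht.le
    l23 := fun t _ ht => JJ_im_left x12.le ht.le
    r34 := fun t _ ht => JJ_im_right x23.le ht.le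
    l34 := fun t _ ht => JJ_im_left x23.le ht.le
    m14 := fun t _ h0 h1 => J14_real hx h0 h1
    exc := fun e he => absurd he (Finset.notMem_empty e)
    bdd := fun y _ f hf => (gall f hf).bdd y
    inf := fun f hf => (gall f hf).inf }

/-- the density of the equilateral triangle -/
def sig (x : Fin 4 → ℝ) (u : ℝ) : ℝ :=
  |u - x 1| ^ (-2 / 3 : ℝ) * |u - x 2| ^ (-2 / 3 : ℝ) * |u - x 3| ^ (-2 / 3 : ℝ)

theorem rho_sig {x : Fin 4 → ℝ} {u : ℝ} (hu : x 0 < u) :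
    rho x u * (u - x 0) ^ (2 / 3 : ℝ) = sig x u := by
  unfold rho sig
  rw [Fin.prod_univ_four, abs_of_pos (by linarith : 0 < u - x 0)]
  have h : (u - x 0) ^ (-2 / 3 : ℝ) * (u - x 0) ^ (2 / 3 : ℝ) = 1 := by
    rw [← Real.rpow_add (by linarith)]
    norm_num
  linear_combination (|u - x 1| ^ (-2 / 3 : ℝ) * |u - x 2| ^ (-2 / 3 : ℝ) *
    |u - x 3| ^ (-2 / 3 : ℝ)) * h

/-- **The values at the first mark.** -/
theorem val12 {x : Fin 4 → ℝ} (hx : StrictMono x) :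
    JJ (rho x) (x 0) (x 1) (x 0 : ℝ) = w * ((∫ u in (x 0)..(x 1), sig x u : ℝ) : ℂ) := by
  have x01 : x 0 < x 1 := hx (by decide)
  rw [JJ_left x01.le le_rfl]
  congr 2
  apply intervalIntegral.integral_congr_ae
  refine Eventually.of_forall fun u hu => ?_
  rw [uIoc_of_le x01.le] at hu
  exact rho_sig hu.1

theorem val23 {x : Fin 4 → ℝ} (hx : StrictMono x) :
    JJ (rho x) (x 1) (x 2) (x 0 : ℝ) = w * ((∫ u in (x 1)..(x 2), sig x u : ℝ) : ℂ) := by
  have x01 : x 0 < x 1 := hx (by decide)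
  have x12 : x 1 < x 2 := hx (by decide)
  rw [JJ_left x12.le x01.le]
  congr 2
  apply intervalIntegral.integral_congr_ae
  refine Eventually.of_forall fun u hu => ?_
  rw [uIoc_of_le x12.le] at hu
  exact rho_sig (x01.trans hu.1)

end Pool.Agent.H13.Q1.Four
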