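import Pool.Agent.H13.Q1.FourMk

/-!
# The determinants at infinity
-/

open Complex Metric Set Topology Filter
open scoped ComplexConjugate

noncomputable section

namespace Pool.Agent.H13.Q1.Four

/-- infinity in the upper half plane -/
def atI : Filter ℂ := Bornology.cobounded ℂ ⊓ 𝓟 UH

/-- Regular at infinity, of weight `1/3`. -/
def Inf (G : VF) : Prop :=
  ∃ ρ : ℝ, 0 < ρ ∧ ∃ Γ : Fin 3 → ℂ → ℂ, (∀ j, DifferentiableOn ℂ (Γ j) (ball 0 ρ)) ∧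
    ∀ z : ℂ, 0 < z.im → -z⁻¹ ∈ ball (0 : ℂ) ρ → ∀ j, G z j = pw (-2 / 3) z * Γ j (-z⁻¹)

theorem atI_im : ∀ᶠ z : ℂ in atI, 0 < z.im := mem_inf_of_right (mem_principal_self _)

theorem tendsto_ninv : Tendsto (fun z : ℂ => -z⁻¹) atI (𝓝 0) := by
  have h : Tendsto (fun z : ℂ => z⁻¹) (Bornology.cobounded ℂ) (𝓝 0) := tendsto_inv₀_cobounded
  have := h.neg
  rw [neg_zero] at this
  exact this.mono_left inf_le_left

theorem tendsto_inv_atI : Tendsto (fun z : ℂ => z⁻¹) atI (𝓝 0) :=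
  (tendsto_inv₀_cobounded (α := ℂ)).mono_left inf_le_left

instance : atI.NeBot := by
  unfold atI
  rw [Filter.inf_principal_neBot_iff]
  intro U hU
  have hb : Bornology.IsBounded Uᶜ := by
    rw [Bornology.isBounded_def, compl_compl]
    exact hU
  obtain ⟨R, hR⟩ := hb.exists_norm_le
  refine ⟨((|R| + 1 : ℝ) : ℂ) * I, ?_, ?_⟩
  · by_contra hcon
    have := hR _ hcon
    rw [norm_mul, Complex.norm_I, mul_one, Complex.norm_real,
      Real.norm_of_nonneg (by positivity)] at this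
    linarith [le_abs_self R]
  · change 0 < (((|R| + 1 : ℝ) : ℂ) * I).im
    simp only [mul_im, ofReal_re, I_im, mul_one, ofReal_im, I_re, mul_zero, add_zero]
    positivity

theorem far_mem {ρ : ℝ} (hρ : 0 < ρ) :
    ∀ᶠ z : ℂ in atI, 0 < z.im ∧ -z⁻¹ ∈ ball (0 : ℂ) ρ := by
  filter_upwards [tendsto_ninv.eventually (isOpen_ball.mem_nhds (mem_ball_self hρ)), atI_im]
    with z hz hz'
  exact ⟨hz', hz⟩

theorem bdd_of_tendsto {F : ℂ → ℂ} {l : ℂ} (h : Tendsto F atI (𝓝 l)) :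
    ∃ R M : ℝ, ∀ z, 0 < z.im → R ≤ ‖z‖ → ‖F z‖ ≤ M := by
  have h1 : ∀ᶠ z in atI, ‖F z‖ ≤ ‖l‖ + 1 := by
    have := h.norm.eventually (gt_mem_nhds (lt_add_one ‖l‖))
    filter_upwards [this] with z hz
    exact hz.le
  unfold atI at h1
  rw [eventually_inf_principal, (Metric.hasBasis_cobounded_compl_closedBall (0 : ℂ)).eventually_iff]
    at h1
  obtain ⟨R, -, hR⟩ := h1
  refine ⟨R + 1, ‖l‖ + 1, fun z hz hzR => hR (x := z) ?_ hz⟩
  intro hmem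
  rw [mem_closedBall_zero_iff] at hmem
  linarith

theorem jets_inf {G : VF} {ρ : ℝ} {Γ : Fin 3 → ℂ → ℂ}
    (hΓ : ∀ j, DifferentiableOn ℂ (Γ j) (ball 0 ρ))
    (hG : ∀ z : ℂ, 0 < z.im → -z⁻¹ ∈ ball (0 : ℂ) ρ → ∀ j, G z j = pw (-2 / 3) z * Γ j (-z⁻¹))
    {z : ℂ} (hz : 0 < z.im) (hzr : -z⁻¹ ∈ ball (0 : ℂ) ρ) :
    G z = (fun j => pw (-2 / 3) z * Γ j (-z⁻¹)) ∧
    dv G z = (fun j => pw (-2 / 3) z *
      ((z ^ 2)⁻¹ * deriv (Γ j) (-z⁻¹) + (-2 / 3) / z * Γ j (-z⁻¹))) ∧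
    dv (dv G) z = (fun j => pw (-2 / 3) z *
      (((z ^ 2)⁻¹ ^ 2 * deriv (deriv (Γ j)) (-z⁻¹) - 2 * (z ^ 3)⁻¹ * deriv (Γ j) (-z⁻¹)) +
        2 * ((-2 / 3) / z) * ((z ^ 2)⁻¹ * deriv (Γ j) (-z⁻¹)) +
        (-2 / 3) * (-2 / 3 - 1) / z ^ 2 * Γ j (-z⁻¹))) := by
  set U : Set ℂ := {w : ℂ | 0 < w.im ∧ -w⁻¹ ∈ ball (0 : ℂ) ρ} with hU
  have hne0 : ∀ w : ℂ, 0 < w.im → w ≠ 0 := by
    rintro w hw rfl
    simp at hw
  have hUo : IsOpen U := by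
    have hc : ContinuousOn (fun w : ℂ => -w⁻¹) UH := by
      apply ContinuousOn.neg
      exact continuousOn_inv₀.mono (fun w hw => hne0 w hw)
    exact hc.isOpen_inter_preimage isOpen_UH isOpen_ball
  have hzU : z ∈ U := ⟨hz, hzr⟩
  have hne : ∀ w ∈ U, w ≠ (0 : ℂ) := fun w hw => hne0 w hw.1
  have hm : ∀ w ∈ U, HasDerivAt (fun w => pw (-2 / 3) w)
      ((-2 / 3) / (w - 0) * pw (-2 / 3) w) w := by
    intro w hw
    have h1 := hasDerivAt_pw (-2 / 3) 0 (w := w) (by rw [sub_zero]; exact slit_of_im hw.1)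
    simpa using h1
  have hs : ∀ w ∈ U, HasDerivAt (fun w : ℂ => -w⁻¹) ((w ^ 2)⁻¹) w := by
    intro w hw
    have h1 := (hasDerivAt_inv (hne w hw)).neg
    rwa [neg_neg] at h1
  have q1 : ∀ j, ∀ w ∈ U, HasDerivAt (fun w => Γ j (-w⁻¹))
      ((w ^ 2)⁻¹ * deriv (Γ j) (-w⁻¹)) w := by
    intro j w hw
    have h1 : HasDerivAt (Γ j) (deriv (Γ j) (-w⁻¹)) (-w⁻¹) :=
      ((hΓ j).differentiableAt (isOpen_ball.mem_nhds hw.2)).hasDerivAt
    refine (h1.comp w (hs w hw)).congr_deriv ?_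
    ring
  have q2 : ∀ j, HasDerivAt (fun w => (w ^ 2)⁻¹ * deriv (Γ j) (-w⁻¹))
      ((z ^ 2)⁻¹ ^ 2 * deriv (deriv (Γ j)) (-z⁻¹) - 2 * (z ^ 3)⁻¹ * deriv (Γ j) (-z⁻¹)) z := by
    intro j
    have hz0 := hne z hzU
    have h1 : HasDerivAt (deriv (Γ j)) (deriv (deriv (Γ j)) (-z⁻¹)) (-z⁻¹) :=
      (((hΓ j).deriv isOpen_ball).differentiableAt (isOpen_ball.mem_nhds hzr)).hasDerivAt
    have h2 := h1.comp z (hs z hzU)
    have h3 : HasDerivAt (fun w : ℂ => (w ^ 2)⁻¹) (-(2 * z) / (z ^ 2) ^ 2) z := by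
      have h4 := (hasDerivAt_pow 2 z).inv (pow_ne_zero 2 hz0)
      refine h4.congr_deriv ?_
      norm_num
    refine (h3.mul h2).congr_deriv ?_
    simp only [Function.comp]
    field_simp
    ring
  have key : ∀ j, G z j = pw (-2 / 3) z * Γ j (-z⁻¹) ∧
      deriv (fun w => G w j) z = pw (-2 / 3) z *
        ((z ^ 2)⁻¹ * deriv (Γ j) (-z⁻¹) + (-2 / 3) / (z - 0) * Γ j (-z⁻¹)) ∧
      deriv (deriv (fun w => G w j)) z = pw (-2 / 3) z *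
        (((z ^ 2)⁻¹ ^ 2 * deriv (deriv (Γ j)) (-z⁻¹) - 2 * (z ^ 3)⁻¹ * deriv (Γ j) (-z⁻¹)) +
          2 * ((-2 / 3) / (z - 0)) * ((z ^ 2)⁻¹ * deriv (Γ j) (-z⁻¹)) +
          (-2 / 3) * (-2 / 3 - 1) / (z - 0) ^ 2 * Γ j (-z⁻¹)) := fun j =>
    jet_mul hUo hzU (x := 0) (by simpa using hne) (m := fun w => pw (-2 / 3) w) hm
      (q1 j) (q2 j) (F := fun w => G w j) (fun w hw => hG w hw.1 hw.2 j)
  simp only [sub_zero] at key
  exact ⟨funext fun j => (key j).1, funext fun j => (key j).2.1, funext fun j => (key j).2.2⟩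

theorem coef_inf {ρ : ℝ} (hρ : 0 < ρ) {f : ℂ → ℂ} (hf : DifferentiableOn ℂ f (ball 0 ρ)) :
    Tendsto (fun z : ℂ => f (-z⁻¹)) atI (𝓝 (f 0)) ∧
    Tendsto (fun z : ℂ => deriv f (-z⁻¹)) atI (𝓝 (deriv f 0)) ∧
    Tendsto (fun z : ℂ => deriv (deriv f) (-z⁻¹)) atI (𝓝 (deriv (deriv f) 0)) := by
  have h0 : (0 : ℂ) ∈ ball (0 : ℂ) ρ := mem_ball_self hρ
  have key : ∀ g : ℂ → ℂ, DifferentiableOn ℂ g (ball 0 ρ) →
      Tendsto (fun z : ℂ => g (-z⁻¹)) atI (𝓝 (g 0)) := fun g hg =>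
    (hg.differentiableAt (isOpen_ball.mem_nhds h0)).continuousAt.tendsto.comp tendsto_ninv
  exact ⟨key f hf, key _ (hf.deriv isOpen_ball),
    key _ ((hf.deriv isOpen_ball).deriv isOpen_ball)⟩

theorem tendsto_d3 {l : Filter ℂ} {a b c : Fin 3 → ℂ → ℂ} {a' b' c' : Fin 3 → ℂ}
    (ha : ∀ j, Tendsto (a j) l (𝓝 (a' j))) (hb : ∀ j, Tendsto (b j) l (𝓝 (b' j)))
    (hc : ∀ j, Tendsto (c j) l (𝓝 (c' j))) :
    Tendsto (fun z => d3 (fun j => a j z) (fun j => b j z) (fun j => c j z)) l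
      (𝓝 (d3 a' b' c')) := by
  unfold d3
  exact (((ha 0).mul (((hb 1).mul (hc 2)).sub ((hb 2).mul (hc 1)))).sub ((ha 1).mul
    (((hb 0).mul (hc 2)).sub ((hb 2).mul (hc 0))))).add ((ha 2).mul
    (((hb 0).mul (hc 1)).sub ((hb 1).mul (hc 0))))

/-- **The determinants at infinity.** -/
theorem Inf.asym {G₀ G : VF} (m₀ : Inf G₀) (m : Inf G) :
    ∃ l : ℂ, Tendsto (fun z => z ^ 4 * D1 G₀ G z) atI (𝓝 l) ∧
      Tendsto (fun z => z ^ 5 * D2 G₀ G z) atI (𝓝 (-(10 / 3) * l)) := by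
  obtain ⟨r, hr, p, hp, hG₀⟩ := m₀
  obtain ⟨r', hr', q, hq, hG⟩ := m
  have hp0 := fun j => (coef_inf hr (hp j))
  have hq0 := fun j => (coef_inf hr' (hq j))
  have e1 := tendsto_d3 (fun j => (hp0 j).1) (fun j => (hp0 j).2.1) (fun j => (hq0 j).1)
  have e2 := tendsto_d3 (fun j => (hp0 j).1) (fun j => (hp0 j).2.2) (fun j => (hq0 j).1)
  set l := d3 (fun j => p j 0) (fun j => deriv (p j) 0) (fun j => q j 0) with hl
  have v : ∀ᶠ z : ℂ in atI, z ^ 4 * D1 G₀ G z =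
        d3 (fun j => p j (-z⁻¹)) (fun j => deriv (p j) (-z⁻¹)) (fun j => q j (-z⁻¹)) ∧
      z ^ 5 * D2 G₀ G z = z⁻¹ * d3 (fun j => p j (-z⁻¹)) (fun j => deriv (deriv (p j)) (-z⁻¹))
        (fun j => q j (-z⁻¹)) + -(10 / 3) *
        d3 (fun j => p j (-z⁻¹)) (fun j => deriv (p j) (-z⁻¹)) (fun j => q j (-z⁻¹)) := by
    filter_upwards [far_mem hr, far_mem hr'] with z hz hz'
    obtain ⟨k0, k1, k2⟩ := jets_inf hp hG₀ hz.1 hz.2
    obtain ⟨n0, -, -⟩ := jets_inf hq hG hz'.1 hz'.2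
    have hz0 : z ≠ 0 := by
      rintro rfl
      have := hz.1
      simp at this
    constructor
    · unfold D1
      rw [k0, k1, n0, d3_jet1, pw_neg_two_third_cube hz0]
      unfold d3
      field_simp
    · unfold D2
      rw [k0, k2, n0, d3_jet2 (pw (-2 / 3) z) ((-2 / 3) / z)
        ((-2 / 3) * (-2 / 3 - 1) / z ^ 2) (fun j => p j (-z⁻¹))
        (fun j => (z ^ 2)⁻¹ * deriv (p j) (-z⁻¹))
        (fun j => (z ^ 2)⁻¹ ^ 2 * deriv (deriv (p j)) (-z⁻¹) -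
          2 * (z ^ 3)⁻¹ * deriv (p j) (-z⁻¹)), pw_neg_two_third_cube hz0]
      unfold d3
      field_simp
      ring
  refine ⟨l, ?_, ?_⟩
  · refine e1.congr' ?_
    filter_upwards [v] with z hz
    exact hz.1.symm
  · have h3 := (tendsto_inv_atI.mul e2).add (e1.const_mul (-(10 / 3) : ℂ))
    rw [zero_mul, zero_add] at h3
    refine h3.congr' ?_
    filter_upwards [v] with z hz
    exact hz.2.symm

/-- **The Wronski determinant at infinity.** -/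
theorem Inf.wron {G₀ : VF} (m₀ : Inf G₀) :
    ∃ ω : ℂ, Tendsto (fun z => z ^ 8 * WW G₀ z) atI (𝓝 ω) ∧
      (ω ≠ 0 → ∀ G : VF, Inf G → ∀ α : ℂ → ℂ, (∀ z, 0 < z.im → G z = fun j => α z * G₀ z j) →
        ∃ l, Tendsto α atI (𝓝 l)) := by
  obtain ⟨r, hr, p, hp, hG₀⟩ := m₀
  have hp0 := fun j => (coef_inf hr (hp j))
  have e1 := tendsto_d3 (fun j => (hp0 j).1) (fun j => (hp0 j).2.1) (fun j => (hp0 j).2.2)
  refine ⟨_, e1.congr' ?_, ?_⟩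
  · filter_upwards [far_mem hr] with z hz
    obtain ⟨k0, k1, k2⟩ := jets_inf hp hG₀ hz.1 hz.2
    have hz0 : z ≠ 0 := by
      rintro rfl
      have := hz.1
      simp at this
    unfold WW
    rw [k0, k1, k2, d3_jet3 (pw (-2 / 3) z) ((-2 / 3) / z)
        ((-2 / 3) * (-2 / 3 - 1) / z ^ 2) (fun j => p j (-z⁻¹))
        (fun j => (z ^ 2)⁻¹ * deriv (p j) (-z⁻¹))
        (fun j => (z ^ 2)⁻¹ ^ 2 * deriv (deriv (p j)) (-z⁻¹) -
          2 * (z ^ 3)⁻¹ * deriv (p j) (-z⁻¹)), pw_neg_two_third_cube hz0]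
    unfold d3
    field_simp
    ring
  · intro hω G hinf α hα
    obtain ⟨r', hr', q, hq, hG⟩ := hinf
    obtain ⟨j, hj⟩ : ∃ j, p j 0 ≠ 0 := by
      by_contra hcon
      push_neg at hcon
      apply hω
      unfold d3
      simp only [hcon]
      ring
    have hq0 := (coef_inf hr' (hq j)).1
    refine ⟨q j 0 / p j 0, ?_⟩
    refine (hq0.div (hp0 j).1 hj).congr' ?_
    filter_upwards [far_mem hr, far_mem hr', (hp0 j).1.eventually_ne hj] with z hz hz' hpz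
    have n1 := hG₀ z hz.1 hz.2 j
    have n2 := hG z hz'.1 hz'.2 j
    have n3 : G z j = α z * G₀ z j := by rw [hα z hz.1]
    rw [n1, n2] at n3
    have n4 : q j (-z⁻¹) = α z * p j (-z⁻¹) := by
      apply mul_left_cancel₀ (pw_ne (-2 / 3) z)
      rw [n3]; ring
    change q j (-z⁻¹) / p j (-z⁻¹) = α z
    rw [n4, mul_div_assoc, div_self hpz, mul_one]

end Pool.Agent.H13.Q1.Four
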