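import Pool.Agent.H87.FM.Defs

/-!
# The integrals `∫ g(u) (z - u)^(2/3) du`
-/

open Complex Metric Set Topology Filter MeasureTheory
open scoped ComplexConjugate Interval
open H87.FM (HP CH w)

noncomputable section

namespace Pool.Agent.H13.Q1.Four

/-- the kernel -/
def kr (z : ℂ) : ℂ := z ^ ((2 / 3 : ℝ) : ℂ)

theorem norm_kr (z : ℂ) : ‖kr z‖ = ‖z‖ ^ (2 / 3 : ℝ) := norm_cpow_real z _

theorem kr_nonneg {t : ℝ} (ht : 0 ≤ t) : kr t = ((t ^ (2 / 3 : ℝ) : ℝ) : ℂ) :=
  (ofReal_cpow ht _).symm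

theorem kr_nonpos {t : ℝ} (ht : t ≤ 0) : kr t = w * (((-t) ^ (2 / 3 : ℝ) : ℝ) : ℂ) := by
  unfold kr
  rw [ofReal_cpow_of_nonpos ht, mul_comm, ofReal_cpow (by linarith : (0 : ℝ) ≤ -t)]
  unfold w
  congr 1
  · congr 1
    push_cast
    ring
  · push_cast
    rfl

theorem kr_cont (z : ℂ) : ContinuousWithinAt kr CH z := by
  by_cases h0 : z = 0
  · subst h0
    have hk0 : kr 0 = 0 := by
      unfold kr
      rw [zero_cpow]
      norm_num
    unfold ContinuousWithinAt
    rw [hk0, tendsto_zero_iff_norm_tendsto_zero]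
    have h1 : Tendsto (fun z : ℂ => ‖z‖ ^ (2 / 3 : ℝ)) (𝓝 0) (𝓝 (‖(0 : ℂ)‖ ^ (2 / 3 : ℝ))) :=
      (continuous_norm.rpow_const (fun _ => Or.inr (by norm_num))).tendsto 0
    rw [norm_zero, Real.zero_rpow (by norm_num)] at h1
    refine (h1.mono_left nhdsWithin_le_nhds).congr ?_
    intro z
    exact (norm_kr z).symm
  · have hlog : ContinuousWithinAt log CH z := by
      by_cases hs : z ∈ slitPlane
      · exact (continuousAt_clog hs).continuousWithinAt
      · rw [mem_slitPlane_iff, not_or, not_lt, not_not] at hs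
        have hre : z.re < 0 := by
          rcases hs.1.lt_or_eq with h | h
          · exact h
          · exact absurd (Complex.ext h hs.2) h0
        exact continuousWithinAt_log_of_re_neg_of_im_zero hre hs.2
    have h2 : ContinuousWithinAt (fun z => exp (log z * ((2 / 3 : ℝ) : ℂ))) CH z :=
      (hlog.mul continuousWithinAt_const).cexp
    refine h2.congr_of_eventuallyEq ?_ ?_
    · have : ∀ᶠ v in 𝓝[CH] z, v ≠ 0 := nhdsWithin_le_nhds (isOpen_ne.mem_nhds h0)
      filter_upwards [this] with v hv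
      exact cpow_def_of_ne_zero hv _
    · exact cpow_def_of_ne_zero h0 _

/-- the integral -/
def JJ (g : ℝ → ℝ) (a b : ℝ) (z : ℂ) : ℂ := ∫ u in a..b, (g u : ℂ) * kr (z - u)

theorem kr_meas (z : ℂ) : Measurable (fun u : ℝ => kr (z - u)) := by
  unfold kr
  exact ((measurable_const.sub Complex.measurable_ofReal)).pow_const _

theorem JJ_meas {g : ℝ → ℝ} {a b : ℝ} (hg : IntervalIntegrable g volume a b) (z : ℂ) :
    AEStronglyMeasurable (fun u : ℝ => (g u : ℂ) * kr (z - u)) (volume.restrict (Ι a b)) := by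
  have h1 : AEStronglyMeasurable (fun u : ℝ => (g u : ℂ)) (volume.restrict (Ι a b)) :=
    Complex.continuous_ofReal.comp_aestronglyMeasurable
      hg.def'.aestronglyMeasurable
  exact h1.mul (kr_meas z).aestronglyMeasurable

theorem abs_le_of_uIoc {a b u : ℝ} (hu : u ∈ Ι a b) : |u| ≤ |a| + |b| := by
  rw [mem_uIoc] at hu
  rcases hu with h | h
  · rw [abs_le]
    constructor
    · linarith [neg_abs_le a, abs_nonneg b]
    · linarith [le_abs_self b, abs_nonneg a]
  · rw [abs_le]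
    constructor
    · linarith [neg_abs_le b, abs_nonneg a]
    · linarith [le_abs_self a, abs_nonneg b]

theorem JJ_bound {g : ℝ → ℝ} {a b : ℝ} {u : ℝ} (hu : u ∈ Ι a b) {z : ℂ} {R : ℝ} (hz : ‖z‖ ≤ R) :
    ‖(g u : ℂ) * kr (z - u)‖ ≤ (R + (|a| + |b|)) ^ (2 / 3 : ℝ) * |g u| := by
  rw [norm_mul, Complex.norm_real, Real.norm_eq_abs, norm_kr, mul_comm]
  apply mul_le_mul_of_nonneg_right _ (abs_nonneg _)
  apply Real.rpow_le_rpow (norm_nonneg _) _ (by norm_num)
  refine (norm_sub_le _ _).trans ?_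
  rw [Complex.norm_real, Real.norm_eq_abs]
  linarith [abs_le_of_uIoc hu]

theorem JJ_int {g : ℝ → ℝ} {a b : ℝ} (hg : IntervalIntegrable g volume a b) (z : ℂ) :
    IntervalIntegrable (fun u : ℝ => (g u : ℂ) * kr (z - u)) volume a b := by
  rw [intervalIntegrable_iff]
  have h1 : IntegrableOn (fun u => (‖z‖ + (|a| + |b|)) ^ (2 / 3 : ℝ) * |g u|) (Ι a b) :=
    (hg.def'.norm).const_mul _
  refine h1.mono' (JJ_meas hg z) ?_
  rw [ae_restrict_iff' measurableSet_uIoc]
  exact Eventually.of_forall fun u hu => JJ_bound hu le_rfl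

/-- continuity on the closed half plane -/
theorem JJ_cont {g : ℝ → ℝ} {a b : ℝ} (hg : IntervalIntegrable g volume a b) :
    ContinuousOn (JJ g a b) CH := by
  intro z hz
  unfold JJ
  apply intervalIntegral.continuousWithinAt_of_dominated_interval
    (bound := fun u => (‖z‖ + 1 + (|a| + |b|)) ^ (2 / 3 : ℝ) * |g u|)
  · exact Eventually.of_forall fun v => JJ_meas hg v
  · have : ∀ᶠ v in 𝓝[CH] z, ‖v‖ ≤ ‖z‖ + 1 := by
      apply nhdsWithin_le_nhds
      filter_upwards [continuous_norm.continuousAt.eventually (gt_mem_nhds (lt_add_one ‖z‖))]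
        with v hv
      exact hv.le
    filter_upwards [this] with v hv
    exact Eventually.of_forall fun u hu => JJ_bound hu hv
  · exact (hg.norm).const_mul _
  · refine Eventually.of_forall fun u _ => ?_
    apply ContinuousWithinAt.mul continuousWithinAt_const
    have h1 : ContinuousWithinAt (fun v : ℂ => v - (u : ℂ)) CH z := by fun_prop
    refine ContinuousWithinAt.comp (g := kr) (f := fun v : ℂ => v - (u : ℂ)) (t := CH)
      (kr_cont (z - u)) h1 ?_
    intro v hv
    have : 0 ≤ v.im := hv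
    change 0 ≤ (v - (u : ℂ)).im
    simpa using this

/-- differentiability -/
theorem JJ_diff {g : ℝ → ℝ} {a b : ℝ} (hg : IntervalIntegrable g volume a b) :
    DifferentiableOn ℂ (JJ g a b) HP := by
  intro z hz
  apply DifferentiableAt.differentiableWithinAt
  have hz' : 0 < z.im := hz
  have him : ∀ v ∈ ball z (z.im / 2), z.im / 2 ≤ v.im := by
    intro v hv
    rw [mem_ball, dist_eq_norm] at hv
    have h1 : |(v - z).im| ≤ ‖v - z‖ := abs_im_le_norm _
    have h2 := neg_abs_le (v - z).im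
    rw [sub_im] at h1 h2
    linarith
  have hd : ∀ u : ℝ, ∀ v ∈ ball z (z.im / 2), HasDerivAt (fun v : ℂ => (g u : ℂ) * kr (v - u))
      ((g u : ℂ) * (((2 / 3 : ℝ) : ℂ) * (v - u) ^ (((2 / 3 : ℝ) : ℂ) - 1))) v := by
    intro u v hv
    have h1 : v - (u : ℂ) ∈ slitPlane := by
      rw [mem_slitPlane_iff]
      right
      have := him v hv
      simp only [sub_im, ofReal_im, sub_zero]
      intro h0
      linarith
    have h2 : HasDerivAt (fun v : ℂ => v - (u : ℂ)) 1 v := (hasDerivAt_id v).sub_const _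
    have h3 := (h2.cpow_const (c := ((2 / 3 : ℝ) : ℂ)) h1).const_mul (g u : ℂ)
    rwa [mul_one] at h3
  have key := intervalIntegral.hasDerivAt_integral_of_dominated_loc_of_deriv_le (μ := volume)
    (F := fun v u => (g u : ℂ) * kr (v - u))
    (F' := fun v u => (g u : ℂ) * (((2 / 3 : ℝ) : ℂ) * (v - u) ^ (((2 / 3 : ℝ) : ℂ) - 1)))
    (x₀ := z) (s := ball z (z.im / 2)) (a := a) (b := b)
    (bound := fun u => (2 / 3 * (z.im / 2) ^ (-1 / 3 : ℝ)) * |g u|)
    (ball_mem_nhds z (by positivity)) (Eventually.of_forall fun v => JJ_meas hg v)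
    (JJ_int hg z) ?_ ?_ ?_ ?_
  · exact key.2.differentiableAt
  · have h1 : AEStronglyMeasurable (fun u : ℝ => (g u : ℂ)) (volume.restrict (Ι a b)) :=
      Complex.continuous_ofReal.comp_aestronglyMeasurable
        hg.def'.aestronglyMeasurable
    refine h1.mul (Measurable.aestronglyMeasurable ?_)
    exact ((measurable_const.sub Complex.measurable_ofReal).pow_const _).const_mul _
  · refine Eventually.of_forall fun u _ v hv => ?_
    have hv' := him v hv
    have e1 : (((2 / 3 : ℝ) : ℂ) - 1) = ((-1 / 3 : ℝ) : ℂ) := by push_cast; norm_num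
    rw [norm_mul, norm_mul, e1, norm_cpow_real, Complex.norm_real, Complex.norm_real,
      Real.norm_eq_abs, Real.norm_of_nonneg (by norm_num : (0 : ℝ) ≤ 2 / 3), mul_comm]
    apply mul_le_mul_of_nonneg_right _ (abs_nonneg _)
    apply mul_le_mul_of_nonneg_left _ (by norm_num)
    apply Real.rpow_le_rpow_of_nonpos (by positivity) _ (by norm_num)
    have h1 : |(v - (u : ℂ)).im| ≤ ‖v - (u : ℂ)‖ := abs_im_le_norm _
    simp only [sub_im, ofReal_im, sub_zero] at h1
    exact (hv'.trans (le_abs_self _)).trans h1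
  · exact (hg.norm).const_mul _
  · exact Eventually.of_forall fun u _ v hv => hd u v hv

/-- growth -/
theorem JJ_norm {g : ℝ → ℝ} {a b : ℝ} (hg : IntervalIntegrable g volume a b) (z : ℂ) :
    ‖JJ g a b z‖ ≤ (‖z‖ + (|a| + |b|)) ^ (2 / 3 : ℝ) * abs (∫ u in a..b, |g u|) := by
  unfold JJ
  have h1 : IntervalIntegrable (fun u => (‖z‖ + (|a| + |b|)) ^ (2 / 3 : ℝ) * |g u|) volume a b :=
    (hg.norm).const_mul _
  have h2 : ‖∫ u in a..b, (g u : ℂ) * kr (z - u)‖ ≤
      abs (∫ u in a..b, (‖z‖ + (|a| + |b|)) ^ (2 / 3 : ℝ) * |g u|) := by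
    apply intervalIntegral.norm_integral_le_abs_of_norm_le _ h1
    rw [ae_restrict_iff' measurableSet_uIoc]
    exact Eventually.of_forall fun u hu => JJ_bound hu le_rfl
  refine h2.trans ?_
  rw [intervalIntegral.integral_const_mul, abs_mul, abs_of_nonneg (by positivity)]

/-- real to the right -/
theorem JJ_right {g : ℝ → ℝ} {a b : ℝ} (hab : a ≤ b) {t : ℝ} (ht : b ≤ t) :
    JJ g a b t = ((∫ u in a..b, g u * (t - u) ^ (2 / 3 : ℝ) : ℝ) : ℂ) := by
  unfold JJ
  rw [← intervalIntegral.integral_ofReal]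
  apply intervalIntegral.integral_congr
  intro u hu
  rw [uIcc_of_le hab] at hu
  have h1 : (0 : ℝ) ≤ t - u := by linarith [hu.2]
  have h2 := kr_nonneg h1
  change (g u : ℂ) * kr ((t : ℂ) - (u : ℂ)) = ((g u * (t - u) ^ (2 / 3 : ℝ) : ℝ) : ℂ)
  rw [← ofReal_sub, h2, ofReal_mul]

/-- in `w ℝ` to the left -/
theorem JJ_left {g : ℝ → ℝ} {a b : ℝ} (hab : a ≤ b) {t : ℝ} (ht : t ≤ a) :
    JJ g a b t = w * ((∫ u in a..b, g u * (u - t) ^ (2 / 3 : ℝ) : ℝ) : ℂ) := by
  unfold JJ
  rw [← intervalIntegral.integral_ofReal, ← intervalIntegral.integral_const_mul]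
  apply intervalIntegral.integral_congr
  intro u hu
  rw [uIcc_of_le hab] at hu
  have h1 : t - u ≤ 0 := by linarith [hu.1]
  have h2 := kr_nonpos h1
  change (g u : ℂ) * kr ((t : ℂ) - (u : ℂ)) = w * ((g u * (u - t) ^ (2 / 3 : ℝ) : ℝ) : ℂ)
  rw [← ofReal_sub, h2, show -(t - u) = u - t by ring, ofReal_mul]
  ring

end Pool.Agent.H13.Q1.Four
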