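import Pool.Agent.H13.Q1.FourJ

/-!
# The density `∏ |u - x_k|^(-2/3)` and the contour integral
-/

open Complex Metric Set Topology Filter MeasureTheory
open scoped ComplexConjugate Interval
open H87.FM (HP CH w)

noncomputable section

namespace Pool.Agent.H13.Q1.Four

/-- the density -/
def rho (x : Fin 4 → ℝ) (u : ℝ) : ℝ := ∏ k, |u - x k| ^ (-2 / 3 : ℝ)

theorem rho_nonneg (x : Fin 4 → ℝ) (u : ℝ) : 0 ≤ rho x u :=
  Finset.prod_nonneg fun _ _ => Real.rpow_nonneg (abs_nonneg _) _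

theorem rho_meas (x : Fin 4 → ℝ) : Measurable (rho x) := by
  unfold rho
  fun_prop

theorem rho_le {x : Fin 4 → ℝ} {d : ℝ} (hd : 0 < d) (hx : ∀ k l, k ≠ l → d ≤ |x k - x l|)
    (u : ℝ) : rho x u ≤ ((d / 2) ^ (-2 / 3 : ℝ)) ^ 3 * ∑ k, |u - x k| ^ (-2 / 3 : ℝ) := by
  obtain ⟨k, -, hk⟩ := Finset.exists_min_image Finset.univ (fun k => |u - x k|)
    Finset.univ_nonempty
  have h1 : rho x u = |u - x k| ^ (-2 / 3 : ℝ) *
      ∏ l ∈ Finset.univ.erase k, |u - x l| ^ (-2 / 3 : ℝ) := by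
    unfold rho
    rw [← Finset.mul_prod_erase Finset.univ _ (Finset.mem_univ k)]
  have h2 : ∏ l ∈ Finset.univ.erase k, |u - x l| ^ (-2 / 3 : ℝ) ≤
      ((d / 2) ^ (-2 / 3 : ℝ)) ^ 3 := by
    have h3 : ∏ l ∈ Finset.univ.erase k, |u - x l| ^ (-2 / 3 : ℝ) ≤
        ∏ _l ∈ Finset.univ.erase k, (d / 2) ^ (-2 / 3 : ℝ) := by
      apply Finset.prod_le_prod
      · intro l _
        exact Real.rpow_nonneg (abs_nonneg _) _
      · intro l hl
        rw [Finset.mem_erase] at hl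
        apply Real.rpow_le_rpow_of_nonpos (by positivity) _ (by norm_num)
        have h4 := hx k l (Ne.symm hl.1)
        have h5 := hk l (Finset.mem_univ l)
        have h6 : |x k - x l| ≤ |u - x k| + |u - x l| := by
          have : x k - x l = -(u - x k) + (u - x l) := by ring
          rw [this]
          exact (abs_add_le _ _).trans_eq (by rw [abs_neg])
        linarith
    rw [Finset.prod_const] at h3
    have h7 : (Finset.univ.erase k : Finset (Fin 4)).card = 3 := by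
      rw [Finset.card_erase_of_mem (Finset.mem_univ k)]
      rfl
    rwa [h7] at h3
  have h8 : |u - x k| ^ (-2 / 3 : ℝ) ≤ ∑ k, |u - x k| ^ (-2 / 3 : ℝ) :=
    Finset.single_le_sum (f := fun k => |u - x k| ^ (-2 / 3 : ℝ))
      (fun l _ => Real.rpow_nonneg (abs_nonneg _) _) (Finset.mem_univ k)
  rw [h1, mul_comm]
  apply mul_le_mul h2 h8 (Real.rpow_nonneg (abs_nonneg _) _)
  positivity

theorem abs_rpow_int {r : ℝ} (hr : -1 < r) (a b : ℝ) :
    IntervalIntegrable (fun u : ℝ => |u| ^ r) volume a b := by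
  have h0 : ∀ c : ℝ, 0 ≤ c → IntervalIntegrable (fun u : ℝ => |u| ^ r) volume 0 c := by
    intro c hc
    refine (intervalIntegral.intervalIntegrable_rpow' (a := 0) (b := c) hr).congr ?_
    intro u hu
    rw [uIoc_of_le hc] at hu
    simp only
    rw [abs_of_pos hu.1]
  have h1 : ∀ c : ℝ, IntervalIntegrable (fun u : ℝ => |u| ^ r) volume 0 c := by
    intro c
    rcases le_total 0 c with hc | hc
    · exact h0 c hc
    · have h2 := h0 (-c) (by linarith)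
      rw [IntervalIntegrable.iff_comp_neg] at h2
      simpa using h2
  exact (h1 a).symm.trans (h1 b)

theorem abs_sub_rpow_int {r : ℝ} (hr : -1 < r) (x a b : ℝ) :
    IntervalIntegrable (fun u : ℝ => |u - x| ^ r) volume a b := by
  have h := (abs_rpow_int hr (a - x) (b - x)).comp_sub_right x
  simpa using h

theorem exists_gap {x : Fin 4 → ℝ} (hx : Function.Injective x) :
    ∃ d : ℝ, 0 < d ∧ ∀ k l, k ≠ l → d ≤ |x k - x l| := by
  have h : ∀ k l : Fin 4, ∃ d : ℝ, 0 < d ∧ (k ≠ l → d ≤ |x k - x l|) := by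
    intro k l
    by_cases hkl : k = l
    · exact ⟨1, one_pos, fun h => absurd hkl h⟩
    · exact ⟨|x k - x l|, abs_pos.2 (sub_ne_zero.2 fun h => hkl (hx h)), fun _ => le_rfl⟩
  choose d hd using h
  refine ⟨Finset.univ.inf' Finset.univ_nonempty fun p : Fin 4 × Fin 4 => d p.1 p.2, ?_, ?_⟩
  · rw [Finset.lt_inf'_iff]
    intro p _
    exact (hd p.1 p.2).1
  · intro k l hkl
    exact (Finset.inf'_le (fun p : Fin 4 × Fin 4 => d p.1 p.2)
      (Finset.mem_univ (k, l))).trans ((hd k l).2 hkl)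

theorem rho_int {x : Fin 4 → ℝ} (hx : Function.Injective x) (a b : ℝ) :
    IntervalIntegrable (rho x) volume a b := by
  obtain ⟨d, hd, hgap⟩ := exists_gap hx
  have h1 : IntervalIntegrable (fun u => ((d / 2) ^ (-2 / 3 : ℝ)) ^ 3 *
      ∑ k, |u - x k| ^ (-2 / 3 : ℝ)) volume a b := by
    apply IntervalIntegrable.const_mul
    have h2 := IntervalIntegrable.sum (μ := volume) (a := a) (b := b) Finset.univ
      (f := fun (k : Fin 4) (u : ℝ) => |u - x k| ^ (-2 / 3 : ℝ))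
      (fun k _ => abs_sub_rpow_int (by norm_num) _ _ _)
    refine h2.congr ?_
    intro u _
    simp
  refine h1.mono_fun (rho_meas x).aestronglyMeasurable ?_
  refine Eventually.of_forall fun u => ?_
  simp only
  rw [Real.norm_of_nonneg (rho_nonneg x u), Real.norm_of_nonneg]
  · exact rho_le hd hgap u
  · exact (rho_nonneg x u).trans (rho_le hd hgap u)

/-- The tails. -/
theorem exists_K (x : Fin 4 → ℝ) (c : ℝ) : ∃ K : ℝ, 1 ≤ K ∧ c ≤ K ∧ ∀ s : ℂ, K ≤ ‖s‖ →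
    ∀ k, ‖s‖ / 2 ≤ ‖s - x k‖ := by
  refine ⟨1 + |c| + 2 * ∑ k, |x k|, ?_, ?_, ?_⟩
  · have : 0 ≤ ∑ k, |x k| := Finset.sum_nonneg fun _ _ => abs_nonneg _
    linarith [abs_nonneg c]
  · have : 0 ≤ ∑ k, |x k| := Finset.sum_nonneg fun _ _ => abs_nonneg _
    linarith [le_abs_self c]
  · intro s hs k
    have h1 : |x k| ≤ ∑ k, |x k| :=
      Finset.single_le_sum (f := fun k => |x k|) (fun _ _ => abs_nonneg _) (Finset.mem_univ k)
    have h2 : ‖s‖ ≤ ‖s - x k‖ + |x k| := by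
      have := norm_add_le (s - x k) (x k : ℂ)
      rw [sub_add_cancel, Complex.norm_real, Real.norm_eq_abs] at this
      exact this
    linarith [abs_nonneg c]

theorem tail_bound {x : Fin 4 → ℝ} {c K : ℝ} (hK : 1 ≤ K) (hcK : c ≤ K) (hc : 0 ≤ c) {s : ℂ}
    (hs : K ≤ ‖s‖) (hx : ∀ k, ‖s‖ / 2 ≤ ‖s - x k‖) :
    (∏ k, ‖s - x k‖ ^ (-2 / 3 : ℝ)) * (‖s‖ + c) ^ (2 / 3 : ℝ) ≤ 16 / ‖s‖ ^ 2 := by
  have hs1 : 1 ≤ ‖s‖ := hK.trans hs
  have hs0 : 0 < ‖s‖ := by linarith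
  have h1 : ∏ k, ‖s - x k‖ ^ (-2 / 3 : ℝ) ≤ ∏ _k : Fin 4, (‖s‖ / 2) ^ (-2 / 3 : ℝ) := by
    apply Finset.prod_le_prod
    · intro k _
      positivity
    · intro k _
      exact Real.rpow_le_rpow_of_nonpos (by positivity) (hx k) (by norm_num)
  rw [Finset.prod_const, Finset.card_univ, Fintype.card_fin] at h1
  have h2 : (‖s‖ + c) ^ (2 / 3 : ℝ) ≤ (2 * ‖s‖) ^ (2 / 3 : ℝ) := by
    apply Real.rpow_le_rpow (by positivity) (by linarith) (by norm_num)
  have h3 : (∏ k, ‖s - x k‖ ^ (-2 / 3 : ℝ)) * (‖s‖ + c) ^ (2 / 3 : ℝ) ≤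
      ((‖s‖ / 2) ^ (-2 / 3 : ℝ)) ^ 4 * (2 * ‖s‖) ^ (2 / 3 : ℝ) :=
    mul_le_mul h1 h2 (by positivity) (by positivity)
  refine h3.trans ?_
  have e1 : ((‖s‖ / 2) ^ (-2 / 3 : ℝ)) ^ 4 = (‖s‖ / 2) ^ (-8 / 3 : ℝ) := by
    rw [← Real.rpow_natCast, ← Real.rpow_mul (by positivity)]
    norm_num
  rw [e1, Real.div_rpow hs0.le (by norm_num), Real.mul_rpow (by norm_num) hs0.le]
  have e2 : ‖s‖ ^ (-8 / 3 : ℝ) * ‖s‖ ^ (2 / 3 : ℝ) = (‖s‖ ^ 2)⁻¹ := by
    rw [← Real.rpow_add hs0, show (-8 / 3 + 2 / 3 : ℝ) = -2 by norm_num, Real.rpow_neg hs0.le]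
    norm_num
  have e3 : (2 : ℝ) ^ (2 / 3 : ℝ) / 2 ^ (-8 / 3 : ℝ) = 2 ^ (10 / 3 : ℝ) := by
    rw [← Real.rpow_sub (by norm_num)]
    norm_num
  have e4 : (2 : ℝ) ^ (10 / 3 : ℝ) ≤ 16 := by
    have : (2 : ℝ) ^ (10 / 3 : ℝ) ≤ 2 ^ (4 : ℝ) :=
      Real.rpow_le_rpow_of_exponent_le (by norm_num) (by norm_num)
    refine this.trans ?_
    norm_num
  calc ‖s‖ ^ (-8 / 3 : ℝ) / 2 ^ (-8 / 3 : ℝ) * (2 ^ (2 / 3 : ℝ) * ‖s‖ ^ (2 / 3 : ℝ))
      = (2 ^ (2 / 3 : ℝ) / 2 ^ (-8 / 3 : ℝ)) * (‖s‖ ^ (-8 / 3 : ℝ) * ‖s‖ ^ (2 / 3 : ℝ)) := by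
        ring
    _ = 2 ^ (10 / 3 : ℝ) * (‖s‖ ^ 2)⁻¹ := by rw [e2, e3]
    _ ≤ 16 * (‖s‖ ^ 2)⁻¹ := mul_le_mul_of_nonneg_right e4 (by positivity)
    _ = _ := by rw [div_eq_mul_inv]

/-- the dominating function is integrable on the line -/
theorem dom_int {x : Fin 4 → ℝ} (hx : Function.Injective x) {c : ℝ} (hc : 0 ≤ c) :
    Integrable (fun u : ℝ => rho x u * (|u| + c) ^ (2 / 3 : ℝ)) := by
  obtain ⟨K, hK1, hKc, hK⟩ := exists_K x c
  have h1 : IntegrableOn (fun u : ℝ => (K + c) ^ (2 / 3 : ℝ) * rho x u) (Icc (-K) K) := by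
    have := (rho_int hx (-K) K).const_mul ((K + c) ^ (2 / 3 : ℝ))
    rw [intervalIntegrable_iff_integrableOn_Icc_of_le (by linarith)] at this
    exact this
  have h2 : Integrable (fun u : ℝ => 32 * (1 + u ^ 2)⁻¹) :=
    integrable_inv_one_add_sq.const_mul 32
  have h3 : Integrable (fun u : ℝ => (Icc (-K) K).indicator
      (fun u => (K + c) ^ (2 / 3 : ℝ) * rho x u) u + 32 * (1 + u ^ 2)⁻¹) :=
    (h1.integrable_indicator measurableSet_Icc).add h2
  refine h3.mono' ?_ ?_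
  · apply Measurable.aestronglyMeasurable
    exact (rho_meas x).mul ((measurable_id.abs.add_const c).pow_const _)
  · refine Eventually.of_forall fun u => ?_
    have hr := rho_nonneg x u
    rw [Real.norm_of_nonneg (by positivity)]
    by_cases hu : u ∈ Icc (-K) K
    · rw [indicator_of_mem hu]
      have h4 : |u| ≤ K := abs_le.2 ⟨hu.1, hu.2⟩
      have h5 : (|u| + c) ^ (2 / 3 : ℝ) ≤ (K + c) ^ (2 / 3 : ℝ) :=
        Real.rpow_le_rpow (by positivity) (by linarith) (by norm_num)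
      have h6 := mul_le_mul_of_nonneg_left h5 hr
      have h7 : 0 ≤ 32 * (1 + u ^ 2)⁻¹ := by positivity
      linarith [mul_comm (rho x u) ((K + c) ^ (2 / 3 : ℝ))]
    · rw [indicator_of_notMem hu, zero_add]
      have h4 : K ≤ |u| := by
        by_contra hcon
        rw [not_le] at hcon
        exact hu ⟨(abs_lt.1 hcon).1.le, (abs_lt.1 hcon).2.le⟩
      have hnorm : ‖(u : ℂ)‖ = |u| := by rw [Complex.norm_real, Real.norm_eq_abs]
      have h5 := tail_bound hK1 hKc hc (s := (u : ℂ)) (x := x) (by rw [hnorm]; exact h4)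
        (fun k => hK _ (by rw [hnorm]; exact h4) k)
      have h6 : ∀ k, ‖(u : ℂ) - x k‖ = |u - x k| := by
        intro k
        rw [← ofReal_sub, Complex.norm_real, Real.norm_eq_abs]
      simp only [h6, hnorm] at h5
      refine h5.trans ?_
      have h7 : 1 ≤ |u| := hK1.trans h4
      have h8 : (1 : ℝ) ≤ u ^ 2 := by
        rw [← sq_abs]
        nlinarith
      rw [sq_abs, div_eq_mul_inv]
      have h9 : (u ^ 2)⁻¹ ≤ 2 * (1 + u ^ 2)⁻¹ := by
        rw [inv_eq_one_div, ← div_eq_mul_inv, div_le_div_iff₀ (by positivity) (by positivity)]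
        linarith
      linarith

end Pool.Agent.H13.Q1.Four
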