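import Pool.Agent.H13.Q1.FourRe

/-!
# Vector functions in the upper half plane: determinants and local forms

`Mk x L κ G`: the function `G` has at the mark `x`, in the coordinates given by `L`, the exponents
`-1/3, 2/3, 2/3` with a logarithm. `Inf G`: regular at infinity, of weight `1/3`.
-/

open Complex Metric Set Topology Filter
open scoped ComplexConjugate

noncomputable section

namespace Pool.Agent.H13.Q1.Four

/-- functions with values in `ℂ³` -/
abbrev VF := ℂ → Fin 3 → ℂ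

/-- the derivative -/
def dv (G : VF) : VF := fun z j => deriv (fun w => G w j) z

/-- a change of coordinates -/
def LM (L : Matrix (Fin 3) (Fin 3) ℂ) (G : VF) : VF := fun z => L.mulVec (G z)

/-- the determinant of three vectors -/
def d3 (a b c : Fin 3 → ℂ) : ℂ :=
  a 0 * (b 1 * c 2 - b 2 * c 1) - a 1 * (b 0 * c 2 - b 2 * c 0) + a 2 * (b 0 * c 1 - b 1 * c 0)

theorem d3_eq_det (a b c : Fin 3 → ℂ) : d3 a b c = Matrix.det (Matrix.of ![a, b, c]) := by
  rw [Matrix.det_fin_three]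
  simp [d3]
  ring

theorem d3_mulVec (L : Matrix (Fin 3) (Fin 3) ℂ) (a b c : Fin 3 → ℂ) :
    d3 (L.mulVec a) (L.mulVec b) (L.mulVec c) = L.det * d3 a b c := by
  have h : (Matrix.of ![L.mulVec a, L.mulVec b, L.mulVec c]) =
      (Matrix.of ![a, b, c]) * L.transpose := by
    ext i j
    fin_cases i <;>
      simp [Matrix.mul_apply, Matrix.mulVec, dotProduct, mul_comm]
  rw [d3_eq_det, d3_eq_det, h, Matrix.det_mul, Matrix.det_transpose, mul_comm]

/-- holomorphic in the upper half plane -/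
def Hol (G : VF) : Prop := ∀ j z, 0 < z.im → DifferentiableAt ℂ (fun w => G w j) z

theorem Hol.dv {G : VF} (h : Hol G) : Hol (dv G) := by
  intro j z hz
  have h1 : DifferentiableOn ℂ (fun w => G w j) UH :=
    fun w hw => (h j w hw).differentiableWithinAt
  exact (h1.deriv isOpen_UH).differentiableAt (isOpen_UH.mem_nhds hz)

theorem LM_apply (L : Matrix (Fin 3) (Fin 3) ℂ) (G : VF) (z : ℂ) (j : Fin 3) :
    LM L G z j = L j 0 * G z 0 + L j 1 * G z 1 + L j 2 * G z 2 := by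
  unfold LM
  rw [Matrix.mulVec, dotProduct, Fin.sum_univ_three]

theorem Hol.LM {G : VF} (h : Hol G) (L : Matrix (Fin 3) (Fin 3) ℂ) : Hol (LM L G) := by
  intro j z hz
  have e : (fun w => Four.LM L G w j) =
      fun w => L j 0 * G w 0 + L j 1 * G w 1 + L j 2 * G w 2 := by
    funext w; exact LM_apply L G w j
  rw [e]
  exact (((h 0 z hz).const_mul _).add ((h 1 z hz).const_mul _)).add ((h 2 z hz).const_mul _)

theorem dv_LM {G : VF} (h : Hol G) (L : Matrix (Fin 3) (Fin 3) ℂ) {z : ℂ} (hz : 0 < z.im) :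
    dv (LM L G) z = L.mulVec (dv G z) := by
  funext j
  have e : (fun w => LM L G w j) =
      fun w => L j 0 * G w 0 + L j 1 * G w 1 + L j 2 * G w 2 := by
    funext w; exact LM_apply L G w j
  unfold dv
  rw [e, Matrix.mulVec, dotProduct, Fin.sum_univ_three]
  exact ((((h 0 z hz).hasDerivAt.const_mul (L j 0)).add
    ((h 1 z hz).hasDerivAt.const_mul (L j 1))).add
    ((h 2 z hz).hasDerivAt.const_mul (L j 2))).deriv

theorem dv_congr {G G' : VF} (h : ∀ z, 0 < z.im → G z = G' z) {z : ℂ} (hz : 0 < z.im) :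
    dv G z = dv G' z := by
  funext j
  apply Filter.EventuallyEq.deriv_eq
  filter_upwards [isOpen_UH.mem_nhds hz] with w hw
  exact congrFun (h w hw) j

theorem dv_dv_LM {G : VF} (h : Hol G) (L : Matrix (Fin 3) (Fin 3) ℂ) {z : ℂ} (hz : 0 < z.im) :
    dv (dv (LM L G)) z = L.mulVec (dv (dv G) z) := by
  rw [dv_congr (G' := LM L (dv G)) (fun w hw => dv_LM h L hw) hz, dv_LM h.dv L hz]

/-- `det (G₀, G₀', G)` -/
def D1 (G₀ G : VF) (z : ℂ) : ℂ := d3 (G₀ z) (dv G₀ z) (G z)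

/-- `det (G₀, G₀'', G)` -/
def D2 (G₀ G : VF) (z : ℂ) : ℂ := d3 (G₀ z) (dv (dv G₀) z) (G z)

/-- the Wronski determinant -/
def WW (G₀ : VF) (z : ℂ) : ℂ := d3 (G₀ z) (dv G₀ z) (dv (dv G₀) z)

/-- `det (G, G₀', G₀'')` -/
def D0 (G₀ G : VF) (z : ℂ) : ℂ := d3 (G z) (dv G₀ z) (dv (dv G₀) z)

theorem D1_LM {G₀ G : VF} (h₀ : Hol G₀) (L : Matrix (Fin 3) (Fin 3) ℂ) {z : ℂ}
    (hz : 0 < z.im) : D1 (LM L G₀) (LM L G) z = L.det * D1 G₀ G z := by
  unfold D1
  rw [dv_LM h₀ L hz]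
  exact d3_mulVec L _ _ _

theorem D2_LM {G₀ G : VF} (h₀ : Hol G₀) (L : Matrix (Fin 3) (Fin 3) ℂ) {z : ℂ}
    (hz : 0 < z.im) : D2 (LM L G₀) (LM L G) z = L.det * D2 G₀ G z := by
  unfold D2
  rw [dv_dv_LM h₀ L hz]
  exact d3_mulVec L _ _ _

theorem WW_LM {G₀ : VF} (h₀ : Hol G₀) (L : Matrix (Fin 3) (Fin 3) ℂ) {z : ℂ}
    (hz : 0 < z.im) : WW (LM L G₀) z = L.det * WW G₀ z := by
  unfold WW
  rw [dv_LM h₀ L hz, dv_dv_LM h₀ L hz]
  exact d3_mulVec L _ _ _

theorem D0_LM {G₀ G : VF} (h₀ : Hol G₀) (L : Matrix (Fin 3) (Fin 3) ℂ) {z : ℂ}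
    (hz : 0 < z.im) : D0 (LM L G₀) (LM L G) z = L.det * D0 G₀ G z := by
  unfold D0
  rw [dv_LM h₀ L hz, dv_dv_LM h₀ L hz]
  exact d3_mulVec L _ _ _

theorem differentiableAt_d3 {a b c : VF} {z : ℂ} (ha : ∀ j, DifferentiableAt ℂ (fun w => a w j) z)
    (hb : ∀ j, DifferentiableAt ℂ (fun w => b w j) z)
    (hc : ∀ j, DifferentiableAt ℂ (fun w => c w j) z) :
    DifferentiableAt ℂ (fun w => d3 (a w) (b w) (c w)) z := by
  unfold d3
  have a0 := ha 0
  have a1 := ha 1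
  have a2 := ha 2
  have b0 := hb 0
  have b1 := hb 1
  have b2 := hb 2
  have c0 := hc 0
  have c1 := hc 1
  have c2 := hc 2
  exact ((a0.mul ((b1.mul c2).sub (b2.mul c1))).sub (a1.mul ((b0.mul c2).sub (b2.mul c0)))).add
    (a2.mul ((b0.mul c1).sub (b1.mul c0)))

theorem RX.d3 {a b c : VF} {t : ℝ} (ha : ∀ j, RX (fun w => a w j) t)
    (hb : ∀ j, RX (fun w => b w j) t) (hc : ∀ j, RX (fun w => c w j) t) :
    RX (fun w => Four.d3 (a w) (b w) (c w)) t := by
  unfold Four.d3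
  have a0 := ha 0
  have a1 := ha 1
  have a2 := ha 2
  have b0 := hb 0
  have b1 := hb 1
  have b2 := hb 2
  have c0 := hc 0
  have c1 := hc 1
  have c2 := hc 2
  exact ((a0.mul ((b1.mul c2).sub (b2.mul c1))).sub (a1.mul ((b0.mul c2).sub (b2.mul c0)))).add
    (a2.mul ((b0.mul c1).sub (b1.mul c0)))

/-- the regular points: all determinants are real on the line -/
theorem RX_of_LM {F : ℂ → ℂ} {t : ℝ} {δ : ℂ} (h0 : δ ≠ 0) (hδ : conj δ = δ)
    (h : RX (fun z => δ * F z) t) : RX F t := by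
  have h1 : RX (fun _ => δ⁻¹) t := RX.const t (by rw [map_inv₀, hδ])
  exact (h1.mul h).congr (fun z _ => by rw [← mul_assoc, inv_mul_cancel₀ h0, one_mul])

/-! ### Jets -/

/-- second derivatives -/
theorem deriv2_of {U : Set ℂ} (hU : IsOpen U) {z : ℂ} (hz : z ∈ U) {F F1 : ℂ → ℂ} {F2 : ℂ}
    (h : ∀ w ∈ U, HasDerivAt F (F1 w) w) (h2 : HasDerivAt F1 F2 z) :
    deriv F z = F1 z ∧ deriv (deriv F) z = F2 := by
  refine ⟨(h z hz).deriv, ?_⟩
  have e : deriv F =ᶠ[𝓝 z] F1 := by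
    filter_upwards [hU.mem_nhds hz] with w hw
    exact (h w hw).deriv
  rw [e.deriv_eq]
  exact h2.deriv

/-- a product with a function `m` such that `m' = (a / ζ) m` -/
theorem jet_mul {U : Set ℂ} (hU : IsOpen U) {z : ℂ} (hz : z ∈ U) {x : ℂ} (hx : ∀ w ∈ U, w ≠ x)
    {m r r1 : ℂ → ℂ} {r2 a : ℂ} (hm : ∀ w ∈ U, HasDerivAt m (a / (w - x) * m w) w)
    (h : ∀ w ∈ U, HasDerivAt r (r1 w) w) (h2 : HasDerivAt r1 r2 z) {F : ℂ → ℂ}
    (hF : ∀ w ∈ U, F w = m w * r w) :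
    F z = m z * r z ∧ deriv F z = m z * (r1 z + a / (z - x) * r z) ∧
    deriv (deriv F) z = m z * (r2 + 2 * (a / (z - x)) * r1 z + a * (a - 1) / (z - x) ^ 2 * r z) := by
  have hzx : z - x ≠ 0 := sub_ne_zero.2 (hx z hz)
  have e1 : ∀ w ∈ U, HasDerivAt F (m w * (r1 w + a / (w - x) * r w)) w := by
    intro w hw
    have h3 := (hm w hw).mul (h w hw)
    have h4 : F =ᶠ[𝓝 w] fun w => m w * r w := by
      filter_upwards [hU.mem_nhds hw] with v hv
      exact hF v hv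
    refine (h3.congr_of_eventuallyEq h4).congr_deriv ?_
    ring
  have e2 : HasDerivAt (fun w => m w * (r1 w + a / (w - x) * r w))
      (m z * (r2 + 2 * (a / (z - x)) * r1 z + a * (a - 1) / (z - x) ^ 2 * r z)) z := by
    have h5 : HasDerivAt (fun w : ℂ => a / (w - x)) (-a / (z - x) ^ 2) z := by
      have h6 := ((hasDerivAt_id z).sub_const x).inv hzx
      have h7 := h6.const_mul a
      refine (h7.congr_of_eventuallyEq ?_).congr_deriv ?_
      · filter_upwards with w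
        simp [div_eq_mul_inv]
      · simp only [id]
        ring
    have h8 := (hm z hz).mul (h2.add (h5.mul (h z hz)))
    refine h8.congr_deriv ?_
    simp only [Pi.add_apply, Pi.mul_apply]
    field_simp
    ring
  obtain ⟨k1, k2⟩ := deriv2_of hU hz e1 e2
  exact ⟨hF z hz, k1, k2⟩

theorem d3_jet1 (m μ : ℂ) (r r1 s : Fin 3 → ℂ) :
    d3 (fun j => m * r j) (fun j => m * (r1 j + μ * r j)) (fun j => m * s j) =
      m ^ 3 * d3 r r1 s := by
  unfold d3; ring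

theorem d3_jet2 (m μ ν : ℂ) (r r1 r2 s : Fin 3 → ℂ) :
    d3 (fun j => m * r j) (fun j => m * (r2 j + 2 * μ * r1 j + ν * r j)) (fun j => m * s j) =
      m ^ 3 * (d3 r r2 s + 2 * μ * d3 r r1 s) := by
  unfold d3; ring

theorem d3_jet3 (m μ ν : ℂ) (r r1 r2 : Fin 3 → ℂ) :
    d3 (fun j => m * r j) (fun j => m * (r1 j + μ * r j))
      (fun j => m * (r2 j + 2 * μ * r1 j + ν * r j)) = m ^ 3 * d3 r r1 r2 := by
  unfold d3; ring

/-! ### Powers -/

/-- `z ^ a` in the upper half plane -/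
def pw (a z : ℂ) : ℂ := exp (a * log z)

theorem pw_ne (a z : ℂ) : pw a z ≠ 0 := exp_ne_zero _

theorem pw_add (a b z : ℂ) : pw (a + b) z = pw a z * pw b z := by
  unfold pw; rw [← exp_add]; congr 1; ring

theorem pw_one {z : ℂ} (hz : z ≠ 0) : pw 1 z = z := by
  unfold pw; rw [one_mul, exp_log hz]

theorem pw_neg_third_cube {z : ℂ} (hz : z ≠ 0) : pw (-1 / 3) z ^ 3 = z⁻¹ := by
  unfold pw
  rw [← exp_nat_mul]
  have : ((3 : ℕ) : ℂ) * (-1 / 3 * log z) = - log z := by push_cast; ring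
  rw [this, exp_neg, exp_log hz]

theorem pw_neg_two_third_cube {z : ℂ} (hz : z ≠ 0) : pw (-2 / 3) z ^ 3 = (z ^ 2)⁻¹ := by
  unfold pw
  rw [← exp_nat_mul]
  have : ((3 : ℕ) : ℂ) * (-2 / 3 * log z) = - (log z + log z) := by push_cast; ring
  rw [this, exp_neg, exp_add, exp_log hz, sq]

theorem hasDerivAt_pw (a x : ℂ) {w : ℂ} (hw : w - x ∈ slitPlane) :
    HasDerivAt (fun w => pw a (w - x)) (a / (w - x) * pw a (w - x)) w := by
  unfold pw
  have h1 : HasDerivAt (fun w => log (w - x)) (1 / (w - x)) w :=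
    HasDerivAt.clog ((hasDerivAt_id w).sub_const x) hw
  have h2 := (h1.const_mul a).cexp
  refine h2.congr_deriv ?_
  ring

theorem slit_of_im {z : ℂ} (hz : 0 < z.im) : z ∈ slitPlane := by
  rw [mem_slitPlane_iff]
  exact Or.inr hz.ne'

end Pool.Agent.H13.Q1.Four
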