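import Pool.Agent.H13.Q1.FourLoc

/-!
# The determinants at a mark
-/

open Complex Metric Set Topology Filter
open scoped ComplexConjugate

noncomputable section

namespace Pool.Agent.H13.Q1.Four

/-- The local form at a mark: exponents `-1/3, 2/3, 2/3` with a logarithm. -/
def Mk (x : ℝ) (L : Matrix (Fin 3) (Fin 3) ℂ) (κ : ℂ) (G : VF) : Prop :=
  ∃ r : ℝ, 0 < r ∧ ∃ p : Fin 3 → ℂ → ℂ, (∀ j, DifferentiableOn ℂ (p j) (ball 0 r)) ∧
    ∀ z : ℂ, 0 < z.im → z - x ∈ ball (0 : ℂ) r →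
      LM L G z 0 = pw (-1 / 3) (z - x) * p 0 (z - x) ∧
      LM L G z 1 = pw (-1 / 3) (z - x) * ((z - x) * p 1 (z - x)) ∧
      LM L G z 2 = pw (-1 / 3) (z - x) *
        (p 2 (z - x) + κ * log (z - x) * ((z - x) * p 1 (z - x)))

/-- the values -/
def r0 (κ ζ ℓ : ℂ) (p : Fin 3 → ℂ) : Fin 3 → ℂ := ![p 0, ζ * p 1, p 2 + κ * ℓ * (ζ * p 1)]

/-- the first derivatives -/
def r1 (κ ζ ℓ : ℂ) (p p' : Fin 3 → ℂ) : Fin 3 → ℂ :=
  ![p' 0, p 1 + ζ * p' 1, p' 2 + κ * (p 1 + ℓ * (p 1 + ζ * p' 1))]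

/-- the second derivatives -/
def r2 (κ ζ ℓ : ℂ) (p p' p'' : Fin 3 → ℂ) : Fin 3 → ℂ :=
  ![p'' 0, 2 * p' 1 + ζ * p'' 1,
    p'' 2 + κ * (p' 1 + (p 1 + ζ * p' 1) / ζ + ℓ * (2 * p' 1 + ζ * p'' 1))]

theorem jets {x : ℝ} {L : Matrix (Fin 3) (Fin 3) ℂ} {κ : ℂ} {G : VF} {r : ℝ}
    {p : Fin 3 → ℂ → ℂ} (hp : ∀ j, DifferentiableOn ℂ (p j) (ball 0 r))
    (hG : ∀ z : ℂ, 0 < z.im → z - x ∈ ball (0 : ℂ) r →
      LM L G z 0 = pw (-1 / 3) (z - x) * p 0 (z - x) ∧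
      LM L G z 1 = pw (-1 / 3) (z - x) * ((z - x) * p 1 (z - x)) ∧
      LM L G z 2 = pw (-1 / 3) (z - x) *
        (p 2 (z - x) + κ * log (z - x) * ((z - x) * p 1 (z - x))))
    {z : ℂ} (hz : 0 < z.im) (hzr : z - x ∈ ball (0 : ℂ) r) :
    LM L G z = (fun j => pw (-1 / 3) (z - x) *
      r0 κ (z - x) (log (z - x)) (fun j => p j (z - x)) j) ∧
    dv (LM L G) z = (fun j => pw (-1 / 3) (z - x) *
      (r1 κ (z - x) (log (z - x)) (fun j => p j (z - x)) (fun j => deriv (p j) (z - x)) j +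
        (-1 / 3) / (z - x) * r0 κ (z - x) (log (z - x)) (fun j => p j (z - x)) j)) ∧
    dv (dv (LM L G)) z = (fun j => pw (-1 / 3) (z - x) *
      (r2 κ (z - x) (log (z - x)) (fun j => p j (z - x)) (fun j => deriv (p j) (z - x))
          (fun j => deriv (deriv (p j)) (z - x)) j +
        2 * ((-1 / 3) / (z - x)) * r1 κ (z - x) (log (z - x)) (fun j => p j (z - x))
          (fun j => deriv (p j) (z - x)) j +
        (-1 / 3) * (-1 / 3 - 1) / (z - x) ^ 2 *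
          r0 κ (z - x) (log (z - x)) (fun j => p j (z - x)) j)) := by
  set U : Set ℂ := {w : ℂ | 0 < w.im ∧ w - x ∈ ball (0 : ℂ) r} with hU
  have hUo : IsOpen U := by
    apply isOpen_UH.inter
    exact isOpen_ball.preimage (by fun_prop)
  have hzU : z ∈ U := ⟨hz, hzr⟩
  have him : ∀ w ∈ U, 0 < (w - x).im := by
    intro w hw
    simpa using hw.1
  have hslit : ∀ w ∈ U, w - x ∈ slitPlane := fun w hw => slit_of_im (him w hw)
  have hne : ∀ w ∈ U, w ≠ (x : ℂ) := by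
    rintro w hw rfl
    have := him _ hw
    simp at this
  have hm : ∀ w ∈ U, HasDerivAt (fun w => pw (-1 / 3) (w - x))
      ((-1 / 3) / (w - x) * pw (-1 / 3) (w - x)) w := fun w hw => hasDerivAt_pw _ _ (hslit w hw)
  -- derivatives of the `p j`
  have q1 : ∀ j, ∀ w ∈ U, HasDerivAt (fun w => p j (w - x)) (deriv (p j) (w - x)) w := by
    intro j w hw
    have h1 : HasDerivAt (p j) (deriv (p j) (w - x)) (w - x) :=
      ((hp j).differentiableAt (isOpen_ball.mem_nhds hw.2)).hasDerivAt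
    exact h1.comp_sub_const w x
  have q2 : ∀ j, ∀ w ∈ U, HasDerivAt (fun w => deriv (p j) (w - x))
      (deriv (deriv (p j)) (w - x)) w := by
    intro j w hw
    have h1 : HasDerivAt (deriv (p j)) (deriv (deriv (p j)) (w - x)) (w - x) :=
      (((hp j).deriv isOpen_ball).differentiableAt (isOpen_ball.mem_nhds hw.2)).hasDerivAt
    exact h1.comp_sub_const w x
  have hid : ∀ w, HasDerivAt (fun w : ℂ => w - x) 1 w := fun w =>
    (hasDerivAt_id w).sub_const (x : ℂ)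
  have hlog : ∀ w ∈ U, HasDerivAt (fun w : ℂ => log (w - x)) (1 / (w - x)) w := fun w hw =>
    (hid w).clog (hslit w hw)
  have hζ : z - x ≠ 0 := sub_ne_zero.2 (hne z hzU)
  -- component 0
  obtain ⟨a0, a1, a2⟩ := jet_mul hUo hzU hne (m := fun w => pw (-1 / 3) (w - x)) hm
    (q1 0) (q2 0 z hzU) (F := fun w => LM L G w 0) (fun w hw => (hG w hw.1 hw.2).1)
  -- component 1
  have c1 : ∀ w ∈ U, HasDerivAt (fun w => (w - x) * p 1 (w - x))
      (p 1 (w - x) + (w - x) * deriv (p 1) (w - x)) w := by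
    intro w hw
    refine ((hid w).mul (q1 1 w hw)).congr_deriv ?_
    ring
  have c2 : HasDerivAt (fun w => p 1 (w - x) + (w - x) * deriv (p 1) (w - x))
      (2 * deriv (p 1) (z - x) + (z - x) * deriv (deriv (p 1)) (z - x)) z := by
    refine ((q1 1 z hzU).add ((hid z).mul (q2 1 z hzU))).congr_deriv ?_
    ring
  obtain ⟨b0, b1, b2⟩ := jet_mul hUo hzU hne (m := fun w => pw (-1 / 3) (w - x)) hm
    c1 c2 (F := fun w => LM L G w 1) (fun w hw => (hG w hw.1 hw.2).2.1)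
  -- component 2
  have d1 : ∀ w ∈ U, HasDerivAt
      (fun w => p 2 (w - x) + κ * log (w - x) * ((w - x) * p 1 (w - x)))
      (deriv (p 2) (w - x) + κ * (p 1 (w - x) + log (w - x) *
        (p 1 (w - x) + (w - x) * deriv (p 1) (w - x)))) w := by
    intro w hw
    have hw0 : w - x ≠ 0 := sub_ne_zero.2 (hne w hw)
    refine ((q1 2 w hw).add (((hlog w hw).const_mul κ).mul (c1 w hw))).congr_deriv ?_
    field_simp
  have d2 : HasDerivAt (fun w => deriv (p 2) (w - x) + κ * (p 1 (w - x) + log (w - x) *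
        (p 1 (w - x) + (w - x) * deriv (p 1) (w - x))))
      (deriv (deriv (p 2)) (z - x) + κ * (deriv (p 1) (z - x) +
        (p 1 (z - x) + (z - x) * deriv (p 1) (z - x)) / (z - x) +
        log (z - x) * (2 * deriv (p 1) (z - x) + (z - x) * deriv (deriv (p 1)) (z - x)))) z := by
    refine ((q2 2 z hzU).add (((q1 1 z hzU).add ((hlog z hzU).mul c2)).const_mul κ)).congr_deriv ?_
    ring
  obtain ⟨e0, e1, e2⟩ := jet_mul hUo hzU hne (m := fun w => pw (-1 / 3) (w - x)) hm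
    d1 d2 (F := fun w => LM L G w 2) (fun w hw => (hG w hw.1 hw.2).2.2)
  refine ⟨?_, ?_, ?_⟩
  · funext j
    fin_cases j
    · exact a0
    · exact b0
    · exact e0
  · funext j
    fin_cases j
    · exact a1
    · exact b1
    · exact e1
  · funext j
    fin_cases j
    · exact a2
    · exact b2
    · exact e2

/-- `det (r, r', s)` without logarithms -/
def δ1 (κ ζ : ℂ) (p p' q : Fin 3 → ℂ) : ℂ :=
  p 0 * ((p 1 + ζ * p' 1) * q 2 - (p' 2 + κ * p 1) * (ζ * q 1)) -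
  ζ * p 1 * (p' 0 * q 2 - (p' 2 + κ * p 1) * q 0) +
  p 2 * (p' 0 * (ζ * q 1) - (p 1 + ζ * p' 1) * q 0)

/-- `det (r, r'', s)` without logarithms -/
def δ2 (κ ζ : ℂ) (p p' p'' q : Fin 3 → ℂ) : ℂ :=
  p 0 * ((2 * p' 1 + ζ * p'' 1) * q 2 - (p'' 2 + 2 * κ * p' 1) * (ζ * q 1) - κ * p 1 * q 1) -
  p 1 * (ζ * p'' 0 * q 2 - ζ * (p'' 2 + 2 * κ * p' 1) * q 0 - κ * p 1 * q 0) +
  p 2 * (p'' 0 * (ζ * q 1) - (2 * p' 1 + ζ * p'' 1) * q 0)

/-- `ζ det (r, r', r'')` -/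
def ω3 (κ ζ : ℂ) (p p' p'' : Fin 3 → ℂ) : ℂ :=
  p 0 * ((p 1 + ζ * p' 1) * (ζ * (p'' 2 + 2 * κ * p' 1) + κ * p 1) -
    (p' 2 + κ * p 1) * (ζ * (2 * p' 1 + ζ * p'' 1))) -
  ζ * p 1 * (p' 0 * (ζ * (p'' 2 + 2 * κ * p' 1) + κ * p 1) - (p' 2 + κ * p 1) * (ζ * p'' 0)) +
  p 2 * (ζ * (p' 0 * (2 * p' 1 + ζ * p'' 1)) - ζ * ((p 1 + ζ * p' 1) * p'' 0))

theorem d3_δ1 (κ ζ ℓ : ℂ) (p p' q : Fin 3 → ℂ) :
    d3 (r0 κ ζ ℓ p) (r1 κ ζ ℓ p p') (r0 κ ζ ℓ q) = δ1 κ ζ p p' q := by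
  simp only [d3, r0, r1, δ1, Matrix.cons_val_zero, Matrix.cons_val_one, Matrix.cons_val]
  ring

theorem d3_δ2 (κ ζ ℓ : ℂ) (hζ : ζ ≠ 0) (p p' p'' q : Fin 3 → ℂ) :
    d3 (r0 κ ζ ℓ p) (r2 κ ζ ℓ p p' p'') (r0 κ ζ ℓ q) = δ2 κ ζ p p' p'' q := by
  simp only [d3, r0, r2, δ2, Matrix.cons_val_zero, Matrix.cons_val_one, Matrix.cons_val]
  field_simp
  ring

theorem d3_ω3 (κ ζ ℓ : ℂ) (hζ : ζ ≠ 0) (p p' p'' : Fin 3 → ℂ) :
    ζ * d3 (r0 κ ζ ℓ p) (r1 κ ζ ℓ p p') (r2 κ ζ ℓ p p' p'') = ω3 κ ζ p p' p'' := by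
  simp only [d3, r0, r1, r2, ω3, Matrix.cons_val_zero, Matrix.cons_val_one, Matrix.cons_val]
  field_simp
  ring

/-- continuity of the coefficients at `0` -/
theorem coef_tendsto {x : ℝ} {r : ℝ} (hr : 0 < r) {f : ℂ → ℂ}
    (hf : DifferentiableOn ℂ f (ball 0 r)) :
    Tendsto (fun z : ℂ => f (z - x)) (𝓝[UH] (x : ℂ)) (𝓝 (f 0)) ∧
    Tendsto (fun z : ℂ => deriv f (z - x)) (𝓝[UH] (x : ℂ)) (𝓝 (deriv f 0)) ∧
    Tendsto (fun z : ℂ => deriv (deriv f) (z - x)) (𝓝[UH] (x : ℂ)) (𝓝 (deriv (deriv f) 0)) := by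
  have h0 : (0 : ℂ) ∈ ball (0 : ℂ) r := mem_ball_self hr
  have hsub : Tendsto (fun z : ℂ => z - x) (𝓝[UH] (x : ℂ)) (𝓝 0) := by
    have : Tendsto (fun z : ℂ => z - x) (𝓝 (x : ℂ)) (𝓝 ((x : ℂ) - x)) :=
      (by fun_prop : Continuous fun z : ℂ => z - x).tendsto _
    rw [sub_self] at this
    exact this.mono_left nhdsWithin_le_nhds
  have key : ∀ g : ℂ → ℂ, DifferentiableOn ℂ g (ball 0 r) →
      Tendsto (fun z : ℂ => g (z - x)) (𝓝[UH] (x : ℂ)) (𝓝 (g 0)) := fun g hg =>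
    (hg.differentiableAt (isOpen_ball.mem_nhds h0)).continuousAt.tendsto.comp hsub
  exact ⟨key f hf, key _ (hf.deriv isOpen_ball),
    key _ ((hf.deriv isOpen_ball).deriv isOpen_ball)⟩

theorem sub_tendsto (x : ℝ) : Tendsto (fun z : ℂ => z - x) (𝓝[UH] (x : ℂ)) (𝓝 0) := by
  have : Tendsto (fun z : ℂ => z - x) (𝓝 (x : ℂ)) (𝓝 ((x : ℂ) - x)) :=
    (by fun_prop : Continuous fun z : ℂ => z - x).tendsto _
  rw [sub_self] at this
  exact this.mono_left nhdsWithin_le_nhds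

theorem near_mem {x : ℝ} {r : ℝ} (hr : 0 < r) :
    ∀ᶠ z : ℂ in 𝓝[UH] (x : ℂ), 0 < z.im ∧ z - x ∈ ball (0 : ℂ) r := by
  have h1 : ∀ᶠ z : ℂ in 𝓝[UH] (x : ℂ), z - x ∈ ball (0 : ℂ) r :=
    (sub_tendsto x).eventually (isOpen_ball.mem_nhds (mem_ball_self hr))
  filter_upwards [h1, self_mem_nhdsWithin] with z hz hz'
  exact ⟨hz', hz⟩

/-- **The determinants at a mark.** -/
theorem Mk.asym {x : ℝ} {L : Matrix (Fin 3) (Fin 3) ℂ} {κ : ℂ} {G₀ G : VF} (h₀ : Hol G₀)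
    (hL : L.det ≠ 0) (m₀ : Mk x L κ G₀) (m : Mk x L κ G) :
    ∃ l : ℂ, Tendsto (fun z => (z - x) * D1 G₀ G z) (𝓝[UH] (x : ℂ)) (𝓝 l) ∧
      Tendsto (fun z => (z - x) ^ 2 * D2 G₀ G z) (𝓝[UH] (x : ℂ)) (𝓝 (-(2 / 3) * l)) := by
  obtain ⟨r, hr, p, hp, hG₀⟩ := m₀
  obtain ⟨r', hr', q, hq, hG⟩ := m
  have hp0 := fun j => (coef_tendsto (x := x) hr (hp j))
  have hq0 := fun j => (coef_tendsto (x := x) hr' (hq j))
  have hζ := sub_tendsto x
  have e1 : Tendsto (fun z : ℂ => δ1 κ (z - x) (fun j => p j (z - x))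
      (fun j => deriv (p j) (z - x)) (fun j => q j (z - x))) (𝓝[UH] (x : ℂ))
      (𝓝 (δ1 κ 0 (fun j => p j 0) (fun j => deriv (p j) 0) (fun j => q j 0))) := by
    unfold δ1
    have a0 := (hp0 0).1
    have a1 := (hp0 1).1
    have a2 := (hp0 2).1
    have b0 := (hp0 0).2.1
    have b1 := (hp0 1).2.1
    have b2 := (hp0 2).2.1
    have c0 := (hq0 0).1
    have c1 := (hq0 1).1
    have c2 := (hq0 2).1
    exact ((a0.mul (((a1.add (hζ.mul b1)).mul c2).sub ((b2.add (a1.const_mul κ)).mul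
      (hζ.mul c1)))).sub ((hζ.mul a1).mul ((b0.mul c2).sub ((b2.add (a1.const_mul κ)).mul
      c0)))).add (a2.mul ((b0.mul (hζ.mul c1)).sub ((a1.add (hζ.mul b1)).mul c0)))
  have e2 : Tendsto (fun z : ℂ => δ2 κ (z - x) (fun j => p j (z - x))
      (fun j => deriv (p j) (z - x)) (fun j => deriv (deriv (p j)) (z - x))
      (fun j => q j (z - x))) (𝓝[UH] (x : ℂ))
      (𝓝 (δ2 κ 0 (fun j => p j 0) (fun j => deriv (p j) 0) (fun j => deriv (deriv (p j)) 0)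
        (fun j => q j 0))) := by
    unfold δ2
    have a0 := (hp0 0).1
    have a1 := (hp0 1).1
    have a2 := (hp0 2).1
    have b1 := (hp0 1).2.1
    have f0 := (hp0 0).2.2
    have f1 := (hp0 1).2.2
    have f2 := (hp0 2).2.2
    have c0 := (hq0 0).1
    have c1 := (hq0 1).1
    have c2 := (hq0 2).1
    have g1 := (b1.const_mul 2).add (hζ.mul f1)
    have g2 := f2.add (b1.const_mul (2 * κ))
    exact ((a0.mul (((g1.mul c2).sub (g2.mul (hζ.mul c1))).sub ((a1.const_mul κ).mul c1))).sub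
      (a1.mul ((((hζ.mul f0).mul c2).sub ((hζ.mul g2).mul c0)).sub ((a1.const_mul κ).mul
      c0)))).add (a2.mul ((f0.mul (hζ.mul c1)).sub (g1.mul c0)))
  set l := δ1 κ 0 (fun j => p j 0) (fun j => deriv (p j) 0) (fun j => q j 0) with hl
  have hne : ∀ z : ℂ, 0 < z.im → z - (x : ℂ) ≠ 0 := by
    intro z hz h0
    have : (z - (x : ℂ)).im = 0 := by rw [h0]; rfl
    simp at this
    exact hz.ne' this
  -- the exact values
  have v : ∀ᶠ z : ℂ in 𝓝[UH] (x : ℂ), (z - x) * D1 G₀ G z = L.det⁻¹ * δ1 κ (z - x)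
        (fun j => p j (z - x)) (fun j => deriv (p j) (z - x)) (fun j => q j (z - x)) ∧
      (z - x) ^ 2 * D2 G₀ G z = L.det⁻¹ * ((z - x) * δ2 κ (z - x) (fun j => p j (z - x))
        (fun j => deriv (p j) (z - x)) (fun j => deriv (deriv (p j)) (z - x))
        (fun j => q j (z - x)) + -(2 / 3) * δ1 κ (z - x)
        (fun j => p j (z - x)) (fun j => deriv (p j) (z - x)) (fun j => q j (z - x))) := by
    filter_upwards [near_mem (x := x) hr, near_mem (x := x) hr'] with z hz hz'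
    obtain ⟨k0, k1, k2⟩ := jets hp hG₀ hz.1 hz.2
    obtain ⟨n0, -, -⟩ := jets hq hG hz'.1 hz'.2
    have hz0 := hne z hz.1
    have w1 := D1_LM (G := G) h₀ L hz.1
    have w2 := D2_LM (G := G) h₀ L hz.1
    unfold D1 at w1
    unfold D2 at w2
    rw [k0, k1, n0, d3_jet1, d3_δ1, pw_neg_third_cube hz0] at w1
    rw [k0, k2, n0, d3_jet2, d3_δ1, d3_δ2 _ _ _ hz0, pw_neg_third_cube hz0] at w2
    constructor
    · unfold D1
      field_simp at w1 ⊢
      linear_combination -w1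
    · unfold D2
      field_simp at w2 ⊢
      linear_combination -w2
  refine ⟨L.det⁻¹ * l, ?_, ?_⟩
  · refine (e1.const_mul _).congr' ?_
    filter_upwards [v] with z hz
    exact hz.1.symm
  · have h3 : Tendsto (fun z : ℂ => L.det⁻¹ * ((z - x) * δ2 κ (z - x) (fun j => p j (z - x))
        (fun j => deriv (p j) (z - x)) (fun j => deriv (deriv (p j)) (z - x))
        (fun j => q j (z - x)) + -(2 / 3) * δ1 κ (z - x)
        (fun j => p j (z - x)) (fun j => deriv (p j) (z - x)) (fun j => q j (z - x))))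
        (𝓝[UH] (x : ℂ)) (𝓝 (L.det⁻¹ * (0 * _ + -(2 / 3) * l))) :=
      ((hζ.mul e2).add (e1.const_mul _)).const_mul _
    have h4 : -(2 / 3) * (L.det⁻¹ * l) = L.det⁻¹ * (0 * (δ2 κ 0 (fun j => p j 0)
        (fun j => deriv (p j) 0) (fun j => deriv (deriv (p j)) 0) (fun j => q j 0)) +
        -(2 / 3) * l) := by ring
    rw [h4]
    refine h3.congr' ?_
    filter_upwards [v] with z hz
    exact hz.2.symm

/-- **The Wronski determinant at a mark.** -/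
theorem Mk.wron {x : ℝ} {L : Matrix (Fin 3) (Fin 3) ℂ} {κ : ℂ} {G₀ : VF} (h₀ : Hol G₀)
    (hL : L.det ≠ 0) (m₀ : Mk x L κ G₀) :
    ∃ ω : ℂ, Tendsto (fun z => (z - x) ^ 2 * WW G₀ z) (𝓝[UH] (x : ℂ)) (𝓝 ω) ∧
      (ω ≠ 0 → ∀ G : VF, Mk x L κ G → ∀ α : ℂ → ℂ, (∀ z, 0 < z.im → G z = fun j => α z * G₀ z j) →
        ∃ l, Tendsto α (𝓝[UH] (x : ℂ)) (𝓝 l)) := by
  obtain ⟨r, hr, p, hp, hG₀⟩ := m₀
  have hp0 := fun j => (coef_tendsto (x := x) hr (hp j))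
  have hζ := sub_tendsto x
  have hne : ∀ z : ℂ, 0 < z.im → z - (x : ℂ) ≠ 0 := by
    intro z hz h0
    have : (z - (x : ℂ)).im = 0 := by rw [h0]; rfl
    simp at this
    exact hz.ne' this
  have e1 : Tendsto (fun z : ℂ => ω3 κ (z - x) (fun j => p j (z - x))
      (fun j => deriv (p j) (z - x)) (fun j => deriv (deriv (p j)) (z - x))) (𝓝[UH] (x : ℂ))
      (𝓝 (ω3 κ 0 (fun j => p j 0) (fun j => deriv (p j) 0)
        (fun j => deriv (deriv (p j)) 0))) := by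
    unfold ω3
    have a0 := (hp0 0).1
    have a1 := (hp0 1).1
    have a2 := (hp0 2).1
    have b0 := (hp0 0).2.1
    have b1 := (hp0 1).2.1
    have b2 := (hp0 2).2.1
    have f0 := (hp0 0).2.2
    have f1 := (hp0 1).2.2
    have f2 := (hp0 2).2.2
    have g0 := a1.add (hζ.mul b1)
    have g1 := (b1.const_mul 2).add (hζ.mul f1)
    have g2 := (hζ.mul (f2.add (b1.const_mul (2 * κ)))).add (a1.const_mul κ)
    have g3 := b2.add (a1.const_mul κ)
    exact ((a0.mul ((g0.mul g2).sub (g3.mul (hζ.mul g1)))).sub ((hζ.mul a1).mul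
      ((b0.mul g2).sub (g3.mul (hζ.mul f0))))).add (a2.mul ((hζ.mul (b0.mul g1)).sub
      (hζ.mul (g0.mul f0))))
  have v : ∀ᶠ z : ℂ in 𝓝[UH] (x : ℂ), (z - x) ^ 2 * WW G₀ z = L.det⁻¹ * ω3 κ (z - x)
        (fun j => p j (z - x)) (fun j => deriv (p j) (z - x))
        (fun j => deriv (deriv (p j)) (z - x)) := by
    filter_upwards [near_mem (x := x) hr] with z hz
    obtain ⟨k0, k1, k2⟩ := jets hp hG₀ hz.1 hz.2
    have hz0 := hne z hz.1
    have w1 := WW_LM h₀ L hz.1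
    have w2 := d3_ω3 κ (z - x) (log (z - x)) hz0 (fun j => p j (z - x))
      (fun j => deriv (p j) (z - x)) (fun j => deriv (deriv (p j)) (z - x))
    unfold WW at w1
    rw [k0, k1, k2, d3_jet3, pw_neg_third_cube hz0] at w1
    rw [← w2]
    unfold WW
    field_simp at w1 ⊢
    linear_combination -w1
  refine ⟨L.det⁻¹ * ω3 κ 0 (fun j => p j 0) (fun j => deriv (p j) 0)
        (fun j => deriv (deriv (p j)) 0), ?_, ?_⟩
  · refine (e1.const_mul _).congr' ?_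
    filter_upwards [v] with z hz
    exact hz.symm
  · intro hω G hmk α hα
    obtain ⟨r', hr', q, hq, hG⟩ := hmk
    have hp00 : p 0 0 ≠ 0 := by
      intro h0
      apply hω
      unfold ω3
      simp only [h0]
      ring
    have hq0 := (coef_tendsto (x := x) hr' (hq 0)).1
    refine ⟨q 0 0 / p 0 0, ?_⟩
    refine (hq0.div (hp0 0).1 hp00).congr' ?_
    have hpne : ∀ᶠ z : ℂ in 𝓝[UH] (x : ℂ), p 0 (z - x) ≠ 0 :=
      (hp0 0).1.eventually_ne hp00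
    filter_upwards [near_mem (x := x) hr, near_mem (x := x) hr', hpne] with z hz hz' hpz
    have n1 := (hG₀ z hz.1 hz.2).1
    have n2 := (hG z hz'.1 hz'.2).1
    have hm := pw_ne (-1 / 3) (z - x)
    have n3 : LM L G z 0 = α z * LM L G₀ z 0 := by
      rw [LM_apply, LM_apply, hα z hz.1]
      ring
    rw [n1, n2] at n3
    have n4 : q 0 (z - x) = α z * p 0 (z - x) := by
      apply mul_left_cancel₀ hm
      rw [n3]; ring
    change q 0 (z - x) / p 0 (z - x) = α z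
    rw [n4, mul_div_assoc, div_self hpz, mul_one]

end Pool.Agent.H13.Q1.Four
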