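import Pool.Agent.H33.Q1.Refl

/-!
# Functions of the upper half plane which are real on the line, up to finitely many points

`RX F t`: `F` has near the real point `t` an analytic continuation which is real on the line.
`entire_of_RX`: if this holds off a finite set `S` and `(z - s) F z` tends to zero at the points of
`S`, then `F` is the restriction of an entire function; if `F` is bounded at infinity, it is a real
constant.
-/

open Complex Metric Set Topology Filter
open scoped ComplexConjugate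

noncomputable section

namespace Pool.Agent.H13.Q1.Four

/-- the upper half plane -/
def UH : Set ℂ := {z | 0 < z.im}

theorem isOpen_UH : IsOpen UH := isOpen_lt continuous_const Complex.continuous_im

/-- analytic continuation across the real point `t` which is real on the line -/
def RX (F : ℂ → ℂ) (t : ℝ) : Prop :=
  ∃ r : ℝ, 0 < r ∧ ∃ E : ℂ → ℂ, DifferentiableOn ℂ E (ball (t : ℂ) r) ∧
    (∀ z ∈ ball (t : ℂ) r, 0 < z.im → E z = F z) ∧
    (∀ z ∈ ball (t : ℂ) r, E (conj z) = conj (E z))

theorem conj_mem_ball {t : ℝ} {r : ℝ} {z : ℂ} (h : z ∈ ball (t : ℂ) r) :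
    conj z ∈ ball (t : ℂ) r := by
  rw [mem_ball, dist_eq_norm] at h ⊢
  have : conj z - (t : ℂ) = conj (z - t) := by simp
  rw [this, RCLike.norm_conj]
  exact h

theorem RX.congr {F G : ℂ → ℂ} {t : ℝ} (h : RX F t) (hFG : ∀ z, 0 < z.im → F z = G z) :
    RX G t := by
  obtain ⟨r, hr, E, h1, h2, h3⟩ := h
  exact ⟨r, hr, E, h1, fun z hz hz' => (h2 z hz hz').trans (hFG z hz'), h3⟩

theorem RX.mono_ball {F : ℂ → ℂ} {t : ℝ} (h : RX F t) :
    ∃ r : ℝ, 0 < r ∧ ∃ E : ℂ → ℂ, DifferentiableOn ℂ E (ball (t : ℂ) r) ∧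
    (∀ z ∈ ball (t : ℂ) r, 0 < z.im → E z = F z) ∧
    (∀ z ∈ ball (t : ℂ) r, E (conj z) = conj (E z)) := h

theorem RX.map2 {F G : ℂ → ℂ} {t : ℝ} (h : RX F t) (h' : RX G t) (φ : ℂ → ℂ → ℂ)
    (hφ : Differentiable ℂ (fun p : ℂ × ℂ => φ p.1 p.2))
    (hc : ∀ a b, φ (conj a) (conj b) = conj (φ a b)) : RX (fun z => φ (F z) (G z)) t := by
  obtain ⟨r, hr, E, h1, h2, h3⟩ := h
  obtain ⟨r', hr', E', h1', h2', h3'⟩ := h'
  refine ⟨min r r', lt_min hr hr', fun z => φ (E z) (E' z), ?_, ?_, ?_⟩
  · have e1 := h1.mono (ball_subset_ball (x := (t : ℂ)) (min_le_left r r'))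
    have e2 := h1'.mono (ball_subset_ball (x := (t : ℂ)) (min_le_right r r'))
    exact hφ.comp_differentiableOn (e1.prodMk e2)
  · intro z hz hz'
    change φ (E z) (E' z) = φ (F z) (G z)
    rw [h2 z (ball_subset_ball (min_le_left r r') hz) hz',
      h2' z (ball_subset_ball (min_le_right r r') hz) hz']
  · intro z hz
    change φ (E (conj z)) (E' (conj z)) = conj (φ (E z) (E' z))
    rw [h3 z (ball_subset_ball (min_le_left r r') hz),
      h3' z (ball_subset_ball (min_le_right r r') hz), hc]

theorem RX.add {F G : ℂ → ℂ} {t : ℝ} (h : RX F t) (h' : RX G t) :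
    RX (fun z => F z + G z) t :=
  h.map2 h' (fun a b => a + b) (by fun_prop) (fun a b => by simp)

theorem RX.sub {F G : ℂ → ℂ} {t : ℝ} (h : RX F t) (h' : RX G t) :
    RX (fun z => F z - G z) t :=
  h.map2 h' (fun a b => a - b) (by fun_prop) (fun a b => by simp)

theorem RX.mul {F G : ℂ → ℂ} {t : ℝ} (h : RX F t) (h' : RX G t) :
    RX (fun z => F z * G z) t :=
  h.map2 h' (fun a b => a * b) (by fun_prop) (fun a b => by simp)

/-- a function which is analytic near `t` and real -/
theorem RX.of_analytic {F : ℂ → ℂ} {t : ℝ} {r : ℝ} (hr : 0 < r)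
    (h : DifferentiableOn ℂ F (ball (t : ℂ) r))
    (hc : ∀ z ∈ ball (t : ℂ) r, F (conj z) = conj (F z)) : RX F t :=
  ⟨r, hr, F, h, fun _ _ _ => rfl, hc⟩

theorem RX.const (t : ℝ) {c : ℂ} (hc : conj c = c) : RX (fun _ => c) t :=
  RX.of_analytic one_pos (by fun_prop) (fun _ _ => hc.symm)

theorem RX.deriv {F : ℂ → ℂ} {t : ℝ} (h : RX F t) : RX (deriv F) t := by
  obtain ⟨r, hr, E, h1, h2, h3⟩ := h
  refine ⟨r, hr, _root_.deriv E, h1.deriv isOpen_ball, ?_, ?_⟩
  · intro z hz hz'
    apply Filter.EventuallyEq.deriv_eq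
    filter_upwards [isOpen_ball.mem_nhds hz, isOpen_UH.mem_nhds hz'] with w hw hw'
    exact h2 w hw hw'
  · intro z hz
    have hE : DifferentiableAt ℂ E z := h1.differentiableAt (isOpen_ball.mem_nhds hz)
    have h4 : (fun w => conj (E (conj w))) =ᶠ[𝓝 (conj z)] E := by
      filter_upwards [isOpen_ball.mem_nhds (conj_mem_ball hz)] with w hw
      rw [h3 w hw, Complex.conj_conj]
    rw [← h4.deriv_eq]
    have h5 := hE.hasDerivAt.conj_conj
    exact h5.deriv

/-- the extension of `F` by reflection -/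
def ext (F : ℂ → ℂ) (z : ℂ) : ℂ :=
  if 0 < z.im then F z else if z.im < 0 then conj (F (conj z)) else
    limUnder (𝓝[UH] z) F

theorem mem_closure_UH {t : ℂ} (ht : t.im = 0) : t ∈ closure UH := by
  rw [mem_closure_iff_nhds]
  intro U hU
  obtain ⟨ε, hε, hb⟩ := Metric.mem_nhds_iff.1 hU
  refine ⟨t + (ε / 2 : ℝ) * I, hb ?_, ?_⟩
  · rw [mem_ball, dist_eq_norm, add_sub_cancel_left, norm_mul, Complex.norm_I, mul_one,
      Complex.norm_real, Real.norm_of_nonneg (by positivity)]
    linarith
  · change 0 < (t + (ε / 2 : ℝ) * I).im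
    simp only [add_im, mul_im, ofReal_re, I_im, mul_one, ofReal_im, I_re, mul_zero, add_zero, ht]
    positivity

theorem ext_eq_of_RX {F : ℂ → ℂ} {t : ℝ} {r : ℝ} {E : ℂ → ℂ}
    (h1 : DifferentiableOn ℂ E (ball (t : ℂ) r))
    (h2 : ∀ z ∈ ball (t : ℂ) r, 0 < z.im → E z = F z)
    (h3 : ∀ z ∈ ball (t : ℂ) r, E (conj z) = conj (E z)) {z : ℂ} (hz : z ∈ ball (t : ℂ) r) :
    ext F z = E z := by
  unfold ext
  split_ifs with h4 h5
  · exact (h2 z hz h4).symm
  · have hz' : conj z ∈ ball (t : ℂ) r := conj_mem_ball hz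
    have h6 : 0 < (conj z).im := by simpa using h5
    rw [← h2 _ hz' h6, ← h3 _ hz', Complex.conj_conj]
  · have him : z.im = 0 := le_antisymm (not_lt.1 h4) (not_lt.1 h5)
    have hne : (𝓝[UH] z).NeBot := mem_closure_iff_nhdsWithin_neBot.1 (mem_closure_UH him)
    have hcont : Tendsto E (𝓝[UH] z) (𝓝 (E z)) :=
      ((h1.differentiableAt (isOpen_ball.mem_nhds hz)).continuousAt.tendsto).mono_left
        nhdsWithin_le_nhds
    have h7 : Tendsto F (𝓝[UH] z) (𝓝 (E z)) := by
      refine hcont.congr' ?_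
      have hb : ball (t : ℂ) r ∈ 𝓝[UH] z := nhdsWithin_le_nhds (isOpen_ball.mem_nhds hz)
      filter_upwards [hb, self_mem_nhdsWithin] with w hw hw'
      exact h2 w hw hw'
    exact h7.limUnder_eq

theorem ext_conj {F : ℂ → ℂ} {z : ℂ} (hz : z.im ≠ 0) : ext F (conj z) = conj (ext F z) := by
  unfold ext
  rcases lt_or_gt_of_ne hz with h | h
  · have h1 : ¬ (0 < z.im) := not_lt.2 h.le
    have h2 : 0 < (conj z).im := by simpa using h
    rw [if_pos h2, if_neg h1, if_pos h, Complex.conj_conj]
  · have h1 : ¬ (0 < (conj z).im) := by simpa using h.le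
    have h2 : (conj z).im < 0 := by simpa using h
    rw [if_neg h1, if_pos h2, if_pos h, Complex.conj_conj]

/-- removable singularities at a finite set -/
theorem removable {D : Set ℂ} (hD : IsOpen D) (S : Finset ℂ) (E : ℂ → ℂ)
    (hE : DifferentiableOn ℂ E (D \ S))
    (hs : ∀ s ∈ S, s ∈ D → Tendsto (fun z => (z - s) * E z) (𝓝[≠] s) (𝓝 0)) :
    ∃ E' : ℂ → ℂ, DifferentiableOn ℂ E' D ∧ ∀ z ∈ D, z ∉ S → E' z = E z := by
  classical
  induction S using Finset.induction_on generalizing E with
  | empty => exact ⟨E, by simpa using hE, fun _ _ _ => rfl⟩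
  | insert s S hsS ih =>
    by_cases hsD : s ∈ D
    · -- remove the singularity at `s`
      set E1 : ℂ → ℂ := Function.update E s (limUnder (𝓝[≠] s) E) with hE1
      have hU : D \ (S : Set ℂ) ∈ 𝓝 s :=
        (hD.sdiff S.finite_toSet.isClosed).mem_nhds ⟨hsD, by simpa using hsS⟩
      have hd : DifferentiableOn ℂ E ((D \ (S : Set ℂ)) \ {s}) := by
        refine hE.mono ?_
        rintro z ⟨⟨z1, z2⟩, z3⟩
        refine ⟨z1, ?_⟩
        simp only [Finset.coe_insert, mem_insert_iff, not_or]
        exact ⟨z3, z2⟩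
      have hlim := hs s (Finset.mem_insert_self s S) hsD
      have ho : (fun z => E z - E s) =o[𝓝[≠] s] fun z => (z - s)⁻¹ := by
        rw [Asymptotics.isLittleO_iff_tendsto' (by
          filter_upwards [self_mem_nhdsWithin] with z hz h0
          exact absurd (inv_eq_zero.1 h0) (sub_ne_zero.2 hz))]
        have h1 : Tendsto (fun z => (z - s) * E z - (z - s) * E s) (𝓝[≠] s) (𝓝 (0 - 0)) := by
          refine hlim.sub ?_
          have : Tendsto (fun z : ℂ => (z - s) * E s) (𝓝 s) (𝓝 ((s - s) * E s)) :=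
            (by fun_prop : Continuous fun z : ℂ => (z - s) * E s).tendsto s
          rw [sub_self, zero_mul] at this
          exact this.mono_left nhdsWithin_le_nhds
        rw [sub_zero] at h1
        refine h1.congr ?_
        intro z
        rw [div_inv_eq_mul]; ring
      have hE1d : DifferentiableOn ℂ E1 (D \ (S : Set ℂ)) :=
        differentiableOn_update_limUnder_of_isLittleO hU hd ho
      obtain ⟨E', h1, h2⟩ := ih E1 hE1d (by
        intro s' hs' hs'D
        have hne : s' ≠ s := fun h => hsS (h ▸ hs')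
        have := hs s' (Finset.mem_insert_of_mem hs') hs'D
        refine this.congr' ?_
        have h3 : ∀ᶠ z in 𝓝[≠] s', z ≠ s := nhdsWithin_le_nhds (isOpen_ne.mem_nhds hne)
        filter_upwards [h3] with z hz
        rw [hE1, Function.update_of_ne hz])
      refine ⟨E', h1, fun z hz hzS => ?_⟩
      rw [Finset.mem_insert, not_or] at hzS
      rw [h2 z hz hzS.2, hE1, Function.update_of_ne hzS.1]
    · obtain ⟨E', h1, h2⟩ := ih E (by
        refine hE.mono ?_
        rintro z ⟨z1, z2⟩
        refine ⟨z1, ?_⟩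
        simp only [Finset.coe_insert, mem_insert_iff, not_or]
        exact ⟨fun h => hsD (h ▸ z1), z2⟩) (fun s' hs' h' => hs s' (Finset.mem_insert_of_mem hs') h')
      refine ⟨E', h1, fun z hz hzS => ?_⟩
      rw [Finset.mem_insert, not_or] at hzS
      exact h2 z hz hzS.2

/-- **The extension.** -/
theorem extend {D : Set ℂ} (hD : IsOpen D) (hsym : ∀ z ∈ D, conj z ∈ D) (S : Finset ℝ)
    {F : ℂ → ℂ} (hd : ∀ z ∈ D, 0 < z.im → DifferentiableAt ℂ F z)
    (hR : ∀ t : ℝ, (t : ℂ) ∈ D → t ∉ S → RX F t)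
    (hs : ∀ s ∈ S, (s : ℂ) ∈ D → Tendsto (fun z => (z - s) * F z) (𝓝[UH] (s : ℂ)) (𝓝 0)) :
    ∃ E : ℂ → ℂ, DifferentiableOn ℂ E D ∧ (∀ z ∈ D, 0 < z.im → E z = F z) ∧
      (∀ z ∈ D, E (conj z) = conj (E z)) := by
  classical
  set S' : Finset ℂ := S.image (fun t : ℝ => (t : ℂ)) with hS'
  have hmem : ∀ t : ℝ, (t : ℂ) ∈ S' ↔ t ∈ S := by
    intro t
    rw [hS', Finset.mem_image]
    constructor
    · rintro ⟨u, hu, hh⟩
      rwa [← Complex.ofReal_injective hh]
    · exact fun h => ⟨t, h, rfl⟩
  have hreal : ∀ z : ℂ, z.im = 0 → z = ((z.re : ℝ) : ℂ) := fun z hz => by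
    apply Complex.ext <;> simp [hz]
  have hS'im : ∀ z ∈ S', z.im = 0 := by
    intro z hz
    rw [hS', Finset.mem_image] at hz
    obtain ⟨t, -, rfl⟩ := hz
    simp
  -- differentiable off `S'`
  have hdiff : DifferentiableOn ℂ (ext F) (D \ S') := by
    rintro z ⟨hz, hzS⟩
    apply DifferentiableAt.differentiableWithinAt
    rcases lt_trichotomy z.im 0 with him | him | him
    · have h1 : ext F =ᶠ[𝓝 z] fun w => conj (F (conj w)) := by
        filter_upwards [(isOpen_lt Complex.continuous_im continuous_const).mem_nhds him]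
          with w hw
        unfold ext
        rw [if_neg (not_lt.2 (le_of_lt hw)), if_pos hw]
      have h2 : DifferentiableAt ℂ F (conj z) := hd _ (hsym z hz) (by simpa using him)
      have h3 := h2.conj_conj
      rw [Complex.conj_conj] at h3
      exact h3.congr_of_eventuallyEq h1
    · have hz' := hreal z him
      have hzD : ((z.re : ℝ) : ℂ) ∈ D := hz' ▸ hz
      have hzS' : z.re ∉ S := by
        rw [← hmem, ← hz']
        exact hzS
      obtain ⟨r, hr, E, h1, h2, h3⟩ := hR z.re hzD hzS'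
      have hball : z ∈ ball ((z.re : ℝ) : ℂ) r := by
        rw [← hz']
        exact mem_ball_self hr
      have h4 : ext F =ᶠ[𝓝 z] E := by
        filter_upwards [isOpen_ball.mem_nhds hball] with w hw
        exact ext_eq_of_RX h1 h2 h3 hw
      exact (h1.differentiableAt (isOpen_ball.mem_nhds hball)).congr_of_eventuallyEq h4
    · have h1 : ext F =ᶠ[𝓝 z] F := by
        filter_upwards [isOpen_UH.mem_nhds him] with w hw
        have hw' : 0 < w.im := hw
        unfold ext
        rw [if_pos hw']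
      exact (hd z hz him).congr_of_eventuallyEq h1
  -- symmetry off `S'`
  have hconj : ∀ z ∈ D, z ∉ S' → ext F (conj z) = conj (ext F z) := by
    intro z hz hzS
    by_cases him : z.im = 0
    · have hz' := hreal z him
      have hzD : ((z.re : ℝ) : ℂ) ∈ D := hz' ▸ hz
      have hzS' : z.re ∉ S := by
        rw [← hmem, ← hz']
        exact hzS
      obtain ⟨r, hr, E, h1, h2, h3⟩ := hR z.re hzD hzS'
      have hball : z ∈ ball ((z.re : ℝ) : ℂ) r := by
        rw [← hz']
        exact mem_ball_self hr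
      rw [ext_eq_of_RX h1 h2 h3 hball, ext_eq_of_RX h1 h2 h3 (conj_mem_ball hball), h3 z hball]
    · exact ext_conj him
  -- the singularities
  have hsing : ∀ s ∈ S', s ∈ D → Tendsto (fun z => (z - s) * ext F z) (𝓝[≠] s) (𝓝 0) := by
    intro s hs' hsD
    rw [hS', Finset.mem_image] at hs'
    obtain ⟨t, ht, rfl⟩ := hs'
    have hlim := hs t ht hsD
    rw [Metric.tendsto_nhdsWithin_nhds] at hlim
    rw [Metric.tendsto_nhdsWithin_nhds]
    intro ε hε
    obtain ⟨δ, hδ, hb⟩ := hlim (ε / 2) (by positivity)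
    -- a punctured ball without other points of `S'`, inside `D`
    have hopen : IsOpen (D \ (S'.erase (t : ℂ) : Set ℂ)) :=
      hD.sdiff (Finset.finite_toSet _).isClosed
    obtain ⟨δ', hδ', hb'⟩ := Metric.isOpen_iff.1 hopen (t : ℂ) ⟨hsD, by simp⟩
    refine ⟨min δ δ', lt_min hδ hδ', ?_⟩
    intro z hzt hzd
    have hzt : z ≠ (t : ℂ) := hzt
    have hzδ : dist z (t : ℂ) < δ := hzd.trans_le (min_le_left _ _)
    have hzδ' : z ∈ ball (t : ℂ) δ' := hzd.trans_le (min_le_right _ _)
    have hzD : z ∈ D ∧ z ∉ S' := by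
      obtain ⟨a1, a2⟩ := hb' hzδ'
      refine ⟨a1, fun hz => a2 ?_⟩
      rw [Finset.mem_coe, Finset.mem_erase]
      exact ⟨hzt, hz⟩
    have key : ∀ w : ℂ, 0 < w.im → dist w (t : ℂ) < δ → ‖(w - t) * F w‖ < ε / 2 := by
      intro w hw hwd
      have := hb hw hwd
      rwa [dist_zero_right] at this
    rw [dist_zero_right]
    rcases lt_trichotomy z.im 0 with him | him | him
    · have h1 : 0 < (conj z).im := by simpa using him
      have h2 : dist (conj z) (t : ℂ) < δ := by
        have := conj_mem_ball (t := t) (r := δ) (z := z) hzδ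
        exact this
      have h3 := key _ h1 h2
      unfold ext
      rw [if_neg (not_lt.2 him.le), if_pos him]
      have h4 : (z - t) * conj (F (conj z)) = conj ((conj z - t) * F (conj z)) := by
        simp
      rw [h4, RCLike.norm_conj]
      linarith
    · -- on the line: by continuity
      have hcz : ContinuousAt (fun w => (w - t) * ext F w) z := by
        have : DifferentiableAt ℂ (ext F) z := hdiff.differentiableAt
          ((hD.sdiff S'.finite_toSet.isClosed).mem_nhds ⟨hzD.1, hzD.2⟩)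
        exact (continuousAt_id.sub continuousAt_const).mul this.continuousAt
      have hne : (𝓝[UH] z).NeBot := mem_closure_iff_nhdsWithin_neBot.1 (mem_closure_UH him)
      have h5 : Tendsto (fun w => ‖(w - t) * ext F w‖) (𝓝[UH] z)
          (𝓝 ‖(z - t) * ext F z‖) := (hcz.tendsto.mono_left nhdsWithin_le_nhds).norm
      have h6 : ∀ᶠ w in 𝓝[UH] z, ‖(w - t) * ext F w‖ ≤ ε / 2 := by
        have h7 : ball (t : ℂ) δ ∈ 𝓝[UH] z :=
          nhdsWithin_le_nhds (isOpen_ball.mem_nhds hzδ)
        filter_upwards [h7, self_mem_nhdsWithin] with w hw hw'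
        have hw'' : 0 < w.im := hw'
        have := key w hw'' hw
        unfold ext
        rw [if_pos hw'']
        exact this.le
      have := le_of_tendsto h5 h6
      linarith
    · have := key z him hzδ
      unfold ext
      rw [if_pos him]
      linarith
  obtain ⟨E, h1, h2⟩ := removable hD S' (ext F) hdiff hsing
  refine ⟨E, h1, ?_, ?_⟩
  · intro z hz him
    have hzS : z ∉ S' := fun h => him.ne' (hS'im z h)
    rw [h2 z hz hzS]
    unfold ext
    rw [if_pos him]
  · -- symmetry: by density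
    intro z hz
    by_cases hzS : z ∈ S'
    · have him := hS'im z hzS
      have hcz : conj z = z := Complex.conj_eq_iff_im.2 him
      rw [hcz]
      -- `E` at `z` is a limit of real values
      have hne : (𝓝[UH] z).NeBot := mem_closure_iff_nhdsWithin_neBot.1 (mem_closure_UH him)
      have hEz : ContinuousAt E z := (h1.differentiableAt (hD.mem_nhds hz)).continuousAt
      have h5 : Tendsto E (𝓝[UH] z) (𝓝 (E z)) := hEz.tendsto.mono_left nhdsWithin_le_nhds
      have h6 : Tendsto (fun w => conj (E (conj w))) (𝓝[UH] z) (𝓝 (conj (E z))) := by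
        have hcc : ContinuousAt (fun w : ℂ => conj (E (conj w))) z := by
          apply Complex.continuous_conj.continuousAt.comp
          apply ContinuousAt.comp (g := E)
          · rw [hcz]; exact hEz
          · exact Complex.continuous_conj.continuousAt
        have := hcc.tendsto.mono_left (nhdsWithin_le_nhds (s := UH))
        rwa [hcz] at this
      have h7 : Tendsto (fun w => conj (E (conj w))) (𝓝[UH] z) (𝓝 (E z)) := by
        refine h5.congr' ?_
        filter_upwards [nhdsWithin_le_nhds (hD.mem_nhds hz), self_mem_nhdsWithin] with w hw hw'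
        have hw'' : 0 < w.im := hw'
        have hwS : w ∉ S' := fun h => hw''.ne' (hS'im w h)
        have hcwS : conj w ∉ S' := fun h => by
          have := hS'im _ h
          simp at this
          exact hw''.ne' this
        rw [h2 w hw hwS, h2 (conj w) (hsym w hw) hcwS, hconj w hw hwS, Complex.conj_conj]
      exact tendsto_nhds_unique h7 h6
    · have hcS : conj z ∉ S' := by
        intro h
        apply hzS
        have him := hS'im _ h
        have : z.im = 0 := by simpa using him
        rwa [Complex.conj_eq_iff_im.2 this] at h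
      rw [h2 z hz hzS, h2 (conj z) (hsym z hz) hcS, hconj z hz hzS]

/-- **Liouville.** A function which is real on the line up to finitely many removable points and
bounded at infinity is a real constant. -/
theorem const_of_RX (S : Finset ℝ) {F : ℂ → ℂ} (hd : ∀ z, 0 < z.im → DifferentiableAt ℂ F z)
    (hR : ∀ t : ℝ, t ∉ S → RX F t)
    (hs : ∀ s ∈ S, Tendsto (fun z => (z - s) * F z) (𝓝[UH] (s : ℂ)) (𝓝 0))
    {R M : ℝ} (hb : ∀ z, 0 < z.im → R ≤ ‖z‖ → ‖F z‖ ≤ M) :
    ∃ c : ℝ, ∀ z, 0 < z.im → F z = c := by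
  obtain ⟨E, h1, h2, h3⟩ := extend isOpen_univ (fun _ _ => mem_univ _) S
    (fun z _ hz => hd z hz) (fun t _ ht => hR t ht) (fun s hs' _ => hs s hs')
  have hE : Differentiable ℂ E := differentiableOn_univ.1 h1
  have hEb : ∀ z : ℂ, z.im ≠ 0 → R ≤ ‖z‖ → ‖E z‖ ≤ M := by
    intro z hz hzR
    rcases lt_or_gt_of_ne hz with h | h
    · have h4 : 0 < (conj z).im := by simpa using h
      have h5 : ‖E (conj z)‖ ≤ M := by
        rw [h2 _ (mem_univ _) h4]
        exact hb _ h4 (by rwa [RCLike.norm_conj])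
      rwa [h3 z (mem_univ _), RCLike.norm_conj] at h5
    · rw [h2 _ (mem_univ _) h]
      exact hb _ h hzR
  have hEb' : ∀ z : ℂ, R < ‖z‖ → ‖E z‖ ≤ M := by
    intro z hzR
    by_cases hz : z.im = 0
    · have hne : (𝓝[UH] z).NeBot := mem_closure_iff_nhdsWithin_neBot.1 (mem_closure_UH hz)
      have h5 : Tendsto (fun w => ‖E w‖) (𝓝[UH] z) (𝓝 ‖E z‖) :=
        (hE.continuous.continuousAt.tendsto.mono_left nhdsWithin_le_nhds).norm
      have h6 : ∀ᶠ w in 𝓝[UH] z, ‖E w‖ ≤ M := by
        have h7 : {w : ℂ | R < ‖w‖} ∈ 𝓝[UH] z :=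
          nhdsWithin_le_nhds ((isOpen_lt continuous_const continuous_norm).mem_nhds hzR)
        filter_upwards [h7, self_mem_nhdsWithin] with w hw hw'
        have hw'' : 0 < w.im := hw'
        exact hEb w hw''.ne' (le_of_lt hw)
      exact le_of_tendsto h5 h6
    · exact hEb z hz hzR.le
  have hbdd : Bornology.IsBounded (range E) := by
    obtain ⟨C, hC⟩ := (isCompact_closedBall (0 : ℂ) R).exists_bound_of_continuousOn
      hE.continuous.continuousOn
    rw [isBounded_iff_forall_norm_le]
    refine ⟨max C M, ?_⟩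
    rintro _ ⟨z, rfl⟩
    by_cases hz : ‖z‖ ≤ R
    · exact (hC z (by simpa using hz)).trans (le_max_left _ _)
    · exact (hEb' z (not_le.1 hz)).trans (le_max_right _ _)
  have hconst : ∀ z, E z = E 0 := fun z => hE.apply_eq_apply_of_bounded hbdd z 0
  have hreal : conj (E 0) = E 0 := by
    have := h3 0 (mem_univ _)
    rw [map_zero] at this
    exact this.symm
  refine ⟨(E 0).re, fun z hz => ?_⟩
  rw [← h2 z (mem_univ _) hz, hconst z]
  exact (Complex.conj_eq_iff_re.1 hreal).symm

end Pool.Agent.H13.Q1.Four
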