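import Pool.Agent.H80.Sweep.Ret
import Pool.Agent.Q1.M6a.WClosed
import Pool.Agent.Q1.Plane

set_option autoImplicit false
set_option linter.unusedSimpArgs false
open Finset

/-! # Leaves: a dangling edge is not seen away from its end

`leafO`: `v` is a vertex, `e` an edge at `v`; if no other edge at `v` is open, then the increments across
the corners which are not at `v` do not depend on the state of `e`. `leafC`: the same for a face `f` and
an edge `e` of `f`, if all other edges of `f` are open. -/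

namespace Pool.Agent.H13.Q1

open Pool.Agent.Q1 Pool.Agent.H75.Perc Pool.Agent.H75.TwoArm Pool.Agent.H80.Sweep
open Pool.Agent.H75.TwoArm.StrandAux (fi_nxO)

/-! ### Corners -/

theorem L00 {a b : ℤ} (ha : a % 2 = 0) (hb : b % 2 = 0) :
    lab (a, b) = (a, b - 1) ∧ nxC (a, b) = (a + 1, b) ∧ nxO (a, b) = (a, b - 1) := by
  simp [lab, nxC, nxO, ha, hb]

theorem L10 {a b : ℤ} (ha : a % 2 = 1) (hb : b % 2 = 0) :
    lab (a, b) = (a, b) ∧ nxC (a, b) = (a, b + 1) ∧ nxO (a, b) = (a + 1, b) := by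
  simp [lab, nxC, nxO, ha, hb]

theorem L11 {a b : ℤ} (ha : a % 2 = 1) (hb : b % 2 = 1) :
    lab (a, b) = (a - 1, b) ∧ nxC (a, b) = (a - 1, b) ∧ nxO (a, b) = (a, b + 1) := by
  simp [lab, nxC, nxO, ha, hb]

theorem L01 {a b : ℤ} (ha : a % 2 = 0) (hb : b % 2 = 1) :
    lab (a, b) = (a - 1, b - 1) ∧ nxC (a, b) = (a, b - 1) ∧ nxO (a, b) = (a - 1, b) := by
  simp [lab, nxC, nxO, ha, hb]

/-- around the other end of an open edge -/
theorem rnd_open (x : ℤ × ℤ) : lab (nxO x) ≠ lab x ∧ lab (nxC (nxO x)) ≠ lab x ∧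
    lab (nxC (nxC (nxO x))) ≠ lab x ∧ lab (nxC (nxC (nxC (nxO x)))) = lab x ∧
    nxO (nxC (nxC (nxC (nxO x)))) = nxC x := by
  obtain ⟨a, b⟩ := x
  have ha : a % 2 = 0 ∨ a % 2 = 1 := by omega
  have hb : b % 2 = 0 ∨ b % 2 = 1 := by omega
  rcases ha with ha | ha <;> rcases hb with hb | hb
  · obtain ⟨l0, c0, o0⟩ := L00 ha hb
    obtain ⟨l1, c1, o1⟩ := L01 (a := a) (b := b - 1) ha (by omega)
    obtain ⟨l2, c2, o2⟩ := L00 (a := a) (b := b - 1 - 1) ha (by omega)
    obtain ⟨l3, c3, o3⟩ := L10 (a := a + 1) (b := b - 1 - 1) (by omega) (by omega)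
    obtain ⟨l4, c4, o4⟩ := L11 (a := a + 1) (b := b - 1 - 1 + 1) (by omega) (by omega)
    rw [o0, c1, c2, c3, o4, l0, l1, l2, l3, l4, c0]
    refine ⟨?_, ?_, ?_, ?_, ?_⟩
    all_goals simp only [ne_eq, Prod.mk.injEq, true_and, and_true]
    all_goals omega
  · obtain ⟨l0, c0, o0⟩ := L01 ha hb
    obtain ⟨l1, c1, o1⟩ := L11 (a := a - 1) (b := b) (by omega) hb
    obtain ⟨l2, c2, o2⟩ := L01 (a := a - 1 - 1) (b := b) (by omega) hb
    obtain ⟨l3, c3, o3⟩ := L00 (a := a - 1 - 1) (b := b - 1) (by omega) (by omega)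
    obtain ⟨l4, c4, o4⟩ := L10 (a := a - 1 - 1 + 1) (b := b - 1) (by omega) (by omega)
    rw [o0, c1, c2, c3, o4, l0, l1, l2, l3, l4, c0]
    refine ⟨?_, ?_, ?_, ?_, ?_⟩
    all_goals simp only [ne_eq, Prod.mk.injEq, true_and, and_true]
    all_goals omega
  · obtain ⟨l0, c0, o0⟩ := L10 ha hb
    obtain ⟨l1, c1, o1⟩ := L00 (a := a + 1) (b := b) (by omega) hb
    obtain ⟨l2, c2, o2⟩ := L10 (a := a + 1 + 1) (b := b) (by omega) hb
    obtain ⟨l3, c3, o3⟩ := L11 (a := a + 1 + 1) (b := b + 1) (by omega) (by omega)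
    obtain ⟨l4, c4, o4⟩ := L01 (a := a + 1 + 1 - 1) (b := b + 1) (by omega) (by omega)
    rw [o0, c1, c2, c3, o4, l0, l1, l2, l3, l4, c0]
    refine ⟨?_, ?_, ?_, ?_, ?_⟩
    all_goals simp only [ne_eq, Prod.mk.injEq, true_and, and_true]
    all_goals omega
  · obtain ⟨l0, c0, o0⟩ := L11 ha hb
    obtain ⟨l1, c1, o1⟩ := L10 (a := a) (b := b + 1) ha (by omega)
    obtain ⟨l2, c2, o2⟩ := L11 (a := a) (b := b + 1 + 1) ha (by omega)
    obtain ⟨l3, c3, o3⟩ := L01 (a := a - 1) (b := b + 1 + 1) (by omega) (by omega)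
    obtain ⟨l4, c4, o4⟩ := L00 (a := a - 1) (b := b + 1 + 1 - 1) (by omega) (by omega)
    rw [o0, c1, c2, c3, o4, l0, l1, l2, l3, l4, c0]
    refine ⟨?_, ?_, ?_, ?_, ?_⟩
    all_goals simp only [ne_eq, Prod.mk.injEq, true_and, and_true]
    all_goals omega

/-- around the other face of a closed edge -/
theorem rnd_closed (x : ℤ × ℤ) : lab (nxC x) ≠ lab x ∧ lab (nxO (nxC x)) ≠ lab x ∧
    lab (nxO (nxO (nxC x))) ≠ lab x ∧ lab (nxO (nxO (nxO (nxC x)))) = lab x ∧
    nxC (nxO (nxO (nxO (nxC x)))) = nxO x := by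
  obtain ⟨a, b⟩ := x
  have ha : a % 2 = 0 ∨ a % 2 = 1 := by omega
  have hb : b % 2 = 0 ∨ b % 2 = 1 := by omega
  rcases ha with ha | ha <;> rcases hb with hb | hb
  · obtain ⟨l0, c0, o0⟩ := L00 ha hb
    obtain ⟨l1, c1, o1⟩ := L10 (a := a + 1) (b := b) (by omega) hb
    obtain ⟨l2, c2, o2⟩ := L00 (a := a + 1 + 1) (b := b) (by omega) hb
    obtain ⟨l3, c3, o3⟩ := L01 (a := a + 1 + 1) (b := b - 1) (by omega) (by omega)
    obtain ⟨l4, c4, o4⟩ := L11 (a := a + 1 + 1 - 1) (b := b - 1) (by omega) (by omega)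
    rw [c0, o1, o2, o3, c4, l0, l1, l2, l3, l4, o0]
    refine ⟨?_, ?_, ?_, ?_, ?_⟩
    all_goals simp only [ne_eq, Prod.mk.injEq, true_and, and_true]
    all_goals omega
  · obtain ⟨l0, c0, o0⟩ := L01 ha hb
    obtain ⟨l1, c1, o1⟩ := L00 (a := a) (b := b - 1) ha (by omega)
    obtain ⟨l2, c2, o2⟩ := L01 (a := a) (b := b - 1 - 1) ha (by omega)
    obtain ⟨l3, c3, o3⟩ := L11 (a := a - 1) (b := b - 1 - 1) (by omega) (by omega)
    obtain ⟨l4, c4, o4⟩ := L10 (a := a - 1) (b := b - 1 - 1 + 1) (by omega) (by omega)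
    rw [c0, o1, o2, o3, c4, l0, l1, l2, l3, l4, o0]
    refine ⟨?_, ?_, ?_, ?_, ?_⟩
    all_goals simp only [ne_eq, Prod.mk.injEq, true_and, and_true]
    all_goals omega
  · obtain ⟨l0, c0, o0⟩ := L10 ha hb
    obtain ⟨l1, c1, o1⟩ := L11 (a := a) (b := b + 1) ha (by omega)
    obtain ⟨l2, c2, o2⟩ := L10 (a := a) (b := b + 1 + 1) ha (by omega)
    obtain ⟨l3, c3, o3⟩ := L00 (a := a + 1) (b := b + 1 + 1) (by omega) (by omega)
    obtain ⟨l4, c4, o4⟩ := L01 (a := a + 1) (b := b + 1 + 1 - 1) (by omega) (by omega)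
    rw [c0, o1, o2, o3, c4, l0, l1, l2, l3, l4, o0]
    refine ⟨?_, ?_, ?_, ?_, ?_⟩
    all_goals simp only [ne_eq, Prod.mk.injEq, true_and, and_true]
    all_goals omega
  · obtain ⟨l0, c0, o0⟩ := L11 ha hb
    obtain ⟨l1, c1, o1⟩ := L01 (a := a - 1) (b := b) (by omega) hb
    obtain ⟨l2, c2, o2⟩ := L11 (a := a - 1 - 1) (b := b) (by omega) hb
    obtain ⟨l3, c3, o3⟩ := L10 (a := a - 1 - 1) (b := b + 1) (by omega) (by omega)
    obtain ⟨l4, c4, o4⟩ := L00 (a := a - 1 - 1 + 1) (b := b + 1) (by omega) (by omega)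
    rw [c0, o1, o2, o3, c4, l0, l1, l2, l3, l4, o0]
    refine ⟨?_, ?_, ?_, ?_, ?_⟩
    all_goals simp only [ne_eq, Prod.mk.injEq, true_and, and_true]
    all_goals omega

theorem nxO_ne_nxC (x : ℤ × ℤ) : nxO x ≠ nxC x := by
  obtain ⟨a, b⟩ := x
  have ha : a % 2 = 0 ∨ a % 2 = 1 := by omega
  have hb : b % 2 = 0 ∨ b % 2 = 1 := by omega
  rcases ha with ha | ha <;> rcases hb with hb | hb
  · rw [(L00 ha hb).2.1, (L00 ha hb).2.2]; simp only [ne_eq, Prod.mk.injEq]; omega
  · rw [(L01 ha hb).2.1, (L01 ha hb).2.2]; simp only [ne_eq, Prod.mk.injEq]; omega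
  · rw [(L10 ha hb).2.1, (L10 ha hb).2.2]; simp only [ne_eq, Prod.mk.injEq]; omega
  · rw [(L11 ha hb).2.1, (L11 ha hb).2.2]; simp only [ne_eq, Prod.mk.injEq]; omega

theorem oth {x c o : ℤ × ℤ} (h : lab c = lab x) (hne : c ≠ x) (ho : lab o = lab x)
    (hox : o ≠ x) : c = o := by
  have hodd := lab_odd x
  rcases (lab_eq_iff (lab x) c hodd).1 h with h1 | h1 <;>
    rcases (lab_eq_iff (lab x) o hodd).1 ho with h2 | h2 <;>
    rcases (lab_eq_iff (lab x) x hodd).1 rfl with h3 | h3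
  · rw [h1, h2]
  · rw [h1, h2]
  · exact absurd (h1.trans h3.symm) hne
  · exact absurd (h2.trans h3.symm) hox
  · exact absurd (h2.trans h3.symm) hox
  · exact absurd (h1.trans h3.symm) hne
  · rw [h1, h2]
  · rw [h1, h2]

/-- the other corner with the same label -/
theorem oth_open {x c : ℤ × ℤ} (h : lab c = lab x) (hne : c ≠ x) :
    c = nxC (nxC (nxC (nxO x))) := by
  obtain ⟨-, -, -, r4, r5⟩ := rnd_open x
  refine oth h hne r4 fun h' => ?_
  rw [h'] at r5
  exact nxO_ne_nxC x r5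

theorem oth_closed {x c : ℤ × ℤ} (h : lab c = lab x) (hne : c ≠ x) :
    c = nxO (nxO (nxO (nxC x))) := by
  obtain ⟨-, -, -, r4, r5⟩ := rnd_closed x
  refine oth h hne r4 fun h' => ?_
  rw [h'] at r5
  exact nxO_ne_nxC x r5.symm

/-! ### First returns -/

/-- a dangling edge at a vertex -/
theorem ret_leafO {H : Finset (ℤ × ℤ)} {v e c1 : ℤ × ℤ} (hc1 : vx c1 = v) (he : lab c1 = e)
    (hv : ∀ c, vx c = v → lab c ∈ H → lab c = e) {x : ℤ × ℤ} (hx : vx x ≠ v) :
    Ret (nx H) (del H) (fun c => vx c ≠ v) x (nx (H.erase e) x) (del (H.erase e) x) := by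
  obtain ⟨r1, r2, r3, r4, r5⟩ := rnd_open x
  by_cases hl : lab x ∈ H
  · by_cases hle : lab x = e
    · -- the edge itself
      have hxc : c1 ≠ x := fun h => hx (by rw [← h]; exact hc1)
      have ho := oth_open (x := x) (c := c1) (he.trans hle.symm) hxc
      have hvy : vx (nxO x) = v := by
        rw [← vx_nxC (nxO x), ← vx_nxC (nxC (nxO x)), ← vx_nxC (nxC (nxC (nxO x))), ← ho]
        exact hc1
      have k1 : vx (nxC (nxO x)) = v := by rw [vx_nxC]; exact hvy
      have k2 : vx (nxC (nxC (nxO x))) = v := by rw [vx_nxC]; exact k1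
      have k3 : vx (nxC (nxC (nxC (nxO x)))) = v := by rw [vx_nxC]; exact k2
      have n1 : lab (nxO x) ∉ H := fun h => r1 ((hv _ hvy h).trans hle.symm)
      have n2 : lab (nxC (nxO x)) ∉ H := fun h => r2 ((hv _ k1 h).trans hle.symm)
      have n3 : lab (nxC (nxC (nxO x))) ∉ H := fun h => r3 ((hv _ k2 h).trans hle.symm)
      have n4 : lab (nxC (nxC (nxC (nxO x)))) ∈ H := by rw [r4]; exact hl
      have e1 : nx (H.erase e) x = nxC x := by
        unfold nx; rw [if_neg]; rw [hle]; exact notMem_erase _ _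
      have e2 : del (H.erase e) x = -1 + (1 + (1 + (1 + -1))) := by
        unfold del; rw [if_neg]
        · norm_num
        · rw [hle]; exact notMem_erase _ _
      rw [e1, e2]
      refine Ret.step (z := nxO x) (by unfold nx; rw [if_pos hl]) (fun h => h hvy)
        (by unfold del; rw [if_pos hl]) ?_
      refine Ret.step (z := nxC (nxO x)) (by unfold nx; rw [if_neg n1]) (fun h => h k1)
        (by unfold del; rw [if_neg n1]) ?_
      refine Ret.step (z := nxC (nxC (nxO x))) (by unfold nx; rw [if_neg n2]) (fun h => h k2)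
        (by unfold del; rw [if_neg n2]) ?_
      refine Ret.step (z := nxC (nxC (nxC (nxO x)))) (by unfold nx; rw [if_neg n3])
        (fun h => h k3) (by unfold del; rw [if_neg n3]) ?_
      refine Ret.last (by unfold nx; rw [if_pos n4]; exact r5) ?_
        (by unfold del; rw [if_pos n4])
      rw [vx_nxC]; exact hx
    · have e1 : nx (H.erase e) x = nxO x := by
        unfold nx; rw [if_pos (mem_erase.2 ⟨hle, hl⟩)]
      have e2 : del (H.erase e) x = -1 := by
        unfold del; rw [if_pos (mem_erase.2 ⟨hle, hl⟩)]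
      rw [e1, e2]
      refine Ret.last (by unfold nx; rw [if_pos hl]) ?_ (by unfold del; rw [if_pos hl])
      intro hvy
      apply hle
      rw [← r4]
      apply hv
      · rw [vx_nxC, vx_nxC, vx_nxC]; exact hvy
      · rw [r4]; exact hl
  · have hl' : lab x ∉ H.erase e := fun h => hl (mem_of_mem_erase h)
    have e1 : nx (H.erase e) x = nxC x := by unfold nx; rw [if_neg hl']
    have e2 : del (H.erase e) x = 1 := by unfold del; rw [if_neg hl']
    rw [e1, e2]
    refine Ret.last (by unfold nx; rw [if_neg hl]) ?_ (by unfold del; rw [if_neg hl])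
    rw [vx_nxC]; exact hx

/-- a dangling dual edge at a face -/
theorem ret_leafC {H : Finset (ℤ × ℤ)} {f e c1 : ℤ × ℤ} (hc1 : fi c1 = f) (he : lab c1 = e)
    (hv : ∀ c, fi c = f → lab c ∉ H → lab c = e) {x : ℤ × ℤ} (hx : fi x ≠ f) :
    Ret (nx H) (del H) (fun c => fi c ≠ f) x (nx (insert e H) x) (del (insert e H) x) := by
  obtain ⟨r1, r2, r3, r4, r5⟩ := rnd_closed x
  by_cases hl : lab x ∈ H
  · have hl' : lab x ∈ insert e H := mem_insert_of_mem hl
    have e1 : nx (insert e H) x = nxO x := by unfold nx; rw [if_pos hl']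
    have e2 : del (insert e H) x = -1 := by unfold del; rw [if_pos hl']
    rw [e1, e2]
    refine Ret.last (by unfold nx; rw [if_pos hl]) ?_ (by unfold del; rw [if_pos hl])
    rw [fi_nxO]; exact hx
  · by_cases hle : lab x = e
    · have hxc : c1 ≠ x := fun h => hx (by rw [← h]; exact hc1)
      have ho := oth_closed (x := x) (c := c1) (he.trans hle.symm) hxc
      have hvy : fi (nxC x) = f := by
        rw [← fi_nxO (nxC x), ← fi_nxO (nxO (nxC x)), ← fi_nxO (nxO (nxO (nxC x))), ← ho]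
        exact hc1
      have k1 : fi (nxO (nxC x)) = f := by rw [fi_nxO]; exact hvy
      have k2 : fi (nxO (nxO (nxC x))) = f := by rw [fi_nxO]; exact k1
      have k3 : fi (nxO (nxO (nxO (nxC x)))) = f := by rw [fi_nxO]; exact k2
      have n1 : lab (nxC x) ∈ H := by
        by_contra h; exact r1 ((hv _ hvy h).trans hle.symm)
      have n2 : lab (nxO (nxC x)) ∈ H := by
        by_contra h; exact r2 ((hv _ k1 h).trans hle.symm)
      have n3 : lab (nxO (nxO (nxC x))) ∈ H := by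
        by_contra h; exact r3 ((hv _ k2 h).trans hle.symm)
      have n4 : lab (nxO (nxO (nxO (nxC x)))) ∉ H := by rw [r4]; exact hl
      have hl' : lab x ∈ insert e H := by rw [hle]; exact mem_insert_self _ _
      have e1 : nx (insert e H) x = nxO x := by unfold nx; rw [if_pos hl']
      have e2 : del (insert e H) x = 1 + (-1 + (-1 + (-1 + 1))) := by
        unfold del; rw [if_pos hl']; norm_num
      rw [e1, e2]
      refine Ret.step (z := nxC x) (by unfold nx; rw [if_neg hl]) (fun h => h hvy)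
        (by unfold del; rw [if_neg hl]) ?_
      refine Ret.step (z := nxO (nxC x)) (by unfold nx; rw [if_pos n1]) (fun h => h k1)
        (by unfold del; rw [if_pos n1]) ?_
      refine Ret.step (z := nxO (nxO (nxC x))) (by unfold nx; rw [if_pos n2]) (fun h => h k2)
        (by unfold del; rw [if_pos n2]) ?_
      refine Ret.step (z := nxO (nxO (nxO (nxC x)))) (by unfold nx; rw [if_pos n3])
        (fun h => h k3) (by unfold del; rw [if_pos n3]) ?_
      refine Ret.last (by unfold nx; rw [if_neg n4]; exact r5) ?_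
        (by unfold del; rw [if_neg n4])
      rw [fi_nxO]; exact hx
    · have hl' : lab x ∉ insert e H := by
        rw [mem_insert, not_or]; exact ⟨hle, hl⟩
      have e1 : nx (insert e H) x = nxC x := by unfold nx; rw [if_neg hl']
      have e2 : del (insert e H) x = 1 := by unfold del; rw [if_neg hl']
      rw [e1, e2]
      refine Ret.last (by unfold nx; rw [if_neg hl]) ?_ (by unfold del; rw [if_neg hl])
      intro hvy
      apply hle
      rw [← r4]
      apply hv
      · rw [fi_nxO, fi_nxO, fi_nxO]; exact hvy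
      · rw [r4]; exact hl

/-! ### Increments -/

/-- the increment in the configuration `H` -/
noncomputable def iG (c0 : ℤ × ℤ) (k0 : ℤ) (c : ℤ × ℤ) (H : Finset (ℤ × ℤ)) : ℂ :=
  incG (nx H) (del H) c0 k0 c

/-- **A dangling edge is not seen.** -/
theorem iG_leafO {H : Finset (ℤ × ℤ)} {v e c1 : ℤ × ℤ} (hc1 : vx c1 = v) (he : lab c1 = e)
    (hv : ∀ c, vx c = v → lab c ∈ H → lab c = e) {c0 c : ℤ × ℤ} (h0 : vx c0 ≠ v)
    (hc : vx c ≠ v) (k0 : ℤ) : iG c0 k0 c (H.erase e) = iG c0 k0 c H := by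
  unfold iG
  refine incG_congr (R := fun c => vx c ≠ v) h0 (fun x hx => ?_) hc
  refine ⟨_, _, ?_, ret_leafO hc1 he hv hx⟩
  have h1 := ret_leafO (H := H.erase e) hc1 he
    (fun c hc hl => hv c hc (mem_of_mem_erase hl)) hx
  rwa [erase_idem] at h1

/-- **A dangling dual edge is not seen.** -/
theorem iG_leafC {H : Finset (ℤ × ℤ)} {f e c1 : ℤ × ℤ} (hc1 : fi c1 = f) (he : lab c1 = e)
    (hv : ∀ c, fi c = f → lab c ∉ H → lab c = e) {c0 c : ℤ × ℤ} (h0 : fi c0 ≠ f)
    (hc : fi c ≠ f) (k0 : ℤ) : iG c0 k0 c (insert e H) = iG c0 k0 c H := by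
  unfold iG
  refine incG_congr (R := fun c => fi c ≠ f) h0 (fun x hx => ?_) hc
  refine ⟨_, _, ?_, ret_leafC hc1 he hv hx⟩
  have h1 := ret_leafC (H := insert e H) hc1 he
    (fun c hc hl => hv c hc (fun h => hl (mem_insert_of_mem h))) hx
  rwa [insert_idem] at h1

end Pool.Agent.H13.Q1
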