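import Pool.Agent.H64.Q1.LExchange
import Pool.Agent.H64.Q1.Sweep
import Pool.Agent.H64.Q1.Net
import Pool.Agent.H64.Q1.Gauge

/-!
# A line around a network

`S` is a functional on the functions of pairings (the state of a network), `F` is the front of the
network: the list of its ends, from left to right, `(c, a)` with `a` the weight of the exchange when a
line crosses `c`. `u`, `v` are the ends of a track. `P0 e u v F S` says: for `S` the line which
starts as the track from `u` to `v` with label `e` and crosses the whole front is the track of label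
`-e` which crosses nothing, up to a full turn at `v`.

`P0` holds for the empty network, and it is kept by the rules of growth of a network: a new arc
(`P0.cup`), a crossing of two neighbours (`P0.tile`), the join of two neighbours (`P0.cap`), the
passage of the first end of the front to its other side (`P0.rot`), a renaming of the ends
(`P0.ren`), a change of the functional which is not seen by the front (`P0.mod`). `P0.split` is the
statement for all positions of the track.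
-/

namespace Pool.Agent.H13.Q1

open Pool.Agent.H64.Q1 Pool.Agent.H64.Q1.LP

variable {D : Type*} [DecidableEq D]

noncomputable section

/-! ### Identities of operators -/

section Ops

variable {K : Type*} [CommRing K]

theorem jn_relab (x y : D) (h : x ≠ y) (τ κ τ' κ' : ℤ) (f : LP D) :
    jn x y τ' κ' (jn x y τ κ f) = jn x y τ κ' f := by
  have i1 := f.invol x
  have i2 := f.invol y
  apply LP.ext
  · intro t
    rw [jn_apply x y τ' κ' _ h, jn_apply x y τ κ' _ h, jn_left _ _ _ _ _ h,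
      jn_right _ _ _ _ _ h, jn_apply x y τ κ f h t]
    grind
  · intro t
    rw [jn_d x y τ' κ' _ h, jn_d x y τ κ' _ h, jn_left _ _ _ _ _ h,
      jn_right _ _ _ _ _ h, jn_d x y τ κ f h t]
    grind

theorem pb_relab (x y : D) (h : x ≠ y) (τ κ τ' κ' : ℤ) :
    (pb (jn x y τ κ) : Module.End K (LP D → K)) * pb (jn x y τ' κ') = pb (jn x y τ κ') := by
  rw [pb_mul]
  exact pb_congr fun f => jn_relab x y h τ κ τ' κ' f

/-- A line which crosses the two ends of an arc at the top. -/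
theorem cap_op (e t : ℤ) (v x y : D) (h1 : v ≠ x) (h2 : v ≠ y) (h3 : x ≠ y) (p q p' q' : K)
    (hq : p * q' = 1) (h0 : p * p' + q * p' + q * q' = 0) :
    Rop e v x p q * Rop e v y p' q' * pb (jn x y e t) = pb (jn x y e t) := by
  have k : Rop e v x p q * Rop e v y p' q' * pb (jn x y e e) =
      (pb (jn x y e e) : Module.End K (LP D → K)) := by
    have r1 : (pb (sw v x) : Module.End K (LP D → K)) * pb (jn v y e e) * pb (jn x y e e) =
        pb (jn x y e e) := by
      rw [pb_mul3]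
      exact pb_congr fun f => rB1 e v x y f h1 h2 h3
    have r2 : (pb (sw v x) : Module.End K (LP D → K)) * pb (sw v y) * pb (jn x y e e) =
        pb (fun f => sw v x (jn v y e e (sw x y f))) := by
      rw [pb_mul3]
      exact pb_congr fun f => rX2 e v x y f h1 h2 h3
    have r3 : (pb (jn v x e e) : Module.End K (LP D → K)) * pb (sw v y) * pb (jn x y e e) =
        pb (fun f => sw v x (jn v y e e (sw x y f))) := by
      rw [pb_mul3]
      exact pb_congr fun f => rX3 e v x y f h1 h2 h3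
    have r4 : (pb (jn v x e e) : Module.End K (LP D → K)) * pb (jn v y e e) *
        pb (jn x y e e) = pb (fun f => sw v x (jn v y e e (sw x y f))) := by
      rw [pb_mul3]
      exact pb_congr fun f => rX4 e v x y f h1 h2 h3
    unfold Rop
    simp only [mul_add, add_mul, smul_mul_assoc, mul_smul_comm, r1, r2, r3, r4]
    generalize (pb (fun f => sw v x (jn v y e e (sw x y f))) : Module.End K (LP D → K)) = W
    generalize (pb (jn x y e e) : Module.End K (LP D → K)) = X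
    linear_combination (norm := module) congrArg (fun t : K => t • X) hq +
      congrArg (fun t : K => t • W) h0
  have e1 := pb_relab (K := K) x y h3 e e 0 t
  rw [← e1, ← mul_assoc, k]

/-- A line which crosses the two ends of an arc at the bottom. -/
theorem cup_op (e t : ℤ) (v x y : D) (h1 : v ≠ x) (h2 : v ≠ y) (h3 : x ≠ y) (p q p' q' : K)
    (hq : q * p' = 1) (h0 : p * p' + p * q' + q * q' = 0) :
    pb (jn x y t (-e)) * (Rop e v x p q * Rop e v y p' q') = pb (jn x y t (-e)) := by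
  have k : pb (jn y x e e) * Rop e v x p q * Rop e v y p' q' =
      (pb (jn y x e e) : Module.End K (LP D → K)) := by
    have r1 : (pb (jn y x e e) : Module.End K (LP D → K)) * pb (jn v x e e) * pb (sw v y) =
        pb (jn y x e e) := by
      rw [pb_mul3]
      exact pb_congr fun f => rB2 e v y x f h2 h1 h3.symm
    have r2 : (pb (jn y x e e) : Module.End K (LP D → K)) * pb (sw v x) * pb (sw v y) =
        pb (fun f => sw y x (jn v x e e (sw v y f))) := by
      rw [pb_mul3]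
      exact pb_congr fun f => rY2 e v y x f h2 h1 h3.symm
    have r3 : (pb (jn y x e e) : Module.End K (LP D → K)) * pb (sw v x) * pb (jn v y e e) =
        pb (fun f => sw y x (jn v x e e (sw v y f))) := by
      rw [pb_mul3]
      exact pb_congr fun f => rY3 e v y x f h2 h1 h3.symm
    have r4 : (pb (jn y x e e) : Module.End K (LP D → K)) * pb (jn v x e e) *
        pb (jn v y e e) = pb (fun f => sw y x (jn v x e e (sw v y f))) := by
      rw [pb_mul3]
      exact pb_congr fun f => rY4 e v y x f h2 h1 h3.symm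
    unfold Rop
    simp only [mul_add, add_mul, smul_mul_assoc, mul_smul_comm, r1, r2, r3, r4]
    generalize (pb (fun f => sw y x (jn v x e e (sw v y f))) : Module.End K (LP D → K)) = W
    generalize (pb (jn y x e e) : Module.End K (LP D → K)) = X
    linear_combination (norm := module) congrArg (fun t : K => t • X) hq +
      congrArg (fun t : K => t • W) h0
  have e1 := pb_relab (K := K) x y h3 t (-e) (-e) (-e)
  have e2 : (pb (jn x y (-e) (-e)) : Module.End K (LP D → K)) = pb (jn y x e e) :=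
    pb_congr fun f => by rw [jn_comm x y _ _ f h3, neg_neg]
  rw [← e1, e2, mul_assoc, ← mul_assoc (pb (jn y x e e)), k]

/-- A line which crosses the track at both of its sides. -/
theorem bend_op (e τ : ℤ) (x y z : D) (h1 : x ≠ y) (h2 : x ≠ z) (h3 : y ≠ z) (p q p' q' : K)
    (hq : q * p' = 1) (h0 : p * p' + p * q' + q * q' = 0) :
    pb (jn x y τ e) * (Rop e x z p q * Rop e y z p' q') = pb (jn x y τ e) := by
  have k : pb (jn x y e e) * Rop e x z p q * Rop e y z p' q' =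
      (pb (jn x y e e) : Module.End K (LP D → K)) := by
    have r1 : (pb (jn x y e e) : Module.End K (LP D → K)) * pb (jn x z e e) * pb (sw y z) =
        pb (jn x y e e) := by
      rw [pb_mul3]
      exact pb_congr fun f => rA1 e x y z f h1 h2 h3
    have r2 : (pb (jn x y e e) : Module.End K (LP D → K)) * pb (sw x z) * pb (sw y z) =
        pb (fun f => sw x y (jn x z e e (sw y z f))) := by
      rw [pb_mul3]
      exact pb_congr fun f => rX1 e x y z f h1 h2 h3
    have r3 : (pb (jn x y e e) : Module.End K (LP D → K)) * pb (sw x z) * pb (jn y z e e) =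
        pb (fun f => sw x y (jn x z e e (sw y z f))) := by
      rw [pb_mul3]
      exact pb_congr fun f => rX3 e x y z f h1 h2 h3
    have r4 : (pb (jn x y e e) : Module.End K (LP D → K)) * pb (jn x z e e) *
        pb (jn y z e e) = pb (fun f => sw x y (jn x z e e (sw y z f))) := by
      rw [pb_mul3]
      exact pb_congr fun f => rX4 e x y z f h1 h2 h3
    unfold Rop
    simp only [mul_add, add_mul, smul_mul_assoc, mul_smul_comm, r1, r2, r3, r4]
    generalize (pb (fun f => sw x y (jn x z e e (sw y z f))) : Module.End K (LP D → K)) = W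
    generalize (pb (jn x y e e) : Module.End K (LP D → K)) = X
    linear_combination (norm := module) congrArg (fun t : K => t • X) hq +
      congrArg (fun t : K => t • W) h0
  have e1 := pb_relab (K := K) x y h1 τ e e e
  rw [← e1, mul_assoc, ← mul_assoc (pb (jn x y e e)), k]

/-- change of the zero at one end -/
def g1 (c : D) (k : ℤ) : D → ℤ := fun x => if x = c then k else 0

theorem pb_gau_comm (φ ψ : D → ℤ) :
    (pb (gau φ) : Module.End K (LP D → K)) * pb (gau ψ) = pb (gau ψ) * pb (gau φ) := by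
  rw [pb_mul, pb_mul]
  refine pb_congr fun f => ?_
  apply LP.ext
  · intro t; rfl
  · intro t
    change f.d t + φ t - φ (f t) + ψ t - ψ (f t) = f.d t + ψ t - ψ (f t) + φ t - φ (f t)
    ring

theorem pb_gau_add (φ ψ : D → ℤ) :
    (pb (gau φ) : Module.End K (LP D → K)) * pb (gau ψ) = pb (gau (fun x => φ x + ψ x)) := by
  rw [pb_mul]
  refine pb_congr fun f => ?_
  apply LP.ext
  · intro t; rfl
  · intro t
    change f.d t + φ t - φ (f t) + ψ t - ψ (f t) = f.d t + (φ t + ψ t) - (φ (f t) + ψ (f t))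
    ring

theorem gau_sw (φ : D → ℤ) (x y : D) (h : φ x = φ y) (f : LP D) :
    gau φ (sw x y f) = sw x y (gau φ f) := by
  have key : ∀ t, φ (Equiv.swap x y t) = φ t := by
    intro t
    rw [Equiv.swap_apply_def]
    split_ifs with h1 h2
    · rw [h1, h]
    · rw [h2, h]
    · rfl
  apply LP.ext
  · intro t; rfl
  · intro t
    unfold sw
    rw [gau_d, ren_d, ren_d, gau_d, ren_apply, Equiv.symm_swap, key, key]

/-- a change of zero which is the same at both ends commutes with the crossing -/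
theorem Rop_gau (φ : D → ℤ) (e : ℤ) (x y : D) (h : φ x = φ y) (p q : K) :
    Rop e x y p q * pb (gau φ) = pb (gau φ) * Rop e x y p q := by
  have e1 : (pb (sw x y) : Module.End K (LP D → K)) * pb (gau φ) =
      pb (gau φ) * pb (sw x y) := by
    rw [pb_mul, pb_mul]
    exact pb_congr fun f => gau_sw φ x y h f
  have e2 : (pb (jn x y e e) : Module.End K (LP D → K)) * pb (gau φ) =
      pb (gau φ) * pb (jn x y e e) := by
    rw [pb_mul, pb_mul]
    refine pb_congr fun f => ?_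
    have := gau_jn φ x y e e f
    rw [h, add_sub_cancel_right] at this
    exact this
  unfold Rop
  simp only [mul_add, add_mul, smul_mul_assoc, mul_smul_comm, e1, e2]

theorem jn_gau (φ : D → ℤ) (τ κ : ℤ) (x y : D) (h : φ x = φ y) :
    (pb (jn x y τ κ) : Module.End K (LP D → K)) * pb (gau φ) =
      pb (gau φ) * pb (jn x y τ κ) := by
  rw [pb_mul, pb_mul]
  refine pb_congr fun f => ?_
  have := gau_jn φ x y τ κ f
  rw [h, add_sub_cancel_right, add_sub_cancel_right] at this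
  exact this

theorem pb_jn_comm (x y z w : D) (τ κ τ' κ' : ℤ) (h1 : x ≠ y) (h2 : x ≠ z) (h3 : x ≠ w)
    (h4 : y ≠ z) (h5 : y ≠ w) (h6 : z ≠ w) :
    (pb (jn x y τ κ) : Module.End K (LP D → K)) * pb (jn z w τ' κ') =
      pb (jn z w τ' κ') * pb (jn x y τ κ) := by
  rw [pb_mul, pb_mul]
  exact pb_congr fun f => (jn_jn x y z w _ _ _ _ f h1 h2 h3 h4 h5 h6).symm

end Ops

/-! ### Functions which depend on the arcs of a set -/

/-- the functions which depend only on the arcs in `A` -/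
def Dep (A : Set D) (Φ : LP D → ℂ) : Prop := ∀ g g', Eqv A g g' → Φ g = Φ g'

theorem Dep.jn {A : Set D} {Φ : LP D → ℂ} (h : Dep A Φ) {x y : D} (hx : x ∈ A) (hy : y ∈ A)
    (τ κ : ℤ) : Dep A (pb (LP.jn x y τ κ) Φ) := fun _ _ hg => h _ _ (hg.jn hx hy τ κ)

theorem Dep.Rop {A : Set D} {Φ : LP D → ℂ} (h : Dep A Φ) {x y : D} (hx : x ∈ A) (hy : y ∈ A)
    (e : ℤ) (p q : ℂ) : Dep A (Pool.Agent.H64.Q1.Rop e x y p q Φ) := by
  intro g g' hg
  change p * Φ (sw x y g) + q * Φ (LP.jn x y e e g) =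
    p * Φ (sw x y g') + q * Φ (LP.jn x y e e g')
  rw [h _ _ (hg.sw hx hy), h _ _ (hg.jn hx hy e e)]

theorem Dep.gau {A : Set D} {Φ : LP D → ℂ} (h : Dep A Φ) (φ : D → ℤ) :
    Dep A (pb (LP.gau φ) Φ) := fun _ _ hg => h _ _ (hg.gau φ)

omit [DecidableEq D] in
theorem Dep.congr {A B : Set D} {Φ : LP D → ℂ} (h : Dep A Φ) (hAB : A = B) : Dep B Φ := hAB ▸ h

theorem Dep.cap {A B : Set D} {Φ : LP D → ℂ} (h : Dep B Φ) {x y : D} (hx : x ∈ A) (hy : y ∈ A)
    (hxy : x ≠ y) (hB : ∀ t, t ∈ B ↔ t ∈ A ∧ t ≠ x ∧ t ≠ y) (τ κ : ℤ) :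
    Dep A (pb (LP.jn x y τ κ) Φ) := by
  intro g g' hg
  apply h
  have h1 := hg.jn hx hy τ κ
  refine h1.mono (fun t ht => ((hB t).1 ht).1) ?_
  intro t ht
  obtain ⟨t1, t2, t3⟩ := (hB t).1 ht
  refine (hB _).2 ⟨h1.1 t t1, ?_, ?_⟩
  · intro hh
    apply t3
    rw [eq_iff, jn_left _ _ _ _ _ hxy] at hh
    exact hh
  · intro hh
    apply t2
    rw [eq_iff, jn_right _ _ _ _ _ hxy] at hh
    exact hh

theorem Dep.cup {A B : Set D} {Φ : LP D → ℂ} (h : Dep B Φ) {x y : D} (hx : x ∉ A) (hy : y ∉ A)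
    (hxy : x ≠ y) (hB : ∀ t, t ∈ B ↔ t ∈ A ∨ t = x ∨ t = y) (τ κ : ℤ) :
    Dep A (pb (LP.jn x y τ κ) Φ) := by
  intro g g' hg
  apply h
  have key : ∀ k : LP D, Stable A k → ∀ t ∈ A, LP.jn x y τ κ k t = k t ∧
      (LP.jn x y τ κ k).d t = k.d t := by
    intro k hk t ht
    have a1 : t ≠ x := fun e => hx (e ▸ ht)
    have a2 : t ≠ y := fun e => hy (e ▸ ht)
    have a3 : t ≠ k x := fun e => hx (by
      have := hk t ht
      rw [e, k.invol] at this
      exact this)
    have a4 : t ≠ k y := fun e => hy (by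
      have := hk t ht
      rw [e, k.invol] at this
      exact this)
    rw [jn_apply _ _ _ _ _ hxy, jn_d _ _ _ _ _ hxy, if_neg a1, if_neg a2, if_neg a3, if_neg a4,
      if_neg a1, if_neg a2, if_neg a3, if_neg a4]
    exact ⟨rfl, rfl⟩
  refine ⟨?_, ?_⟩
  · intro t ht
    rcases (hB t).1 ht with ht | rfl | rfl
    · rw [(key g hg.1 t ht).1]
      exact (hB _).2 (Or.inl (hg.1 t ht))
    · rw [jn_left _ _ _ _ _ hxy]
      exact (hB _).2 (Or.inr (Or.inr rfl))
    · rw [jn_right _ _ _ _ _ hxy]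
      exact (hB _).2 (Or.inr (Or.inl rfl))
  · intro t ht
    rcases (hB t).1 ht with ht | rfl | rfl
    · rw [(key g hg.1 t ht).1, (key g hg.1 t ht).2, (key g' hg.stable t ht).1,
        (key g' hg.stable t ht).2]
      exact hg.2 t ht
    · rw [jn_left _ _ _ _ _ hxy, jn_left _ _ _ _ _ hxy, jn_d_left _ _ _ _ _ hxy,
        jn_d_left _ _ _ _ _ hxy]
      exact ⟨rfl, rfl⟩
    · rw [jn_right _ _ _ _ _ hxy, jn_right _ _ _ _ _ hxy, jn_d_right _ _ _ _ _ hxy,
        jn_d_right _ _ _ _ _ hxy]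
      exact ⟨rfl, rfl⟩

/-! ### The front -/

/-- the ends of the front -/
def nm (F : List (D × ℂ)) : List D := F.map Prod.fst

omit [DecidableEq D] in
theorem mem_nm {F : List (D × ℂ)} {c : D × ℂ} (h : c ∈ F) : c.1 ∈ nm F :=
  List.mem_map_of_mem h

omit [DecidableEq D] in
@[simp] theorem nm_append (F G : List (D × ℂ)) : nm (F ++ G) = nm F ++ nm G := List.map_append ..

omit [DecidableEq D] in
@[simp] theorem nm_cons (c : D × ℂ) (F : List (D × ℂ)) : nm (c :: F) = c.1 :: nm F := rfl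

omit [DecidableEq D] in
@[simp] theorem nm_nil : nm ([] : List (D × ℂ)) = [] := rfl

/-- the ends which are alive: the track and the front -/
def Alv (u v : D) (F : List (D × ℂ)) : Set D := {x | x = u ∨ x = v ∨ x ∈ nm F}

/-- the line `u` crosses the front -/
def Lu (e : ℤ) (u : D) (F : List (D × ℂ)) : Module.End ℂ (LP D → ℂ) :=
  (F.map fun c => Rop e u c.1 c.2 (1 - c.2)).prod

/-- the line `v` crosses the front in the other direction -/
def Lv (e : ℤ) (v : D) (F : List (D × ℂ)) : Module.End ℂ (LP D → ℂ) :=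
  (F.map fun c => Rop e v c.1 (1 - c.2⁻¹) c.2⁻¹).prod

@[simp] theorem Lu_nil (e : ℤ) (u : D) : Lu e u [] = 1 := rfl

@[simp] theorem Lv_nil (e : ℤ) (u : D) : Lv e u [] = 1 := rfl

theorem Lu_cons (e : ℤ) (u : D) (c : D × ℂ) (F : List (D × ℂ)) :
    Lu e u (c :: F) = Rop e u c.1 c.2 (1 - c.2) * Lu e u F := rfl

theorem Lv_cons (e : ℤ) (v : D) (c : D × ℂ) (F : List (D × ℂ)) :
    Lv e v (c :: F) = Rop e v c.1 (1 - c.2⁻¹) c.2⁻¹ * Lv e v F := rfl

theorem Lu_append (e : ℤ) (u : D) (F G : List (D × ℂ)) :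
    Lu e u (F ++ G) = Lu e u F * Lu e u G := by
  unfold Lu
  rw [List.map_append, List.prod_append]

theorem Lv_append (e : ℤ) (u : D) (F G : List (D × ℂ)) :
    Lv e u (F ++ G) = Lv e u F * Lv e u G := by
  unfold Lv
  rw [List.map_append, List.prod_append]

theorem Lu_jn (e τ κ : ℤ) {u x y : D} {F : List (D × ℂ)} (h : x ≠ y) (hux : u ≠ x) (huy : u ≠ y)
    (hu : u ∉ nm F) (hx : x ∉ nm F) (hy : y ∉ nm F) :
    pb (jn x y τ κ) * Lu e u F = Lu e u F * pb (jn x y τ κ) := by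
  apply comm_prod
  intro z hz
  obtain ⟨c, hc, rfl⟩ := List.mem_map.1 hz
  have hc := mem_nm hc
  exact (Rop_comm_jn e τ κ u c.1 x y _ _ (fun h => hu (h ▸ hc)) hux huy
    (fun h => hx (h ▸ hc)) (fun h => hy (h ▸ hc)) h).symm

theorem Lu_Rop (e e' : ℤ) {u x y : D} {F : List (D × ℂ)} (h : x ≠ y) (hux : u ≠ x) (huy : u ≠ y)
    (hu : u ∉ nm F) (hx : x ∉ nm F) (hy : y ∉ nm F) (p q : ℂ) :
    Rop e' x y p q * Lu e u F = Lu e u F * Rop e' x y p q := by
  apply comm_prod
  intro z hz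
  obtain ⟨c, hc, rfl⟩ := List.mem_map.1 hz
  have hc := mem_nm hc
  exact (Rop_comm e e' u c.1 x y _ _ _ _ (fun h => hu (h ▸ hc)) hux huy
    (fun h => hx (h ▸ hc)) (fun h => hy (h ▸ hc)) h).symm

theorem Lv_Rop (e e' : ℤ) {u x y : D} {F : List (D × ℂ)} (h : x ≠ y) (hux : u ≠ x) (huy : u ≠ y)
    (hu : u ∉ nm F) (hx : x ∉ nm F) (hy : y ∉ nm F) (p q : ℂ) :
    Rop e' x y p q * Lv e u F = Lv e u F * Rop e' x y p q := by
  apply comm_prod
  intro z hz
  obtain ⟨c, hc, rfl⟩ := List.mem_map.1 hz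
  have hc := mem_nm hc
  exact (Rop_comm e e' u c.1 x y _ _ _ _ (fun h => hu (h ▸ hc)) hux huy
    (fun h => hx (h ▸ hc)) (fun h => hy (h ▸ hc)) h).symm

omit [DecidableEq D] in
theorem nm_ne {c x : D} {F : List (D × ℂ)} (hc : c ∉ nm F) (hx : x ∈ nm F) : x ≠ c :=
  fun h => hc (h ▸ hx)

theorem g1_ne {c x : D} {k : ℤ} (h : x ≠ c) : g1 c k x = 0 := if_neg h

theorem Lu_gau (e k : ℤ) {u c : D} {F : List (D × ℂ)} (hu : u ≠ c) (hc : c ∉ nm F) :
    pb (gau (g1 c k)) * Lu e u F = Lu e u F * pb (gau (g1 c k)) := by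
  apply comm_prod
  intro z hz
  obtain ⟨d, hd, rfl⟩ := List.mem_map.1 hz
  have hd := mem_nm hd
  exact (Rop_gau (g1 c k) e u d.1 (by rw [g1_ne hu, g1_ne (nm_ne hc hd)]) _ _).symm

/-- the front is correct -/
structure Frt (u v : D) (F : List (D × ℂ)) : Prop where
  uv : u ≠ v
  nd : (nm F).Nodup
  hu : u ∉ nm F
  hv : v ∉ nm F
  h0 : ∀ c ∈ F, c.2 ≠ 0

/-- the track crosses the front -/
def opA (e : ℤ) (u v : D) (F : List (D × ℂ)) : Module.End ℂ (LP D → ℂ) :=
  pb (jn u v e e) * Lu e u F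

/-- the track crosses nothing -/
def opB (e : ℤ) (u v : D) : Module.End ℂ (LP D → ℂ) :=
  pb (jn u v e (-e)) * pb (gau (g1 v (-(2 * e))))

/-- **The line around the network.** -/
structure P0 (e : ℤ) (u v : D) (F : List (D × ℂ)) (S : Module.Dual ℂ (LP D → ℂ)) : Prop where
  frt : Frt u v F
  eq : ∀ Φ, Dep (Alv u v F) Φ → S (opA e u v F Φ) = S (opB e u v Φ)

variable {e : ℤ} {u v : D}

theorem Dep.Lu {A : Set D} {Φ : LP D → ℂ} (h : Dep A Φ) {F : List (D × ℂ)} (e : ℤ) (hu : u ∈ A)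
    (hF : ∀ x ∈ nm F, x ∈ A) : Dep A (Pool.Agent.H13.Q1.Lu e u F Φ) := by
  induction F with
  | nil => exact h
  | cons c F ih =>
    exact (ih (fun d hd => hF d (List.mem_cons_of_mem _ hd))).Rop hu
      (hF c.1 List.mem_cons_self) _ _ _

theorem Dep.opA {Φ : LP D → ℂ} {F : List (D × ℂ)} (h : Dep (Alv u v F) Φ) (e : ℤ) :
    Dep (Alv u v F) (Pool.Agent.H13.Q1.opA e u v F Φ) :=
  (h.Lu e (Or.inl rfl) (fun _ hx => Or.inr (Or.inr hx))).jn (Or.inl rfl)
    (Or.inr (Or.inl rfl)) _ _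

theorem Dep.opB {Φ : LP D → ℂ} {F : List (D × ℂ)} (h : Dep (Alv u v F) Φ) (e : ℤ) :
    Dep (Alv u v F) (Pool.Agent.H13.Q1.opB e u v Φ) :=
  (h.gau _).jn (Or.inl rfl) (Or.inr (Or.inl rfl)) _ _

/-- The empty network. -/
theorem P0.nil (huv : u ≠ v) {S : Module.Dual ℂ (LP D → ℂ)} {g : LP D} (hg : g u = v)
    (hS : ∀ Φ, Dep {x | x = u ∨ x = v} Φ → S Φ = Φ g) : P0 e u v [] S := by
  refine ⟨⟨huv, List.nodup_nil, List.not_mem_nil, List.not_mem_nil, fun c hc => ?_⟩, ?_⟩
  · exact absurd hc List.not_mem_nil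
  · intro Φ hΦ
    have hA : Alv u v [] = {x | x = u ∨ x = v} := by
      ext x; simp [Alv]
    rw [hS _ ((hΦ.opA e).congr hA), hS _ ((hΦ.opB e).congr hA)]
    change Φ (jn u v e e g) = Φ (gau (g1 v (-(2 * e))) (jn u v e (-e) g))
    congr 1
    have hg' : g v = u := by rw [← hg, g.invol]
    apply LP.ext
    · intro t
      rw [gau_apply, jn_apply _ _ _ _ _ huv, jn_apply _ _ _ _ _ huv]
    · intro t
      rw [gau_d, jn_d _ _ _ _ _ huv, jn_d _ _ _ _ _ huv, jn_apply _ _ _ _ _ huv, hg, hg']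
      unfold g1
      have := g.invol t
      grind

/-- Functionals which agree on the functions of the alive arcs. -/
theorem P0.mod {F : List (D × ℂ)} {S S' : Module.Dual ℂ (LP D → ℂ)} (h : P0 e u v F S)
    (hS : ∀ Φ, Dep (Alv u v F) Φ → S' Φ = S Φ) : P0 e u v F S' := by
  refine ⟨h.frt, fun Φ hΦ => ?_⟩
  rw [hS _ (hΦ.opA e), hS _ (hΦ.opB e)]
  exact h.eq Φ hΦ

/-- the transport of `P0` by an operator `X` on the state -/
theorem P0.trans {F F' : List (D × ℂ)} {S : Module.Dual ℂ (LP D → ℂ)} (h : P0 e u v F S)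
    (hF' : Frt u v F') (X Y : Module.End ℂ (LP D → ℂ))
    (hX : X * opA e u v F' = opA e u v F * Y) (hY : X * opB e u v = opB e u v * Y)
    (hD : ∀ Φ, Dep (Alv u v F') Φ → Dep (Alv u v F) (Y Φ)) :
    P0 e u v F' (LinearMap.comp S X) := by
  refine ⟨hF', fun Φ hΦ => ?_⟩
  have h1 : X (opA e u v F' Φ) = opA e u v F (Y Φ) :=
    congrArg (fun Z : Module.End ℂ (LP D → ℂ) => Z Φ) hX
  have h2 : X (opB e u v Φ) = opB e u v (Y Φ) :=
    congrArg (fun Z : Module.End ℂ (LP D → ℂ) => Z Φ) hY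
  rw [LinearMap.comp_apply, LinearMap.comp_apply, h1, h2]
  exact h.eq _ (hD Φ hΦ)

theorem opB_comm {X : Module.End ℂ (LP D → ℂ)}
    (h1 : X * pb (jn u v e (-e)) = pb (jn u v e (-e)) * X)
    (h2 : X * pb (gau (g1 v (-(2 * e)))) = pb (gau (g1 v (-(2 * e)))) * X) :
    X * opB e u v = opB e u v * X := by
  unfold opB
  rw [← mul_assoc, h1, mul_assoc, h2, mul_assoc]

/-- all the conditions on a front with two marked neighbours -/
structure Fxy (u v x y : D) (F1 F2 : List (D × ℂ)) : Prop where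
  uv : u ≠ v
  xy : x ≠ y
  ux : u ≠ x
  uy : u ≠ y
  vx : v ≠ x
  vy : v ≠ y
  u1 : u ∉ nm F1
  u2 : u ∉ nm F2
  v1 : v ∉ nm F1
  v2 : v ∉ nm F2
  x1 : x ∉ nm F1
  x2 : x ∉ nm F2
  y1 : y ∉ nm F1
  y2 : y ∉ nm F2
  nd : (nm F1 ++ nm F2).Nodup

omit [DecidableEq D] in
theorem Frt.fxy {F1 F2 : List (D × ℂ)} {x y : D} {ax ay : ℂ}
    (h : Frt u v (F1 ++ (x, ax) :: (y, ay) :: F2)) :
    Fxy u v x y F1 F2 ∧ ax ≠ 0 ∧ ay ≠ 0 ∧ ∀ c ∈ F1 ++ F2, c.2 ≠ 0 := by
  obtain ⟨uv, nd, hu, hv, h0⟩ := h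
  simp only [nm_append, nm_cons, List.mem_append, List.mem_cons, not_or] at hu hv
  simp only [nm_append, nm_cons, List.nodup_append, List.nodup_cons, List.mem_cons,
    not_or] at nd
  obtain ⟨nd1, ⟨⟨nxy, nx2⟩, ny2, nd2⟩, nd3⟩ := nd
  obtain ⟨hu1, hux, huy, hu2⟩ := hu
  obtain ⟨hv1, hvx, hvy, hv2⟩ := hv
  have nx1 : x ∉ nm F1 := fun hh => nd3 x hh x (Or.inl rfl) rfl
  have ny1 : y ∉ nm F1 := fun hh => nd3 y hh y (Or.inr (Or.inl rfl)) rfl
  refine ⟨⟨uv, nxy, hux, huy, hvx, hvy, hu1, hu2, hv1, hv2, nx1, nx2, ny1, ny2, ?_⟩,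
    h0 (x, ax) (by simp), h0 (y, ay) (by simp), ?_⟩
  · rw [List.nodup_append]
    exact ⟨nd1, nd2, fun a ha b hb => nd3 a ha b (Or.inr (Or.inr hb))⟩
  · intro c hc
    apply h0
    rw [List.mem_append] at hc
    rw [List.mem_append, List.mem_cons, List.mem_cons]
    tauto

omit [DecidableEq D] in
theorem Fxy.frt {F1 F2 : List (D × ℂ)} {x y : D} (h : Fxy u v x y F1 F2) {ax ay : ℂ}
    (hx : ax ≠ 0) (hy : ay ≠ 0) (h0 : ∀ c ∈ F1 ++ F2, c.2 ≠ 0) :
    Frt u v (F1 ++ (x, ax) :: (y, ay) :: F2) := by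
  have nd := h.nd
  rw [List.nodup_append] at nd
  obtain ⟨nd1, nd2, nd3⟩ := nd
  refine ⟨h.uv, ?_, ?_, ?_, ?_⟩
  · simp only [nm_append, nm_cons, List.nodup_append, List.nodup_cons, List.mem_cons, not_or]
    refine ⟨nd1, ⟨⟨h.xy, h.x2⟩, h.y2, nd2⟩, ?_⟩
    rintro a ha b (rfl | rfl | hb)
    · exact fun hh => h.x1 (hh ▸ ha)
    · exact fun hh => h.y1 (hh ▸ ha)
    · exact nd3 a ha b hb
  · simp only [nm_append, nm_cons, List.mem_append, List.mem_cons, not_or]
    exact ⟨h.u1, h.ux, h.uy, h.u2⟩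
  · simp only [nm_append, nm_cons, List.mem_append, List.mem_cons, not_or]
    exact ⟨h.v1, h.vx, h.vy, h.v2⟩
  · intro c hc
    rw [List.mem_append, List.mem_cons, List.mem_cons] at hc
    rcases hc with hc | rfl | rfl | hc
    · exact h0 c (List.mem_append_left _ hc)
    · exact hx
    · exact hy
    · exact h0 c (List.mem_append_right _ hc)

omit [DecidableEq D] in
theorem Fxy.frt0 {F1 F2 : List (D × ℂ)} {x y : D} (h : Fxy u v x y F1 F2)
    (h0 : ∀ c ∈ F1 ++ F2, c.2 ≠ 0) : Frt u v (F1 ++ F2) := by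
  refine ⟨h.uv, ?_, ?_, ?_, h0⟩
  · rw [nm_append]; exact h.nd
  · rw [nm_append, List.mem_append]; exact fun hh => hh.elim h.u1 h.u2
  · rw [nm_append, List.mem_append]; exact fun hh => hh.elim h.v1 h.v2

theorem Fxy.jn1 {F1 F2 : List (D × ℂ)} {x y : D} (h : Fxy u v x y F1 F2) (e τ κ : ℤ) :
    (pb (jn x y τ κ) : Module.End ℂ (LP D → ℂ)) * Lu e u F1 = Lu e u F1 * pb (jn x y τ κ) :=
  Lu_jn e τ κ h.xy h.ux h.uy h.u1 h.x1 h.y1

theorem Fxy.jn2 {F1 F2 : List (D × ℂ)} {x y : D} (h : Fxy u v x y F1 F2) (e τ κ : ℤ) :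
    (pb (jn x y τ κ) : Module.End ℂ (LP D → ℂ)) * Lu e u F2 = Lu e u F2 * pb (jn x y τ κ) :=
  Lu_jn e τ κ h.xy h.ux h.uy h.u2 h.x2 h.y2

theorem Fxy.rop1 {F1 F2 : List (D × ℂ)} {x y : D} (h : Fxy u v x y F1 F2) (e e' : ℤ) (p q : ℂ) :
    Rop e' x y p q * Lu e u F1 = Lu e u F1 * Rop e' x y p q :=
  Lu_Rop e e' h.xy h.ux h.uy h.u1 h.x1 h.y1 p q

theorem Fxy.rop2 {F1 F2 : List (D × ℂ)} {x y : D} (h : Fxy u v x y F1 F2) (e e' : ℤ) (p q : ℂ) :
    Rop e' x y p q * Lu e u F2 = Lu e u F2 * Rop e' x y p q :=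
  Lu_Rop e e' h.xy h.ux h.uy h.u2 h.x2 h.y2 p q

theorem Fxy.jnuv {F1 F2 : List (D × ℂ)} {x y : D} (h : Fxy u v x y F1 F2) (τ κ τ' κ' : ℤ) :
    (pb (jn x y τ κ) : Module.End ℂ (LP D → ℂ)) * pb (jn u v τ' κ') =
      pb (jn u v τ' κ') * pb (jn x y τ κ) :=
  pb_jn_comm x y u v _ _ _ _ h.xy h.ux.symm h.vx.symm h.uy.symm h.vy.symm h.uv

theorem Fxy.ropuv {F1 F2 : List (D × ℂ)} {x y : D} (h : Fxy u v x y F1 F2) (e' : ℤ) (p q : ℂ)
    (τ' κ' : ℤ) : Rop e' x y p q * pb (jn u v τ' κ') =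
      (pb (jn u v τ' κ') : Module.End ℂ (LP D → ℂ)) * Rop e' x y p q :=
  Rop_comm_jn e' τ' κ' x y u v _ _ h.xy h.ux.symm h.vx.symm h.uy.symm h.vy.symm h.uv

omit [DecidableEq D] in
theorem Fxy.mem_alv {F1 F2 : List (D × ℂ)} {x y : D} (h : Fxy u v x y F1 F2) (ax ay : ℂ) :
    x ∈ Alv u v (F1 ++ (x, ax) :: (y, ay) :: F2) ∧ y ∈ Alv u v (F1 ++ (x, ax) :: (y, ay) :: F2) ∧
    x ∉ Alv u v (F1 ++ F2) ∧ y ∉ Alv u v (F1 ++ F2) ∧
    ∀ t, t ∈ Alv u v (F1 ++ (x, ax) :: (y, ay) :: F2) ↔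
      t ∈ Alv u v (F1 ++ F2) ∨ t = x ∨ t = y := by
  simp only [Alv, nm_append, nm_cons, Set.mem_ofPred_eq, List.mem_append, List.mem_cons]
  refine ⟨by simp, by simp, ?_, ?_, fun t => by tauto⟩
  · rintro (h1 | h1 | h1 | h1)
    · exact h.ux h1.symm
    · exact h.vx h1.symm
    · exact h.x1 h1
    · exact h.x2 h1
  · rintro (h1 | h1 | h1 | h1)
    · exact h.uy h1.symm
    · exact h.vy h1.symm
    · exact h.y1 h1
    · exact h.y2 h1

/-- **A join of two neighbours of the front.** -/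
theorem P0.cap {F1 F2 : List (D × ℂ)} {x y : D} {ax ay : ℂ} {S : Module.Dual ℂ (LP D → ℂ)}
    (h : P0 e u v (F1 ++ (x, ax) :: (y, ay) :: F2) S) (hxy : ax * (1 - ay) = 1) (t : ℤ) :
    P0 e u v (F1 ++ F2) (LinearMap.comp S (pb (jn x y e t))) := by
  obtain ⟨H, -, -, h0⟩ := h.frt.fxy
  obtain ⟨m1, m2, m3, m4, m5⟩ := H.mem_alv ax ay
  have hcap : Rop e u x ax (1 - ax) * Rop e u y ay (1 - ay) * pb (jn x y e t) =
      (pb (jn x y e t) : Module.End ℂ (LP D → ℂ)) :=
    cap_op e t u x y H.ux H.uy H.xy _ _ _ _ hxy (by linear_combination -hxy)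
  have c3 := fun κ => H.jnuv e t e κ
  refine h.trans (H.frt0 h0) (pb (jn x y e t)) (pb (jn x y e t)) ?_ ?_ ?_
  · unfold opA
    rw [Lu_append, Lu_append, Lu_cons, Lu_cons]
    calc (pb (jn x y e t) : Module.End ℂ (LP D → ℂ)) * (pb (jn u v e e) *
          (Lu e u F1 * Lu e u F2))
        = pb (jn u v e e) * (pb (jn x y e t) * Lu e u F1) * Lu e u F2 := by
          rw [← mul_assoc, c3]; simp only [mul_assoc]
      _ = pb (jn u v e e) * Lu e u F1 * (Rop e u x ax (1 - ax) * Rop e u y ay (1 - ay) *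
            pb (jn x y e t)) * Lu e u F2 := by
          rw [H.jn1, hcap]; simp only [mul_assoc]
      _ = pb (jn u v e e) * Lu e u F1 * (Rop e u x ax (1 - ax) * Rop e u y ay (1 - ay)) *
            (pb (jn x y e t) * Lu e u F2) := by
          simp only [mul_assoc]
      _ = _ := by rw [H.jn2]; simp only [mul_assoc]
  · apply opB_comm (c3 _)
    rw [← jn_gau _ _ _ _ _ (by rw [g1_ne H.vx.symm, g1_ne H.vy.symm])]
  · intro Φ hΦ
    refine hΦ.cap m1 m2 H.xy ?_ _ _
    intro s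
    rw [m5]
    constructor
    · intro hs
      exact ⟨Or.inl hs, fun hh => m3 (hh ▸ hs), fun hh => m4 (hh ▸ hs)⟩
    · rintro ⟨h1 | h1 | h1, h2, h3⟩
      · exact h1
      · exact absurd h1 h2
      · exact absurd h1 h3

/-- **A new arc at the front.** -/
theorem P0.cup {F1 F2 : List (D × ℂ)} {x y : D} {ax ay : ℂ} {S : Module.Dual ℂ (LP D → ℂ)}
    (h : P0 e u v (F1 ++ F2) S) (H : Fxy u v x y F1 F2) (hax : ax ≠ 0)
    (hxy : ay * (1 - ax) = 1) (t : ℤ) :
    P0 e u v (F1 ++ (x, ax) :: (y, ay) :: F2) (LinearMap.comp S (pb (jn x y t (-e)))) := by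
  obtain ⟨m1, m2, m3, m4, m5⟩ := H.mem_alv ax ay
  have hay : ay ≠ 0 := by
    rintro rfl
    rw [zero_mul] at hxy
    exact zero_ne_one hxy
  have hcup : pb (jn x y t (-e)) * (Rop e u x ax (1 - ax) * Rop e u y ay (1 - ay)) =
      (pb (jn x y t (-e)) : Module.End ℂ (LP D → ℂ)) :=
    cup_op e t u x y H.ux H.uy H.xy _ _ _ _ (by linear_combination hxy)
      (by linear_combination -hxy)
  have c3 := fun κ => H.jnuv t (-e) e κ
  refine h.trans (H.frt hax hay h.frt.h0) (pb (jn x y t (-e))) (pb (jn x y t (-e))) ?_ ?_ ?_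
  · unfold opA
    rw [Lu_append, Lu_append, Lu_cons, Lu_cons]
    calc (pb (jn x y t (-e)) : Module.End ℂ (LP D → ℂ)) * (pb (jn u v e e) *
          (Lu e u F1 * (Rop e u x ax (1 - ax) * (Rop e u y ay (1 - ay) * Lu e u F2))))
        = pb (jn u v e e) * (pb (jn x y t (-e)) * Lu e u F1) * (Rop e u x ax (1 - ax) *
            (Rop e u y ay (1 - ay) * Lu e u F2)) := by
          rw [← mul_assoc, c3]; simp only [mul_assoc]
      _ = pb (jn u v e e) * Lu e u F1 * (pb (jn x y t (-e)) *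
            (Rop e u x ax (1 - ax) * Rop e u y ay (1 - ay))) * Lu e u F2 := by
          rw [H.jn1]; simp only [mul_assoc]
      _ = pb (jn u v e e) * Lu e u F1 * (pb (jn x y t (-e)) * Lu e u F2) := by
          rw [hcup]; simp only [mul_assoc]
      _ = _ := by rw [H.jn2]; simp only [mul_assoc]
  · apply opB_comm (c3 _)
    rw [← jn_gau _ _ _ _ _ (by rw [g1_ne H.vx.symm, g1_ne H.vy.symm])]
  · intro Φ hΦ
    exact hΦ.cup m3 m4 H.xy m5 _ _

/-- **A crossing of two neighbours of the front.** -/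
theorem P0.tile {F1 F2 : List (D × ℂ)} {x y : D} {ax ay : ℂ} {S : Module.Dual ℂ (LP D → ℂ)}
    (h : P0 e u v (F1 ++ (x, ax) :: (y, ay) :: F2) S) (p q : ℂ)
    (hY : ax * (1 - ay) * p = (1 - ax) * ay * p + ax * ay * q + (1 - ax) * ay * q +
      (1 - ax) * (1 - ay) * q) :
    P0 e u v (F1 ++ (y, ay) :: (x, ax) :: F2) (LinearMap.comp S (Rop e x y p q)) := by
  obtain ⟨H, hx, hy, h0⟩ := h.frt.fxy
  obtain ⟨m1, m2, m3, m4, m5⟩ := H.mem_alv ax ay
  have H' : Fxy u v y x F1 F2 := ⟨H.uv, H.xy.symm, H.uy, H.ux, H.vy, H.vx, H.u1, H.u2, H.v1,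
    H.v2, H.y1, H.y2, H.x1, H.x2, H.nd⟩
  have hA : Alv u v (F1 ++ (y, ay) :: (x, ax) :: F2) =
      Alv u v (F1 ++ (x, ax) :: (y, ay) :: F2) := by
    ext s
    rw [(H'.mem_alv ay ax).2.2.2.2, m5]
    tauto
  have hyb := ybe e u x y H.ux H.uy H.xy ax (1 - ax) ay (1 - ay) p q hY
  refine h.trans (H'.frt hy hx h0) (Rop e x y p q) (Rop e x y p q) ?_ ?_ ?_
  · unfold opA
    rw [Lu_append, Lu_append, Lu_cons, Lu_cons, Lu_cons, Lu_cons]
    calc Rop e x y p q * (pb (jn u v e e) *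
          (Lu e u F1 * (Rop e u y ay (1 - ay) * (Rop e u x ax (1 - ax) * Lu e u F2))))
        = pb (jn u v e e) * (Rop e x y p q * Lu e u F1) * (Rop e u y ay (1 - ay) *
            (Rop e u x ax (1 - ax) * Lu e u F2)) := by
          rw [← mul_assoc, H.ropuv]; simp only [mul_assoc]
      _ = pb (jn u v e e) * Lu e u F1 * (Rop e x y p q * Rop e u y ay (1 - ay) *
            Rop e u x ax (1 - ax)) * Lu e u F2 := by
          rw [H.rop1]; simp only [mul_assoc]
      _ = pb (jn u v e e) * Lu e u F1 * (Rop e u x ax (1 - ax) * Rop e u y ay (1 - ay)) *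
            (Rop e x y p q * Lu e u F2) := by
          rw [← hyb]; simp only [mul_assoc]
      _ = _ := by rw [H.rop2]; simp only [mul_assoc]
  · apply opB_comm (H.ropuv _ _ _ _ _)
    rw [Rop_gau _ _ _ _ (by rw [g1_ne H.vx.symm, g1_ne H.vy.symm])]
  · intro Φ hΦ
    exact (hΦ.congr hA).Rop m1 m2 _ _ _

/-- **All positions of the track.** -/
theorem P0.split {S : Module.Dual ℂ (LP D → ℂ)} (F2 F1 : List (D × ℂ))
    (h : P0 e u v (F1 ++ F2) S) (Φ : LP D → ℂ) (hΦ : Dep (Alv u v (F1 ++ F2)) Φ) :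
    S (opA e u v F1 Φ) = S ((pb (jn u v e (-e)) * Lv e v F2 *
      pb (gau (g1 v (-(2 * e)))) : Module.End ℂ (LP D → ℂ)) Φ) := by
  induction F2 generalizing F1 Φ with
  | nil =>
    rw [Lv_nil, mul_one]
    rw [List.append_nil] at h hΦ
    exact h.eq Φ hΦ
  | cons c G ih =>
    obtain ⟨x, a⟩ := c
    have hlist : F1 ++ (x, a) :: G = (F1 ++ [(x, a)]) ++ G := by simp
    have hmem : (x, a) ∈ F1 ++ (x, a) :: G := by simp
    have ha : a ≠ 0 := h.frt.h0 _ hmem
    have hux : u ≠ x := fun hh => h.frt.hu (by rw [hh]; exact mem_nm hmem)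
    have hvx : v ≠ x := fun hh => h.frt.hv (by rw [hh]; exact mem_nm hmem)
    have huv := h.frt.uv
    have hxG : x ∉ nm G := by
      have := h.frt.nd
      rw [nm_append, nm_cons, List.nodup_append, List.nodup_cons] at this
      exact this.2.1.1
    have huG : u ∉ nm G := fun hh => h.frt.hu (by
      rw [nm_append, nm_cons]; exact List.mem_append_right _ (List.mem_cons_of_mem _ hh))
    have hvG : v ∉ nm G := fun hh => h.frt.hv (by
      rw [nm_append, nm_cons]; exact List.mem_append_right _ (List.mem_cons_of_mem _ hh))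
    set R : Module.End ℂ (LP D → ℂ) := Rop e x u a⁻¹ (1 - a⁻¹) with hR
    have hunit : Rop e u x a (1 - a) * R = 1 :=
      Rop_unit e u x hux a (1 - a) a⁻¹ (1 - a⁻¹) (mul_inv_cancel₀ ha)
        (by linear_combination -(mul_inv_cancel₀ ha))
    have e1 : opA e u v F1 = opA e u v (F1 ++ [(x, a)]) * R := by
      unfold opA
      rw [Lu_append, Lu_cons, Lu_nil, mul_one]
      calc pb (jn u v e e) * Lu e u F1
          = pb (jn u v e e) * Lu e u F1 * (Rop e u x a (1 - a) * R) := by rw [hunit, mul_one]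
        _ = _ := by simp only [mul_assoc]
    have hbend : (pb (jn u v e (-e)) : Module.End ℂ (LP D → ℂ)) *
        (Rop e v x (1 - a⁻¹) a⁻¹ * Rop e u x a (1 - a)) = pb (jn u v e (-e)) := by
      have hc : (pb (jn u v e (-e)) : Module.End ℂ (LP D → ℂ)) = pb (jn v u (-e) e) :=
        pb_congr fun f => by rw [jn_comm u v _ _ f huv, neg_neg]
      rw [hc]
      exact bend_op e (-e) v u x huv.symm hvx hux _ _ _ _ (inv_mul_cancel₀ ha)
        (by linear_combination -(mul_inv_cancel₀ ha))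
    have hbend' : (pb (jn u v e (-e)) : Module.End ℂ (LP D → ℂ)) * Rop e v x (1 - a⁻¹) a⁻¹ =
        pb (jn u v e (-e)) * R := by
      calc (pb (jn u v e (-e)) : Module.End ℂ (LP D → ℂ)) * Rop e v x (1 - a⁻¹) a⁻¹
          = pb (jn u v e (-e)) * (Rop e v x (1 - a⁻¹) a⁻¹ * (Rop e u x a (1 - a) * R)) := by
            rw [hunit, mul_one]
        _ = (pb (jn u v e (-e)) * (Rop e v x (1 - a⁻¹) a⁻¹ * Rop e u x a (1 - a))) * R := by
            simp only [mul_assoc]
        _ = _ := by rw [hbend]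
    have e2 : (pb (jn u v e (-e)) : Module.End ℂ (LP D → ℂ)) * Lv e v ((x, a) :: G) *
        pb (gau (g1 v (-(2 * e)))) = pb (jn u v e (-e)) * Lv e v G *
        pb (gau (g1 v (-(2 * e)))) * R := by
      rw [Lv_cons]
      calc (pb (jn u v e (-e)) : Module.End ℂ (LP D → ℂ)) * (Rop e v x (1 - a⁻¹) a⁻¹ *
            Lv e v G) * pb (gau (g1 v (-(2 * e))))
          = (pb (jn u v e (-e)) * Rop e v x (1 - a⁻¹) a⁻¹) * Lv e v G *
            pb (gau (g1 v (-(2 * e)))) := by simp only [mul_assoc]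
        _ = pb (jn u v e (-e)) * (R * Lv e v G) * pb (gau (g1 v (-(2 * e)))) := by
            rw [hbend']; simp only [mul_assoc]
        _ = pb (jn u v e (-e)) * Lv e v G * (R * pb (gau (g1 v (-(2 * e))))) := by
            rw [hR, Lv_Rop e e hux.symm hvx huv.symm hvG hxG huG]; simp only [mul_assoc]
        _ = _ := by
            rw [hR, Rop_gau _ _ _ _ (by rw [g1_ne hvx.symm, g1_ne huv])]
            simp only [mul_assoc]
    have hD : Dep (Alv u v (F1 ++ (x, a) :: G)) (R Φ) :=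
      hΦ.Rop (Or.inr (Or.inr (mem_nm hmem))) (Or.inl rfl) _ _ _
    rw [e1, e2]
    rw [hlist] at h hD
    exact ih (F1 ++ [(x, a)]) h (R Φ) hD

/-- all the conditions on a front and an end `c` -/
structure Fx (u v c : D) (F : List (D × ℂ)) : Prop where
  uv : u ≠ v
  uc : u ≠ c
  vc : v ≠ c
  u1 : u ∉ nm F
  v1 : v ∉ nm F
  c1 : c ∉ nm F
  nd : (nm F).Nodup
  h0 : ∀ d ∈ F, d.2 ≠ 0

omit [DecidableEq D] in
theorem Frt.fx {F : List (D × ℂ)} {c : D} {a : ℂ} (h : Frt u v ((c, a) :: F)) :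
    Fx u v c F ∧ a ≠ 0 := by
  obtain ⟨uv, nd, hu, hv, h0⟩ := h
  rw [nm_cons, List.mem_cons, not_or] at hu hv
  rw [nm_cons, List.nodup_cons] at nd
  exact ⟨⟨uv, hu.1, hv.1, hu.2, hv.2, nd.1, nd.2, fun d hd => h0 d (List.mem_cons_of_mem _ hd)⟩,
    h0 (c, a) List.mem_cons_self⟩

omit [DecidableEq D] in
theorem Frt.fx' {F : List (D × ℂ)} {c : D} {a : ℂ} (h : Frt u v (F ++ [(c, a)])) :
    Fx u v c F ∧ a ≠ 0 := by
  obtain ⟨uv, nd, hu, hv, h0⟩ := h
  simp only [nm_append, nm_cons, nm_nil, List.mem_append, List.mem_singleton, not_or] at hu hv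
  simp only [nm_append, nm_cons, nm_nil, List.nodup_append, List.mem_singleton] at nd
  exact ⟨⟨uv, hu.2, hv.2, hu.1, hv.1, fun hh => nd.2.2 c hh c rfl rfl, nd.1,
    fun d hd => h0 d (List.mem_append_left _ hd)⟩,
    h0 (c, a) (List.mem_append_right _ List.mem_cons_self)⟩

omit [DecidableEq D] in
theorem Fx.frt {F : List (D × ℂ)} {c : D} {a : ℂ} (h : Fx u v c F) (ha : a ≠ 0) :
    Frt u v ((c, a) :: F) := by
  refine ⟨h.uv, ?_, ?_, ?_, ?_⟩
  · rw [nm_cons, List.nodup_cons]; exact ⟨h.c1, h.nd⟩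
  · rw [nm_cons, List.mem_cons, not_or]; exact ⟨h.uc, h.u1⟩
  · rw [nm_cons, List.mem_cons, not_or]; exact ⟨h.vc, h.v1⟩
  · intro d hd
    rw [List.mem_cons] at hd
    rcases hd with rfl | hd
    · exact ha
    · exact h.h0 d hd

omit [DecidableEq D] in
theorem Fx.frt' {F : List (D × ℂ)} {c : D} {a : ℂ} (h : Fx u v c F) (ha : a ≠ 0) :
    Frt u v (F ++ [(c, a)]) := by
  refine ⟨h.uv, ?_, ?_, ?_, ?_⟩
  · simp only [nm_append, nm_cons, nm_nil, List.nodup_append, List.mem_singleton]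
    refine ⟨h.nd, List.nodup_singleton _, ?_⟩
    rintro a ha b rfl
    exact fun hh => h.c1 (hh ▸ ha)
  · simp only [nm_append, nm_cons, nm_nil, List.mem_append, List.mem_singleton, not_or]
    exact ⟨h.u1, h.uc⟩
  · simp only [nm_append, nm_cons, nm_nil, List.mem_append, List.mem_singleton, not_or]
    exact ⟨h.v1, h.vc⟩
  · intro d hd
    rw [List.mem_append, List.mem_singleton] at hd
    rcases hd with hd | rfl
    · exact h.h0 d hd
    · exact ha

omit [DecidableEq D] in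
theorem alv_rot (F : List (D × ℂ)) (c : D) (a b : ℂ) :
    Alv u v (F ++ [(c, b)]) = Alv u v ((c, a) :: F) := by
  ext s
  simp only [Alv, nm_append, nm_cons, nm_nil, Set.mem_ofPred_eq, List.mem_append, List.mem_cons,
    List.not_mem_nil]
  tauto

theorem Fx.gau1 {F : List (D × ℂ)} {c : D} (h : Fx u v c F) (e k : ℤ) :
    pb (gau (g1 c k)) * Lu e u F = Lu e u F * pb (gau (g1 c k)) :=
  Lu_gau e k h.uc h.c1

theorem Fx.gauuv {F : List (D × ℂ)} {c : D} (h : Fx u v c F) (k τ κ : ℤ) :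
    (pb (gau (g1 c k)) : Module.End ℂ (LP D → ℂ)) * pb (jn u v τ κ) =
      pb (jn u v τ κ) * pb (gau (g1 c k)) :=
  (jn_gau _ _ _ _ _ (by rw [g1_ne h.uc, g1_ne h.vc])).symm

/-- the change of zero at `v` and at `c` commutes with the crossing of `v` and `c` -/
theorem gau_pass (k l e : ℤ) {v c : D} (hvc : v ≠ c) (hkl : k + l = 0) (p q : ℂ) :
    pb (gau (g1 v k)) * Rop e v c p q * pb (gau (g1 c l)) =
      pb (gau (g1 c l)) * Rop e v c p q * pb (gau (g1 v k)) := by
  have h1 : (pb (gau (g1 c l)) : Module.End ℂ (LP D → ℂ)) =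
      pb (gau (fun x => g1 v l x + g1 c l x)) * pb (gau (g1 v k)) := by
    rw [pb_gau_add]
    congr 2
    funext x
    unfold g1
    split_ifs <;> omega
  have h2 : (pb (gau (g1 v k)) : Module.End ℂ (LP D → ℂ)) *
      pb (gau (fun x => g1 v l x + g1 c l x)) = pb (gau (g1 c l)) := by
    rw [pb_gau_comm, ← h1]
  have h3 : Rop e v c p q * pb (gau (fun x => g1 v l x + g1 c l x)) =
      pb (gau (fun x => g1 v l x + g1 c l x)) * (Rop e v c p q : Module.End ℂ (LP D → ℂ)) := by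
    apply Rop_gau
    unfold g1
    rw [if_pos rfl, if_pos rfl, if_neg hvc, if_neg hvc.symm]
    ring
  calc pb (gau (g1 v k)) * Rop e v c p q * pb (gau (g1 c l))
      = pb (gau (g1 v k)) * (Rop e v c p q * pb (gau (fun x => g1 v l x + g1 c l x))) *
        pb (gau (g1 v k)) := by
        rw [h1]; simp only [mul_assoc]
    _ = (pb (gau (g1 v k)) * pb (gau (fun x => g1 v l x + g1 c l x))) * Rop e v c p q *
        pb (gau (g1 v k)) := by
        rw [h3]; simp only [mul_assoc]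
    _ = _ := by rw [h2]

/-- **The first end of the front becomes its last end.** -/
theorem P0.rot {F : List (D × ℂ)} {c : D} {a : ℂ} {S : Module.Dual ℂ (LP D → ℂ)}
    (h : P0 e u v ((c, a) :: F) S) (ha1 : a ≠ 1) :
    P0 e u v (F ++ [(c, 1 - a⁻¹)]) (LinearMap.comp S (pb (gau (g1 c (2 * e))))) := by
  obtain ⟨H, ha⟩ := h.frt.fx
  have hm1 : (1 - a)⁻¹ * (1 - a) = 1 := inv_mul_cancel₀ (sub_ne_zero.2 (Ne.symm ha1))
  have hm2 : a⁻¹ * a = 1 := inv_mul_cancel₀ ha
  have hb : 1 - a⁻¹ ≠ 0 := by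
    intro h0
    apply ha1
    linear_combination a * h0 + hm2
  set b := 1 - a⁻¹ with hbd
  set a' := (1 - a)⁻¹ with ha'
  have hab : (1 - a') * b = 1 := by
    rw [hbd]
    linear_combination a⁻¹ * hm1 + a' * hm2
  set G : Module.End ℂ (LP D → ℂ) := pb (gau (g1 c (2 * e))) with hG
  set X : Module.End ℂ (LP D → ℂ) := Rop e v c a' (1 - a') * G * Rop e u c b (1 - b) with hX
  have hbend1 : (pb (jn u v e e) : Module.End ℂ (LP D → ℂ)) *
      (Rop e u c a (1 - a) * Rop e v c a' (1 - a')) = pb (jn u v e e) :=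
    bend_op e e u v c H.uv H.uc H.vc _ _ _ _ (by linear_combination hm1)
      (by linear_combination -hm1)
  have hbend2 : (pb (jn u v e (-e)) : Module.End ℂ (LP D → ℂ)) *
      (Rop e v c a' (1 - a') * Rop e u c b (1 - b)) = pb (jn u v e (-e)) := by
    have hc : (pb (jn u v e (-e)) : Module.End ℂ (LP D → ℂ)) = pb (jn v u (-e) e) :=
      pb_congr fun f => by rw [jn_comm u v _ _ f H.uv, neg_neg]
    rw [hc]
    exact bend_op e (-e) v u c H.uv.symm H.vc H.uc _ _ _ _ hab (by linear_combination -hab)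
  refine h.trans (H.frt' hb) G X ?_ ?_ ?_
  · unfold opA
    rw [Lu_append, Lu_cons, Lu_cons, Lu_nil, mul_one]
    have hcomm : Rop e v c a' (1 - a') * Lu e u F = Lu e u F * Rop e v c a' (1 - a') :=
      Lu_Rop e e H.vc H.uv H.uc H.u1 H.v1 H.c1 _ _
    calc G * (pb (jn u v e e) * (Lu e u F * Rop e u c b (1 - b)))
        = pb (jn u v e e) * (G * Lu e u F) * Rop e u c b (1 - b) := by
          rw [← mul_assoc, hG, H.gauuv]; simp only [mul_assoc]
      _ = pb (jn u v e e) * (Rop e u c a (1 - a) * Rop e v c a' (1 - a')) * Lu e u F * G *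
            Rop e u c b (1 - b) := by
          rw [hbend1, hG, H.gau1]; simp only [mul_assoc]
      _ = pb (jn u v e e) * Rop e u c a (1 - a) * (Rop e v c a' (1 - a') * Lu e u F) * G *
            Rop e u c b (1 - b) := by
          simp only [mul_assoc]
      _ = _ := by rw [hcomm, hX]; simp only [mul_assoc]
  · unfold opB
    have hpass := gau_pass (-(2 * e)) (2 * e) e H.vc (by ring) a' (1 - a')
    have hcomm : Rop e u c b (1 - b) * pb (gau (g1 v (-(2 * e)))) =
        pb (gau (g1 v (-(2 * e)))) * (Rop e u c b (1 - b) : Module.End ℂ (LP D → ℂ)) :=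
      Rop_gau _ _ _ _ (by rw [g1_ne H.uv, g1_ne H.vc.symm]) _ _
    symm
    calc pb (jn u v e (-e)) * pb (gau (g1 v (-(2 * e)))) * X
        = pb (jn u v e (-e)) * (pb (gau (g1 v (-(2 * e)))) * Rop e v c a' (1 - a') *
            pb (gau (g1 c (2 * e)))) * Rop e u c b (1 - b) := by
          rw [hX, hG]; simp only [mul_assoc]
      _ = (pb (jn u v e (-e)) * G) * Rop e v c a' (1 - a') *
            (pb (gau (g1 v (-(2 * e)))) * Rop e u c b (1 - b)) := by
          rw [hpass, hG]; simp only [mul_assoc]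
      _ = G * (pb (jn u v e (-e)) * (Rop e v c a' (1 - a') * Rop e u c b (1 - b))) *
            pb (gau (g1 v (-(2 * e)))) := by
          rw [← hcomm, hG, ← H.gauuv]; simp only [mul_assoc]
      _ = _ := by rw [hbend2]; simp only [mul_assoc]
  · intro Φ hΦ
    have hΦ' := hΦ.congr (alv_rot (u := u) (v := v) F c a b)
    have hc : c ∈ Alv u v ((c, a) :: F) := Or.inr (Or.inr List.mem_cons_self)
    exact ((hΦ'.Rop (Or.inl rfl) hc _ _ _).gau _).Rop (Or.inr (Or.inl rfl)) hc _ _ _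

/-- **The last end of the front becomes its first end.** -/
theorem P0.rot' {F : List (D × ℂ)} {c : D} {b : ℂ} {S : Module.Dual ℂ (LP D → ℂ)}
    (h : P0 e u v (F ++ [(c, b)]) S) (hb1 : b ≠ 1) :
    P0 e u v ((c, (1 - b)⁻¹) :: F) (LinearMap.comp S (pb (gau (g1 c (-(2 * e)))))) := by
  obtain ⟨H, hb⟩ := h.frt.fx'
  have hm1 : (1 - b)⁻¹ * (1 - b) = 1 := inv_mul_cancel₀ (sub_ne_zero.2 (Ne.symm hb1))
  have hm2 : b⁻¹ * b = 1 := inv_mul_cancel₀ hb
  set a := (1 - b)⁻¹ with ha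
  have ha0 : a ≠ 0 := inv_ne_zero (sub_ne_zero.2 (Ne.symm hb1))
  set a' := 1 - b⁻¹ with ha'
  have ha'0 : a' ≠ 0 := by
    intro h0
    apply hb1
    linear_combination b * h0 + hm2
  have hm3 : a'⁻¹ * a' = 1 := inv_mul_cancel₀ ha'0
  have hab : (1 - a) * a' = 1 := by
    rw [ha']
    linear_combination b⁻¹ * hm1 + a * hm2
  set G : Module.End ℂ (LP D → ℂ) := pb (gau (g1 c (-(2 * e)))) with hG
  set R : Module.End ℂ (LP D → ℂ) := Rop e c v a'⁻¹ (1 - a'⁻¹) with hR
  have hunit : Rop e v c a' (1 - a') * R = 1 :=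
    Rop_unit e v c H.vc _ _ _ _ (by linear_combination hm3) (by linear_combination -hm3)
  have hbend1 : (pb (jn u v e e) : Module.End ℂ (LP D → ℂ)) * Rop e u c a (1 - a) =
      pb (jn u v e e) * R := by
    calc (pb (jn u v e e) : Module.End ℂ (LP D → ℂ)) * Rop e u c a (1 - a)
        = pb (jn u v e e) * (Rop e u c a (1 - a) * (Rop e v c a' (1 - a') * R)) := by
          rw [hunit, mul_one]
      _ = (pb (jn u v e e) * (Rop e u c a (1 - a) * Rop e v c a' (1 - a'))) * R := by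
          simp only [mul_assoc]
      _ = _ := by
          rw [bend_op e e u v c H.uv H.uc H.vc _ _ _ _ hab (by linear_combination -hab)]
  refine ⟨H.frt ha0, fun Φ hΦ => ?_⟩
  have hc : c ∈ Alv u v (F ++ [(c, b)]) := Or.inr (Or.inr (mem_nm (c := (c, b)) (by simp)))
  have hΦ' := hΦ.congr (alv_rot (u := u) (v := v) F c a b).symm
  have hD : Dep (Alv u v (F ++ [(c, b)])) ((G * R) Φ) :=
    (hΦ'.Rop hc (Or.inr (Or.inl rfl)) _ _ _).gau _
  have key := h.split [(c, b)] F ((G * R) Φ) hD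
  rw [LinearMap.comp_apply, LinearMap.comp_apply]
  have e1 : G * opA e u v ((c, a) :: F) = opA e u v F * (G * R) := by
    unfold opA
    rw [Lu_cons]
    have hcomm : R * Lu e u F = Lu e u F * R :=
      Lu_Rop e e H.vc.symm H.uc H.uv H.u1 H.c1 H.v1 _ _
    calc G * (pb (jn u v e e) * (Rop e u c a (1 - a) * Lu e u F))
        = G * (pb (jn u v e e) * Rop e u c a (1 - a)) * Lu e u F := by simp only [mul_assoc]
      _ = (G * pb (jn u v e e)) * (R * Lu e u F) := by rw [hbend1]; simp only [mul_assoc]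
      _ = pb (jn u v e e) * (G * Lu e u F) * R := by
          rw [hcomm, hG, H.gauuv]; simp only [mul_assoc]
      _ = _ := by rw [hG, H.gau1]; simp only [mul_assoc]
  have e2 : pb (jn u v e (-e)) * Lv e v [(c, b)] * pb (gau (g1 v (-(2 * e)))) * (G * R) =
      G * opB e u v := by
    unfold opB
    rw [Lv_cons, Lv_nil, mul_one]
    have hb' : Rop e v c (1 - b⁻¹) b⁻¹ =
        (Rop e v c a' (1 - a') : Module.End ℂ (LP D → ℂ)) := by
      congr 1
      rw [ha']; ring
    have hGG : (pb (gau (g1 v (-(2 * e)))) : Module.End ℂ (LP D → ℂ)) * G =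
        pb (gau (fun x => g1 v (-(2 * e)) x + g1 c (-(2 * e)) x)) := pb_gau_add _ _
    have hcomm : Rop e v c a' (1 - a') *
        pb (gau (fun x => g1 v (-(2 * e)) x + g1 c (-(2 * e)) x)) =
        pb (gau (fun x => g1 v (-(2 * e)) x + g1 c (-(2 * e)) x)) *
        (Rop e v c a' (1 - a') : Module.End ℂ (LP D → ℂ)) := by
      apply Rop_gau
      unfold g1
      rw [if_pos rfl, if_pos rfl, if_neg H.vc, if_neg H.vc.symm]
      ring
    calc pb (jn u v e (-e)) * Rop e v c (1 - b⁻¹) b⁻¹ * pb (gau (g1 v (-(2 * e)))) * (G * R)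
        = pb (jn u v e (-e)) * (Rop e v c a' (1 - a') *
            (pb (gau (g1 v (-(2 * e)))) * G)) * R := by
          rw [hb']; simp only [mul_assoc]
      _ = pb (jn u v e (-e)) * (pb (gau (g1 v (-(2 * e)))) * G) *
            (Rop e v c a' (1 - a') * R) := by
          rw [hGG, hcomm]; simp only [mul_assoc]
      _ = pb (jn u v e (-e)) * (G * pb (gau (g1 v (-(2 * e))))) := by
          rw [hunit, mul_one, hG, pb_gau_comm]
      _ = _ := by rw [← mul_assoc, hG, ← H.gauuv]; simp only [mul_assoc]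
  have k1 : G (opA e u v ((c, a) :: F) Φ) = opA e u v F ((G * R) Φ) :=
    congrArg (fun Z : Module.End ℂ (LP D → ℂ) => Z Φ) e1
  have k2 := congrArg (fun Z : Module.End ℂ (LP D → ℂ) => Z Φ) e2
  rw [k1, key]
  exact congrArg S k2

theorem pb_ren_jn (s : Equiv.Perm D) (x y : D) (τ κ : ℤ) :
    (pb (LP.ren s) : Module.End ℂ (LP D → ℂ)) * pb (jn (s x) (s y) τ κ) =
      pb (jn x y τ κ) * pb (LP.ren s) := by
  rw [pb_mul, pb_mul]
  exact pb_congr fun f => (ren_jn s x y τ κ f).symm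

theorem pb_ren_Rop (s : Equiv.Perm D) (e : ℤ) (x y : D) (p q : ℂ) :
    pb (LP.ren s) * Rop e (s x) (s y) p q =
      (Rop e x y p q : Module.End ℂ (LP D → ℂ)) * pb (LP.ren s) := by
  have e1 : (pb (LP.ren s) : Module.End ℂ (LP D → ℂ)) * pb (sw (s x) (s y)) =
      pb (sw x y) * pb (LP.ren s) := by
    rw [pb_mul, pb_mul]
    exact pb_congr fun f => (ren_sw s x y f).symm
  unfold Rop
  simp only [mul_add, add_mul, smul_mul_assoc, mul_smul_comm, e1, pb_ren_jn]

theorem pb_ren_Lu (s : Equiv.Perm D) (e : ℤ) (u : D) (F : List (D × ℂ)) :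
    pb (LP.ren s) * Lu e (s u) (F.map fun c => (s c.1, c.2)) = Lu e u F * pb (LP.ren s) := by
  induction F with
  | nil => rw [List.map_nil, Lu_nil, Lu_nil, mul_one, one_mul]
  | cons c F ih =>
    rw [List.map_cons, Lu_cons, Lu_cons, ← mul_assoc, pb_ren_Rop, mul_assoc, ih, mul_assoc]

theorem pb_ren_gau (s : Equiv.Perm D) (c : D) (k : ℤ) :
    (pb (LP.ren s) : Module.End ℂ (LP D → ℂ)) * pb (gau (g1 (s c) k)) =
      pb (gau (g1 c k)) * pb (LP.ren s) := by
  rw [pb_mul, pb_mul]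
  refine pb_congr fun f => ?_
  have key : ∀ t, g1 (s c) k t = g1 c k (s.symm t) := by
    intro t
    unfold g1
    simp only [Equiv.symm_apply_eq]
  apply LP.ext
  · intro t; rfl
  · intro t
    change (LP.ren s f).d t + g1 (s c) k t - g1 (s c) k (LP.ren s f t) =
      f.d (s.symm t) + g1 c k (s.symm t) - g1 c k (f (s.symm t))
    rw [key, key, ren_apply, ren_d, Equiv.symm_apply_apply]

/-- **A renaming of the ends.** -/
theorem P0.ren {F : List (D × ℂ)} {S : Module.Dual ℂ (LP D → ℂ)} (h : P0 e u v F S)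
    (s : Equiv.Perm D) : P0 e (s u) (s v) (F.map fun c => (s c.1, c.2))
      (LinearMap.comp S (pb (LP.ren s))) := by
  obtain ⟨⟨uv, nd, hu, hv, h0⟩, hE⟩ := h
  have hnm : nm (F.map fun c => (s c.1, c.2)) = (nm F).map s := by
    unfold nm
    rw [List.map_map, List.map_map]
    rfl
  have hmem : ∀ x, s x ∈ nm (F.map fun c => (s c.1, c.2)) ↔ x ∈ nm F := by
    intro x
    rw [hnm, List.mem_map]
    constructor
    · rintro ⟨y, hy, hh⟩
      rwa [← s.injective hh]
    · intro hx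
      exact ⟨x, hx, rfl⟩
  have hA : ∀ x, s x ∈ Alv (s u) (s v) (F.map fun c => (s c.1, c.2)) ↔ x ∈ Alv u v F := by
    intro x
    simp only [Alv, Set.mem_ofPred_eq, hmem, s.injective.eq_iff]
  refine ⟨⟨fun hh => uv (s.injective hh), ?_, ?_, ?_, ?_⟩, fun Φ hΦ => ?_⟩
  · rw [hnm]
    exact nd.map s.injective
  · rw [hmem]; exact hu
  · rw [hmem]; exact hv
  · intro c hc
    obtain ⟨d, hd, rfl⟩ := List.mem_map.1 hc
    exact h0 d hd
  · have hD : Dep (Alv u v F) (pb (LP.ren s) Φ) := by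
      intro g g' hg
      apply hΦ
      refine ⟨fun t ht => ?_, fun t ht => ?_⟩
      · rw [ren_apply, hA]
        apply hg.1
        rw [← hA, Equiv.apply_symm_apply]
        exact ht
      · have ht' : s.symm t ∈ Alv u v F := by
          rw [← hA, Equiv.apply_symm_apply]
          exact ht
        obtain ⟨c1, c2⟩ := hg.2 _ ht'
        rw [ren_apply, ren_apply, ren_d, ren_d, c1, c2]
        exact ⟨rfl, rfl⟩
    have e1 : pb (LP.ren s) * opA e (s u) (s v) (F.map fun c => (s c.1, c.2)) =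
        opA e u v F * pb (LP.ren s) := by
      unfold opA
      rw [← mul_assoc, pb_ren_jn, mul_assoc, pb_ren_Lu, mul_assoc]
    have e2 : pb (LP.ren s) * opB e (s u) (s v) = opB e u v * pb (LP.ren s) := by
      unfold opB
      rw [← mul_assoc, pb_ren_jn, mul_assoc, pb_ren_gau, mul_assoc]
    have k1 : pb (LP.ren s) (opA e (s u) (s v) (F.map fun c => (s c.1, c.2)) Φ) =
        opA e u v F (pb (LP.ren s) Φ) :=
      congrArg (fun Z : Module.End ℂ (LP D → ℂ) => Z Φ) e1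
    have k2 : pb (LP.ren s) (opB e (s u) (s v) Φ) = opB e u v (pb (LP.ren s) Φ) :=
      congrArg (fun Z : Module.End ℂ (LP D → ℂ) => Z Φ) e2
    rw [LinearMap.comp_apply, LinearMap.comp_apply, k1, k2]
    exact hE _ hD

theorem P0.zero {F : List (D × ℂ)} (h : Frt u v F) : P0 e u v F 0 := ⟨h, fun _ _ => rfl⟩

theorem P0.add {F : List (D × ℂ)} {S S' : Module.Dual ℂ (LP D → ℂ)} (h : P0 e u v F S)
    (h' : P0 e u v F S') : P0 e u v F (S + S') :=
  ⟨h.frt, fun Φ hΦ => by
    rw [LinearMap.add_apply, LinearMap.add_apply, h.eq Φ hΦ, h'.eq Φ hΦ]⟩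

theorem P0.smul {F : List (D × ℂ)} {S : Module.Dual ℂ (LP D → ℂ)} (h : P0 e u v F S) (k : ℂ) :
    P0 e u v F (k • S) :=
  ⟨h.frt, fun Φ hΦ => by
    rw [LinearMap.smul_apply, LinearMap.smul_apply, h.eq Φ hΦ]⟩

theorem P0.sum {F : List (D × ℂ)} {ι : Type*} (I : Finset ι) {S : ι → Module.Dual ℂ (LP D → ℂ)}
    (hF : Frt u v F) (h : ∀ i ∈ I, P0 e u v F (S i)) : P0 e u v F (∑ i ∈ I, S i) :=
  ⟨hF, fun Φ hΦ => by
    rw [LinearMap.sum_apply, LinearMap.sum_apply]
    exact Finset.sum_congr rfl fun i hi => (h i hi).eq Φ hΦ⟩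

/-! ### The weights -/

/-- a crossing of two lines of the angles `v`, `v + w - π` -/
theorem P0.tile_wa {F1 F2 : List (D × ℂ)} {x y : D} {α w : ℂ} {S : Module.Dual ℂ (LP D → ℂ)}
    (h : P0 e u v (F1 ++ (x, wa α) :: (y, wa (α + w - Real.pi)) :: F2) S)
    (h1 : Complex.sin ((α + Real.pi) / 3) ≠ 0)
    (h2 : Complex.sin ((α + w - Real.pi + Real.pi) / 3) ≠ 0)
    (h3 : Complex.sin ((w + Real.pi) / 3) ≠ 0) :
    P0 e u v (F1 ++ (y, wa (α + w - Real.pi)) :: (x, wa α) :: F2)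
      (LinearMap.comp S (Rop e x y (wa w) (1 - wa w))) :=
  h.tile _ _ (wa_ybe α w h1 h2 h3)

/-- the join of two ends of one line -/
theorem P0.cap_wa {F1 F2 : List (D × ℂ)} {x y : D} {α : ℂ} {S : Module.Dual ℂ (LP D → ℂ)}
    (h : P0 e u v (F1 ++ (x, wa α) :: (y, wa (α - Real.pi)) :: F2) S)
    (h1 : Complex.sin ((α + Real.pi) / 3) ≠ 0)
    (h2 : Complex.sin ((α - Real.pi + Real.pi) / 3) ≠ 0) (t : ℤ) :
    P0 e u v (F1 ++ F2) (LinearMap.comp S (pb (jn x y e t))) :=
  h.cap (wa_unit α h1 h2) t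

/-- a new line -/
theorem P0.cup_wa {F1 F2 : List (D × ℂ)} {x y : D} {α : ℂ} {S : Module.Dual ℂ (LP D → ℂ)}
    (h : P0 e u v (F1 ++ F2) S) (H : Fxy u v x y F1 F2) (hax : wa (α - Real.pi) ≠ 0)
    (h1 : Complex.sin ((α + Real.pi) / 3) ≠ 0)
    (h2 : Complex.sin ((α - Real.pi + Real.pi) / 3) ≠ 0) (t : ℤ) :
    P0 e u v (F1 ++ (x, wa (α - Real.pi)) :: (y, wa α) :: F2)
      (LinearMap.comp S (pb (jn x y t (-e)))) :=
  h.cup H hax (wa_unit α h1 h2) t

end

end Pool.Agent.H13.Q1
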