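import Pool.Agent.H13.Q1.Cover
import Pool.Agent.H13.Q1.Track

set_option autoImplicit false

/-! # Ties

A line which crosses the two sides of a cap. `tie_op`: with the weights `p, q` and `p', q'` this is the
cap with the weight `p q'` (the line passes over the cap, which is not joined to it), and with the weight
`p p' + q p' + q q'` the line is joined to the cap: the end `v` of the line is joined to `x` and the line
goes on from `y`. If `p + q = p' + q' = 1` the two weights sum to `1`.

`Ties.Z`: the same in a network: two neighbouring tiles of the line with a cap above are one tile, the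
tie, with the ends `W` = line from the left, `S` = left side of the cap, `E` = right side of the cap,
`N` = line to the right. -/

namespace Pool.Agent.H13.Q1

open Finset Pool.Agent.H64.Q1 Pool.Agent.H64.Q1.LP Pool.Agent.H81.G1

/-! ### Operators -/

section Op

variable {D : Type*} [DecidableEq D] {K : Type*} [CommRing K]

/-- **A line which crosses the two sides of a cap.** -/
theorem tie_op (e t : ℤ) (v x y : D) (h1 : v ≠ x) (h2 : v ≠ y) (h3 : x ≠ y) (p q p' q' : K) :
    Rop e v x p q * Rop e v y p' q' * pb (jn x y e t) =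
      (p * q') • (pb (jn x y e t) : Module.End K (LP D → K)) +
      (p * p' + q * p' + q * q') • (pb (jn v x e e) * (pb (sw v y) * pb (jn x y 0 t))) := by
  have k : Rop e v x p q * Rop e v y p' q' * pb (jn x y e e) =
      (p * q') • (pb (jn x y e e) : Module.End K (LP D → K)) +
      (p * p' + q * p' + q * q') • (pb (jn v x e e) * pb (sw v y) * pb (jn x y e e)) := by
    have r1 : (pb (sw v x) : Module.End K (LP D → K)) * pb (jn v y e e) * pb (jn x y e e) =
        pb (jn x y e e) := by
      rw [pb_mul3]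
      exact pb_congr fun f => rB1 e v x y f h1 h2 h3
    have r2 : (pb (sw v x) : Module.End K (LP D → K)) * pb (sw v y) * pb (jn x y e e) =
        pb (fun f => sw v x (jn v y e e (sw x y f))) := by
      rw [pb_mul3]
      exact pb_congr fun f => rX2 e v x y f h1 h2 h3
    have r3 : (pb (jn v x e e) : Module.End K (LP D → K)) * pb (sw v y) * pb (jn x y e e) =
        pb (fun f => sw v x (jn v y e e (sw x y f))) := by
      rw [pb_mul3]
      exact pb_congr fun f => rX3 e v x y f h1 h2 h3
    have r4 : (pb (jn v x e e) : Module.End K (LP D → K)) * pb (jn v y e e) *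
        pb (jn x y e e) = pb (fun f => sw v x (jn v y e e (sw x y f))) := by
      rw [pb_mul3]
      exact pb_congr fun f => rX4 e v x y f h1 h2 h3
    unfold Rop
    simp only [mul_add, add_mul, smul_mul_assoc, mul_smul_comm, r1, r2, r3, r4]
    generalize (pb (fun f => sw v x (jn v y e e (sw x y f))) : Module.End K (LP D → K)) = W
    generalize (pb (jn x y e e) : Module.End K (LP D → K)) = X
    module
  have e1 : (pb (jn x y e e) : Module.End K (LP D → K)) * pb (jn x y 0 t) = pb (jn x y e t) :=
    pb_relab x y h3 e e 0 t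
  -- in the second term the label of the new arc does not matter
  have e2 : (pb (jn v x e e) : Module.End K (LP D → K)) * pb (sw v y) * pb (jn x y e e) *
      pb (jn x y 0 t) = pb (jn v x e e) * (pb (sw v y) * pb (jn x y 0 t)) := by
    rw [mul_assoc _ _ (pb (jn x y 0 t)), e1]
    have g : ∀ f : LP D, jn x y e t (sw v y (jn v x e e f)) = jn x y 0 t (sw v y (jn v x e e f)) := by
      intro f
      have m : sw v y (jn v x e e f) y = x := by
        unfold sw
        rw [ren_apply, Equiv.symm_swap, Equiv.swap_apply_right, jn_left v x e e f h1,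
          Equiv.swap_apply_of_ne_of_ne h1.symm h3]
      have m' : sw v y (jn v x e e f) x = y := ((LP.eq_iff _).1 m).symm
      generalize sw v y (jn v x e e f) = w at m m'
      have i := w.anti x
      apply LP.ext
      · intro z
        rw [jn_apply x y _ _ _ h3, jn_apply x y _ _ _ h3]
      · intro z
        rw [jn_d x y _ _ _ h3, jn_d x y _ _ _ h3, m, m']
        grind
    rw [← mul_assoc (pb (jn v x e e)) _ (pb (jn x y 0 t)), pb_mul3, pb_mul3]
    exact pb_congr g
  rw [← e1, ← mul_assoc, k, add_mul, smul_mul_assoc, smul_mul_assoc, e2]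

/-- the same with weights of sum `1` -/
theorem tie_op' (e t : ℤ) (v x y : D) (h1 : v ≠ x) (h2 : v ≠ y) (h3 : x ≠ y) (a a' : K) :
    Rop e v x a (1 - a) * Rop e v y a' (1 - a') * pb (jn x y e t) =
      (a * (1 - a')) • (pb (jn x y e t) : Module.End K (LP D → K)) +
      (1 - a * (1 - a')) • (pb (jn v x e e) * (pb (sw v y) * pb (jn x y 0 t))) := by
  rw [tie_op e t v x y h1 h2 h3]
  congr 2
  ring

end Op

/-! ### Networks -/

section Net

variable {ι κ : Type*}

/-- the ends of the ties -/
def tieE (T : κ → Prop) [DecidablePred T] (σ σ' : κ → ι) (y : κ × Dir) : ι × Dir :=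
  if T y.1 then
    match y.2 with
    | .W => (σ y.1, .W)
    | .S => (σ y.1, .S)
    | .E => (σ' y.1, .S)
    | .N => (σ' y.1, .E)
  else (σ y.1, y.2)

/-- the zeros of the turnings -/
def tieC (X : Net ι) (T : κ → Prop) [DecidablePred T] (σ : κ → ι) (y : κ × Dir) : ℤ :=
  if T y.1 then
    match y.2 with
    | .W => 0
    | .S => 0
    | .E => X.t (σ y.1, .E) - 1
    | .N => X.t (σ y.1, .E) - 1
  else 0

/-- the states of the ties: `false` if the line passes over the cap -/
def tieF (T : κ → Prop) [DecidablePred T] (σ σ' : κ → ι) (s : ι → Bool) (k : κ) : Bool :=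
  if T k then s (σ k) || !s (σ' k) else s (σ k)

/-- `Y` arises from `X` if, for every `k` in `T`, the tiles `σ k`, `σ' k` with a cap above are replaced by
the tile `k`; for the other `k` the tile `σ k` is the tile `k`. -/
structure Ties (X : Net ι) (Y : Net κ) (T : κ → Prop) [DecidablePred T] (σ σ' : κ → ι) (q : ι → κ) :
    Prop where
  q1 : ∀ k, q (σ k) = k
  q2 : ∀ k, T k → q (σ' k) = k
  ne : ∀ k, T k → σ k ≠ σ' k
  all : ∀ i, i = σ (q i) ∨ (T (q i) ∧ i = σ' (q i))
  inv : ∀ x, X.π (X.π x) = x
  neg : ∀ x, X.t (X.π x) = -X.t x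
  wE : ∀ k, T k → X.π (σ k, .E) = (σ' k, .W)
  wN : ∀ k, T k → X.π (σ k, .N) = (σ' k, .N)
  tN : ∀ k, T k → X.t (σ k, .N) = X.t (σ k, .E) - 2
  wire : ∀ y, X.π (tieE T σ σ' y) = tieE T σ σ' (Y.π y)
  turn : ∀ y, X.t (tieE T σ σ' y) = Y.t y - tieC X T σ y + tieC X T σ (Y.π y)
  x0 : tieE T σ σ' Y.x0 = X.x0
  y0 : tieE T σ σ' Y.y0 = X.y0

variable {X : Net ι} {Y : Net κ} {T : κ → Prop} [DecidablePred T] {σ σ' : κ → ι} {q : ι → κ}

theorem tieE_q (h1 : ∀ k, q (σ k) = k) (h2 : ∀ k, T k → q (σ' k) = k) (y : κ × Dir) :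
    q (tieE T σ σ' y).1 = y.1 := by
  obtain ⟨k, d⟩ := y
  unfold tieE
  by_cases h : T k
  · rw [if_pos h]
    cases d
    · exact h1 k
    · exact h2 k h
    · exact h2 k h
    · exact h1 k
  · rw [if_neg h]; exact h1 k

theorem tieE_inj (h1 : ∀ k, q (σ k) = k) (h2 : ∀ k, T k → q (σ' k) = k)
    (h3 : ∀ k, T k → σ k ≠ σ' k) : Function.Injective (tieE T σ σ') := by
  rintro ⟨k, d⟩ ⟨k', d'⟩ h
  have e1 := tieE_q h1 h2 (k, d)
  have e2 := tieE_q h1 h2 (k', d')
  rw [h] at e1
  have e3 : k = k' := e1.symm.trans e2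
  subst e3
  have hne := h3 k
  unfold tieE at h
  by_cases hT : T k
  · simp only [hT, if_true] at h
    have hne := hne hT
    have hne' := hne.symm
    clear h1 h2 h3 e1 e2
    cases d <;> cases d' <;> simp_all [Prod.ext_iff]
  · simp only [hT, if_false] at h
    exact Prod.ext rfl (congrArg (fun z : ι × Dir => z.2) h)

/-- the inner ends -/
theorem tieE_in (h1 : ∀ k, q (σ k) = k) (h2 : ∀ k, T k → q (σ' k) = k)
    (h3 : ∀ k, T k → σ k ≠ σ' k) {k : κ} (hT : T k) :
    (σ k, Dir.E) ∉ Set.range (tieE T σ σ') ∧ (σ k, Dir.N) ∉ Set.range (tieE T σ σ') ∧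
    (σ' k, Dir.W) ∉ Set.range (tieE T σ σ') ∧ (σ' k, Dir.N) ∉ Set.range (tieE T σ σ') := by
  have hne := h3 k hT
  have hne' := hne.symm
  have key : ∀ (i : ι) (d : Dir), q i = k → (i, d) ∈ Set.range (tieE T σ σ') →
      ∃ d', tieE T σ σ' (k, d') = (i, d) := by
    rintro i d hq ⟨⟨k', d'⟩, h⟩
    have := tieE_q h1 h2 (k', d')
    rw [h] at this
    have e : k' = k := this.symm.trans hq
    exact ⟨d', by rw [← e]; exact h⟩
  refine ⟨fun h => ?_, fun h => ?_, fun h => ?_, fun h => ?_⟩
  · obtain ⟨d', h'⟩ := key _ _ (h1 k) h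
    unfold tieE at h'
    simp only [hT, if_true] at h'
    clear key h
    cases d' <;> simp_all [Prod.ext_iff]
  · obtain ⟨d', h'⟩ := key _ _ (h1 k) h
    unfold tieE at h'
    simp only [hT, if_true] at h'
    clear key h
    cases d' <;> simp_all [Prod.ext_iff]
  · obtain ⟨d', h'⟩ := key _ _ (h2 k hT) h
    unfold tieE at h'
    simp only [hT, if_true] at h'
    clear key h
    cases d' <;> simp_all [Prod.ext_iff]
  · obtain ⟨d', h'⟩ := key _ _ (h2 k hT) h
    unfold tieE at h'
    simp only [hT, if_true] at h'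
    clear key h
    cases d' <;> simp_all [Prod.ext_iff]

theorem Ties.tW (h : Ties X Y T σ σ' q) {k : κ} (hT : T k) :
    X.π (σ' k, .W) = (σ k, .E) ∧ X.t (σ' k, .W) = -X.t (σ k, .E) := by
  have h1 := h.wE k hT
  refine ⟨by rw [← h1, h.inv], by rw [← h1, h.neg]⟩

theorem Ties.tN' (h : Ties X Y T σ σ' q) {k : κ} (hT : T k) :
    X.π (σ' k, .N) = (σ k, .N) ∧ X.t (σ' k, .N) = -(X.t (σ k, .E) - 2) := by
  have h1 := h.wN k hT
  refine ⟨by rw [← h1, h.inv], by rw [← h1, h.neg, h.tN k hT]⟩

/-- the strands inside a tie -/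
theorem Ties.cover (h : Ties X Y T σ σ' q) :
    Cover X Y (tieE T σ σ') (tieC X T σ) (tieF T σ σ') := by
  refine ⟨tieE_inj h.q1 h.q2 h.ne, h.x0, h.y0, h.wire, h.turn, ?_⟩
  intro s k d
  by_cases hT : T k
  · obtain ⟨r1, r2, r3, r4⟩ := tieE_in (T := T) (σ := σ) (σ' := σ') h.q1 h.q2 h.ne hT
    have w1 := h.wE k hT
    have w2 := h.wN k hT
    have w3 := h.tN k hT
    obtain ⟨w4, w5⟩ := h.tW hT
    obtain ⟨w6, w7⟩ := h.tN' hT
    have eW : tieE T σ σ' (k, .W) = (σ k, .W) := by unfold tieE; simp only [hT, if_true]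
    have eS : tieE T σ σ' (k, .S) = (σ k, .S) := by unfold tieE; simp only [hT, if_true]
    have eE : tieE T σ σ' (k, .E) = (σ' k, .S) := by unfold tieE; simp only [hT, if_true]
    have eN : tieE T σ σ' (k, .N) = (σ' k, .E) := by unfold tieE; simp only [hT, if_true]
    have cW : tieC X T σ (k, .W) = 0 := by unfold tieC; simp only [hT, if_true]
    have cS : tieC X T σ (k, .S) = 0 := by unfold tieC; simp only [hT, if_true]
    have cE : tieC X T σ (k, .E) = X.t (σ k, .E) - 1 := by unfold tieC; simp only [hT, if_true]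
    have cN : tieC X T σ (k, .N) = X.t (σ k, .E) - 1 := by unfold tieC; simp only [hT, if_true]
    generalize tieE T σ σ' = e at *
    generalize tieC X T σ = c at *
    have hF : tieF T σ σ' s k = (s (σ k) || !s (σ' k)) := by unfold tieF; rw [if_pos hT]
    rw [hF]
    cases u1 : s (σ k) <;> cases u2 : s (σ' k)
    · -- `α`, `α`
      cases d
      · refine Thru.step (y := (σ' k, .N)) (t' := -X.t (σ k, .E)) ?_ r4
          (Thru.step (y := (σ k, .E)) (t' := 1) ?_ r1 (Thru.out ?_ ?_) ?_) ?_
        all_goals simp [Dir.mate, Dir.tn, *]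
        all_goals ring
      · refine Thru.out ?_ ?_
        all_goals simp [Dir.mate, Dir.tn, *]
      · refine Thru.out ?_ ?_
        all_goals simp [Dir.mate, Dir.tn, *]
      · refine Thru.step (y := (σ' k, .W)) (t' := -X.t (σ k, .E) + 2) ?_ r3
          (Thru.step (y := (σ k, .N)) (t' := -1) ?_ r2 (Thru.out ?_ ?_) ?_) ?_
        all_goals simp [Dir.mate, Dir.tn, *]
        all_goals ring
    · -- `α`, `β`
      cases d
      · refine Thru.step (y := (σ' k, .N)) (t' := 1) ?_ r4 (Thru.out ?_ ?_) ?_
        all_goals simp [Dir.mate, Dir.tn, *]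
        all_goals ring
      · refine Thru.step (y := (σ k, .N)) (t' := -1) ?_ r2 (Thru.out ?_ ?_) ?_
        all_goals simp [Dir.mate, Dir.tn, *]
        all_goals ring
      · refine Thru.step (y := (σ k, .E)) (t' := 1) ?_ r1 (Thru.out ?_ ?_) ?_
        all_goals simp [Dir.mate, Dir.tn, *]
        all_goals ring
      · refine Thru.step (y := (σ' k, .W)) (t' := -1) ?_ r3 (Thru.out ?_ ?_) ?_
        all_goals simp [Dir.mate, Dir.tn, *]
        all_goals ring
    · -- `β`, `α`
      cases d
      all_goals refine Thru.out ?_ ?_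
      all_goals simp [Dir.mate, Dir.tn, *]
    · -- `β`, `β`
      cases d
      · refine Thru.out ?_ ?_
        all_goals simp [Dir.mate, Dir.tn, *]
      · refine Thru.step (y := (σ k, .N)) (t' := X.t (σ k, .E)) ?_ r2
          (Thru.step (y := (σ' k, .W)) (t' := -1) ?_ r3 (Thru.out ?_ ?_) ?_) ?_
        all_goals simp [Dir.mate, Dir.tn, *]
        all_goals ring
      · refine Thru.step (y := (σ k, .E)) (t' := X.t (σ k, .E) - 2) ?_ r1
          (Thru.step (y := (σ' k, .N)) (t' := 1) ?_ r4 (Thru.out ?_ ?_) ?_) ?_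
        all_goals simp [Dir.mate, Dir.tn, *]
        all_goals ring
      · refine Thru.out ?_ ?_
        all_goals simp [Dir.mate, Dir.tn, *]
  · have eE : ∀ d, tieE T σ σ' (k, d) = (σ k, d) := fun d => by
      unfold tieE; simp only [hT, if_false]
    have cE : ∀ d, tieC X T σ (k, d) = 0 := fun d => by
      unfold tieC; simp only [hT, if_false]
    have hF : tieF T σ σ' s k = s (σ k) := by unfold tieF; rw [if_neg hT]
    rw [hF, eE, eE, cE, cE]
    exact Thru.out rfl (by ring)

/-! ### Weights -/

theorem sum_one {A : Type*} [Fintype A] [DecidableEq A] (x : A) (hall : ∀ i, i = x)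
    (H : (A → Bool) → ℂ) : ∑ u : A → Bool, H u = ∑ p : Bool, H (fun _ => p) := by
  symm
  refine Fintype.sum_equiv ⟨fun p _ => p, fun u => u x, fun p => rfl, fun u => ?_⟩ _ _
    (fun p => rfl)
  funext i
  change u x = u i
  rw [hall i]

theorem prod_one {A : Type*} [Fintype A] [DecidableEq A] (x : A) (hall : ∀ i, i = x)
    (g : A → ℂ) : ∏ i, g i = g x :=
  Finset.prod_eq_single x (fun i _ hi => absurd (hall i) hi) (fun h => absurd (mem_univ x) h)

theorem sum_two {A : Type*} [Fintype A] [DecidableEq A] (x y : A) (hxy : y ≠ x)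
    (hall : ∀ i, i = x ∨ i = y) (H : (A → Bool) → ℂ) :
    ∑ u : A → Bool, H u = ∑ p : Bool, ∑ r : Bool, H (fun i => if i = x then p else r) := by
  rw [← Fintype.sum_prod_type' (f := fun p r => H (fun i => if i = x then p else r))]
  symm
  refine Fintype.sum_equiv ⟨fun p i => if i = x then p.1 else p.2, fun u => (u x, u y),
    fun p => ?_, fun u => ?_⟩ _ _ (fun p => rfl)
  · simp [hxy]
  · funext i
    rcases hall i with h | h
    · subst h; simp
    · subst h; simp [hxy]

theorem prod_two {A : Type*} [Fintype A] [DecidableEq A] (x y : A) (hxy : y ≠ x)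
    (hall : ∀ i, i = x ∨ i = y) (g : A → ℂ) : ∏ i, g i = g x * g y := by
  rw [← Finset.mul_prod_erase univ g (mem_univ x)]
  congr 1
  apply Finset.prod_eq_single y
  · intro i hi hiy
    rcases hall i with h | h
    · exact absurd h (mem_erase.1 hi).1
    · exact absurd h hiy
  · intro h
    exact absurd (mem_erase.2 ⟨hxy, mem_univ y⟩) h

variable [Fintype ι] [DecidableEq ι] [Fintype κ] [DecidableEq κ]

/-- **A line over caps is a row of ties.** The tie `k` has the weight `a (σ k) b (σ' k)` for the state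
`false` (`{W-N, S-E}`: the line passes over the cap, and the cap is closed) and the sum of the three other
products for the state `true` (`{W-S, E-N}`: the line is joined to the two sides of the cap). -/
theorem Ties.Z (h : Ties X Y T σ σ' q) (a b : ι → ℂ) (a' b' : κ → ℂ)
    (ha : ∀ k, a' k = if T k then a (σ k) * b (σ' k) else a (σ k))
    (hb : ∀ k, b' k = if T k then a (σ k) * a (σ' k) + b (σ k) * a (σ' k) + b (σ k) * b (σ' k)
      else b (σ k)) :
    X.Z a b = zt ^ (-2 * (tieC X T σ Y.y0 - tieC X T σ Y.x0)) * Y.Z a' b' := by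
  have hs : ∀ k, T k → q (σ' k) = k := h.q2
  refine h.cover.Z q (fun k u => if hT : T k then u ⟨σ k, h.q1 k⟩ || !u ⟨σ' k, hs k hT⟩
    else u ⟨σ k, h.q1 k⟩) ?_ a b a' b' ?_
  · intro s k
    unfold tieF
    by_cases hT : T k
    · rw [if_pos hT, dif_pos hT]
    · rw [if_neg hT, dif_neg hT]
  · intro k β
    rw [ha, hb]
    by_cases hT : T k
    · simp only [hT, if_true, dif_pos]
      have hxy : (⟨σ' k, hs k hT⟩ : {i // q i = k}) ≠ ⟨σ k, h.q1 k⟩ := by
        intro hh
        exact h.ne k hT (congrArg Subtype.val hh).symm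
      have hall : ∀ i : {i // q i = k}, i = ⟨σ k, h.q1 k⟩ ∨ i = ⟨σ' k, hs k hT⟩ := by
        rintro ⟨i, hi⟩
        rcases h.all i with hh | hh
        · left; apply Subtype.ext; rw [hi] at hh; exact hh
        · right; apply Subtype.ext; rw [hi] at hh; exact hh.2
      rw [sum_two _ _ hxy hall]
      simp only [prod_two _ _ hxy hall, Fintype.sum_bool]
      cases β <;> simp [hxy] <;> ring
    · simp only [hT, if_false, dif_neg, not_false_eq_true]
      have hall : ∀ i : {i // q i = k}, i = ⟨σ k, h.q1 k⟩ := by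
        rintro ⟨i, hi⟩
        rcases h.all i with hh | hh
        · apply Subtype.ext; rw [hi] at hh; exact hh
        · exfalso; apply hT; rw [hi] at hh; exact hh.1
      rw [sum_one _ hall]
      simp only [prod_one _ hall, Fintype.sum_bool]
      cases β <;> simp

/-- the same with weights of sum `1`, if the marks are not behind the ties -/
theorem Ties.Z1 (h : Ties X Y T σ σ' q) (a : ι → ℂ) (hx : tieC X T σ Y.x0 = 0)
    (hy : tieC X T σ Y.y0 = 0) :
    X.Z a (fun i => 1 - a i) =
      Y.Z (fun k => if T k then a (σ k) * (1 - a (σ' k)) else a (σ k))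
        (fun k => 1 - if T k then a (σ k) * (1 - a (σ' k)) else a (σ k)) := by
  have hb : ∀ k, (fun k => 1 - if T k then a (σ k) * (1 - a (σ' k)) else a (σ k)) k =
      if T k then a (σ k) * a (σ' k) + (1 - a (σ k)) * a (σ' k) + (1 - a (σ k)) * (1 - a (σ' k))
      else 1 - a (σ k) := by
    intro k
    by_cases hT : T k
    · simp only [hT, if_true]; ring
    · simp only [hT, if_false]
  rw [h.Z a (fun i => 1 - a i) (fun k => if T k then a (σ k) * (1 - a (σ' k)) else a (σ k)) _
    (fun k => rfl) hb, hx, hy]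
  simp

omit [Fintype ι] [DecidableEq ι] [Fintype κ] [DecidableEq κ] in
/-- the marks are not behind a tie if they are at ends `W`, `S` of a tie or not at a tie -/
theorem tieC_zero {X : Net ι} {T : κ → Prop} [DecidablePred T] {σ : κ → ι} {y : κ × Dir}
    (h : T y.1 → y.2 = .W ∨ y.2 = .S) : tieC X T σ y = 0 := by
  unfold tieC
  by_cases hT : T y.1
  · rw [if_pos hT]
    rcases h hT with h | h <;> rw [h]
  · rw [if_neg hT]

end Net

end Pool.Agent.H13.Q1
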