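import Pool.Agent.H13.Q1.Ties

set_option autoImplicit false

/-! # The network with ties, and ties below a line

`tieNet`: the network in which the tiles of a line over caps are ties (`tieNet_ties`). `rotN`: all tiles
are turned by 180 degrees. `TiesS`: caps below the line. -/

namespace Pool.Agent.H13.Q1

open Finset Pool.Agent.H81.G1

variable {ι κ : Type*}

/-! ### Existence -/

section Ex

/-- the end of the tie of an end -/
def tieI [DecidableEq ι] (T : κ → Prop) [DecidablePred T] (σ : κ → ι) (q : ι → κ) (x : ι × Dir) :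
    κ × Dir :=
  if T (q x.1) then
    if x.1 = σ (q x.1) then (q x.1, x.2)
    else
      match x.2 with
      | .S => (q x.1, .E)
      | .E => (q x.1, .N)
      | .N => (q x.1, .N)
      | .W => (q x.1, .W)
  else (q x.1, x.2)

/-- the network with ties -/
def tieNet [DecidableEq ι] (X : Net ι) (T : κ → Prop) [DecidablePred T] (σ σ' : κ → ι)
    (q : ι → κ) : Net κ where
  π y := tieI T σ q (X.π (tieE T σ σ' y))
  t y := X.t (tieE T σ σ' y) + tieC X T σ y - tieC X T σ (tieI T σ q (X.π (tieE T σ σ' y)))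
  x0 := tieI T σ q X.x0
  y0 := tieI T σ q X.y0

/-- the pairs of tiles of a line with a cap above -/
structure Caps (X : Net ι) (T : κ → Prop) (σ σ' : κ → ι) (q : ι → κ) : Prop where
  q1 : ∀ k, q (σ k) = k
  q2 : ∀ k, T k → q (σ' k) = k
  ne : ∀ k, T k → σ k ≠ σ' k
  all : ∀ i, i = σ (q i) ∨ (T (q i) ∧ i = σ' (q i))
  inv : ∀ x, X.π (X.π x) = x
  neg : ∀ x, X.t (X.π x) = -X.t x
  wE : ∀ k, T k → X.π (σ k, .E) = (σ' k, .W)
  wN : ∀ k, T k → X.π (σ k, .N) = (σ' k, .N)
  tN : ∀ k, T k → X.t (σ k, .N) = X.t (σ k, .E) - 2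

variable {X : Net ι} {T : κ → Prop} [DecidablePred T] {σ σ' : κ → ι} {q : ι → κ}

theorem Caps.not_range (h : Caps X T σ σ' q) (x : ι × Dir)
    (hx : x ∉ Set.range (tieE T σ σ')) :
    ∃ k, T k ∧ (x = (σ k, .E) ∨ x = (σ k, .N) ∨ x = (σ' k, .W) ∨ x = (σ' k, .N)) := by
  obtain ⟨i, d⟩ := x
  by_cases hT : T (q i)
  · refine ⟨q i, hT, ?_⟩
    rcases h.all i with hi | ⟨-, hi⟩
    · cases d
      · exfalso; apply hx
        refine ⟨(q i, .W), ?_⟩
        unfold tieE; simp only [hT, if_true]; rw [← hi]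
      · right; left; rw [← hi]
      · left; rw [← hi]
      · exfalso; apply hx
        refine ⟨(q i, .S), ?_⟩
        unfold tieE; simp only [hT, if_true]; rw [← hi]
    · cases d
      · right; right; left; rw [← hi]
      · right; right; right; rw [← hi]
      · exfalso; apply hx
        refine ⟨(q i, .N), ?_⟩
        unfold tieE; simp only [hT, if_true]; rw [← hi]
      · exfalso; apply hx
        refine ⟨(q i, .E), ?_⟩
        unfold tieE; simp only [hT, if_true]; rw [← hi]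
  · exfalso; apply hx
    refine ⟨(q i, d), ?_⟩
    unfold tieE
    rw [if_neg hT]
    rcases h.all i with hi | ⟨h', -⟩
    · rw [← hi]
    · exact absurd h' hT

theorem Caps.closed (h : Caps X T σ σ' q) {x : ι × Dir} (hx : x ∈ Set.range (tieE T σ σ')) :
    X.π x ∈ Set.range (tieE T σ σ') := by
  by_contra hcon
  obtain ⟨k, hT, hk⟩ := h.not_range _ hcon
  obtain ⟨r1, r2, r3, r4⟩ := tieE_in (T := T) (σ := σ) (σ' := σ') h.q1 h.q2 h.ne hT
  have hxx := h.inv x
  rcases hk with hk | hk | hk | hk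
  · rw [hk, h.wE k hT] at hxx; rw [hxx] at r3; exact r3 hx
  · rw [hk, h.wN k hT] at hxx; rw [hxx] at r4; exact r4 hx
  · rw [hk, ← h.wE k hT, h.inv] at hxx; rw [hxx] at r1; exact r1 hx
  · rw [hk, ← h.wN k hT, h.inv] at hxx; rw [hxx] at r2; exact r2 hx

variable [DecidableEq ι]

theorem tieI_tieE (h1 : ∀ k, q (σ k) = k) (h2 : ∀ k, T k → q (σ' k) = k)
    (h3 : ∀ k, T k → σ k ≠ σ' k) (y : κ × Dir) : tieI T σ q (tieE T σ σ' y) = y := by
  obtain ⟨k, d⟩ := y
  unfold tieE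
  by_cases hT : T k
  · have hne := (h3 k hT).symm
    have e1 := h1 k
    have e2 := h2 k hT
    cases d <;> simp [tieI, hT, e1, e2, hne]
  · have e1 := h1 k
    simp [tieI, hT, e1]

theorem tieE_tieI (h1 : ∀ k, q (σ k) = k) (h2 : ∀ k, T k → q (σ' k) = k)
    (h3 : ∀ k, T k → σ k ≠ σ' k) {x : ι × Dir} (hx : x ∈ Set.range (tieE T σ σ')) :
    tieE T σ σ' (tieI T σ q x) = x := by
  obtain ⟨y, rfl⟩ := hx
  rw [tieI_tieE h1 h2 h3]

/-- **The network with ties.** -/
theorem tieNet_ties (h : Caps X T σ σ' q) (hx : X.x0 ∈ Set.range (tieE T σ σ'))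
    (hy : X.y0 ∈ Set.range (tieE T σ σ')) : Ties X (tieNet X T σ σ' q) T σ σ' q := by
  refine ⟨h.q1, h.q2, h.ne, h.all, h.inv, h.neg, h.wE, h.wN, h.tN, ?_, ?_, ?_, ?_⟩
  · intro y
    exact (tieE_tieI h.q1 h.q2 h.ne (h.closed ⟨y, rfl⟩)).symm
  · intro y
    change X.t (tieE T σ σ' y) = X.t (tieE T σ σ' y) + tieC X T σ y -
      tieC X T σ (tieI T σ q (X.π (tieE T σ σ' y))) - tieC X T σ y +
      tieC X T σ (tieI T σ q (X.π (tieE T σ σ' y)))
    ring
  · exact tieE_tieI h.q1 h.q2 h.ne hx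
  · exact tieE_tieI h.q1 h.q2 h.ne hy

end Ex

/-! ### Rotation -/

/-- the opposite end -/
def opp : Dir → Dir
  | .W => .E | .E => .W | .N => .S | .S => .N

theorem opp_opp (d : Dir) : opp (opp d) = d := by cases d <;> rfl

theorem opp_mate (b : Bool) (d : Dir) : opp (d.mate b) = (opp d).mate b := by
  cases b <;> cases d <;> rfl

theorem opp_tn (b : Bool) (d : Dir) : (opp d).tn b = d.tn b := by
  cases b <;> cases d <;> rfl

/-- rotation of the name of an end, if the tile is turned -/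
def rtE (r : ι → Bool) (x : ι × Dir) : ι × Dir := if r x.1 then (x.1, opp x.2) else x

theorem rtE_fst (r : ι → Bool) (x : ι × Dir) : (rtE r x).1 = x.1 := by
  unfold rtE; split_ifs <;> rfl

theorem rtE_rtE (r : ι → Bool) (x : ι × Dir) : rtE r (rtE r x) = x := by
  unfold rtE
  by_cases h : r x.1
  · simp only [h, if_true, opp_opp]
  · simp only [h, if_false, Bool.false_eq_true]

/-- the tiles of `r` are turned by 180 degrees -/
def rotN (r : ι → Bool) (X : Net ι) : Net ι where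
  π x := rtE r (X.π (rtE r x))
  t x := X.t (rtE r x)
  x0 := rtE r X.x0
  y0 := rtE r X.y0

theorem rotN_pi (r : ι → Bool) (X : Net ι) (x : ι × Dir) :
    (rotN r X).π x = rtE r (X.π (rtE r x)) := rfl

theorem rotN_t (r : ι → Bool) (X : Net ι) (x : ι × Dir) : (rotN r X).t x = X.t (rtE r x) := rfl

theorem rotN_x0 (r : ι → Bool) (X : Net ι) : (rotN r X).x0 = rtE r X.x0 := rfl

theorem rotN_y0 (r : ι → Bool) (X : Net ι) : (rotN r X).y0 = rtE r X.y0 := rfl

theorem rotN_rotN (r : ι → Bool) (X : Net ι) : rotN r (rotN r X) = X := by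
  obtain ⟨π, t, x0, y0⟩ := X
  simp only [rotN, rtE_rtE]

theorem rotN_cover (r : ι → Bool) (X : Net ι) :
    Cover X (rotN r X) (rtE r) (fun _ => 0) id := by
  refine ⟨?_, rtE_rtE r _, rtE_rtE r _, ?_, ?_, ?_⟩
  · intro x y h
    rw [← rtE_rtE r x, h, rtE_rtE]
  · intro y
    exact (rtE_rtE r _).symm
  · intro y
    change X.t (rtE r y) = X.t (rtE r y) - 0 + 0
    ring
  · intro s k d
    have e : ∀ d', rtE r (k, d') = (k, if r k then opp d' else d') := by
      intro d'; unfold rtE; split_ifs <;> rfl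
    rw [e, e]
    refine Thru.out ?_ ?_
    · simp only [id]
      split_ifs
      · rw [opp_mate]
      · rfl
    · simp only [id]
      split_ifs
      · rw [opp_tn]; ring
      · ring

theorem rotN_amp [DecidableEq ι] (r : ι → Bool) (X : Net ι) (s : ι → Bool) :
    (rotN r X).amp s = X.amp s := by
  rw [(rotN_cover r X).amp s]
  simp

theorem rotN_Z [Fintype ι] [DecidableEq ι] (r : ι → Bool) (X : Net ι) (a b : ι → ℂ) :
    (rotN r X).Z a b = X.Z a b := by
  unfold Net.Z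
  simp only [rotN_amp]

theorem Ties.Z_rot [Fintype ι] [DecidableEq ι] [Fintype κ] [DecidableEq κ] {X : Net ι} {Y : Net κ}
    {T : κ → Prop} [DecidablePred T] {σ σ' : κ → ι} {q : ι → κ} (r : ι → Bool) (r' : κ → Bool)
    (h : Ties (rotN r X) (rotN r' Y) T σ σ' q) (a b : ι → ℂ) (a' b' : κ → ℂ)
    (ha : ∀ k, a' k = if T k then a (σ k) * b (σ' k) else a (σ k))
    (hb : ∀ k, b' k = if T k then a (σ k) * a (σ' k) + b (σ k) * a (σ' k) + b (σ k) * b (σ' k)
      else b (σ k)) :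
    X.Z a b = zt ^ (-2 * (tieC (rotN r X) T σ (rotN r' Y).y0 -
      tieC (rotN r X) T σ (rotN r' Y).x0)) * Y.Z a' b' := by
  rw [← rotN_Z r X, ← rotN_Z r' Y]
  exact h.Z a b a' b' ha hb

/-! ### Caps below the line -/

/-- the pairs of tiles of a line with a cap below: `σ k` is the right tile of the pair -/
structure CapsS (X : Net ι) (T : κ → Prop) (σ σ' : κ → ι) (q : ι → κ) : Prop where
  q1 : ∀ k, q (σ k) = k
  q2 : ∀ k, T k → q (σ' k) = k
  ne : ∀ k, T k → σ k ≠ σ' k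
  all : ∀ i, i = σ (q i) ∨ (T (q i) ∧ i = σ' (q i))
  inv : ∀ x, X.π (X.π x) = x
  neg : ∀ x, X.t (X.π x) = -X.t x
  wW : ∀ k, T k → X.π (σ k, .W) = (σ' k, .E)
  wS : ∀ k, T k → X.π (σ k, .S) = (σ' k, .S)
  tS : ∀ k, T k → X.t (σ k, .S) = X.t (σ k, .W) - 2

theorem CapsS.caps {X : Net ι} {T : κ → Prop} {σ σ' : κ → ι} {q : ι → κ}
    (h : CapsS X T σ σ' q) : Caps (rotN (fun _ => true) X) T σ σ' q := by
  have e : ∀ (i : ι) (d : Dir), rtE (fun _ => true) (i, d) = (i, opp d) := fun i d => rfl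
  refine ⟨h.q1, h.q2, h.ne, h.all, ?_, ?_, ?_, ?_, ?_⟩
  · intro x
    rw [rotN_pi, rotN_pi, rtE_rtE, h.inv, rtE_rtE]
  · intro x
    rw [rotN_t, rotN_t, rotN_pi, rtE_rtE, h.neg]
  · intro k hT
    have e1 : rtE (fun _ => true) (σ k, Dir.E) = (σ k, Dir.W) := rfl
    rw [rotN_pi, e1, h.wW k hT]
    rfl
  · intro k hT
    have e1 : rtE (fun _ => true) (σ k, Dir.N) = (σ k, Dir.S) := rfl
    rw [rotN_pi, e1, h.wS k hT]
    rfl
  · intro k hT
    rw [rotN_t, rotN_t, e, e]
    exact h.tS k hT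

/-- the ends of the ties for caps below the line: `E` = line to the right, `N` = right side of the cap,
`W` = left side of the cap, `S` = line from the left -/
def tieES (T : κ → Prop) [DecidablePred T] (σ σ' : κ → ι) (y : κ × Dir) : ι × Dir :=
  if T y.1 then
    match y.2 with
    | .E => (σ y.1, .E)
    | .N => (σ y.1, .N)
    | .W => (σ' y.1, .N)
    | .S => (σ' y.1, .W)
  else (σ y.1, y.2)

/-- the zeros of the turnings for caps below the line -/
def tieCS (X : Net ι) (T : κ → Prop) [DecidablePred T] (σ : κ → ι) (y : κ × Dir) : ℤ :=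
  if T y.1 then
    match y.2 with
    | .E => 0
    | .N => 0
    | .W => X.t (σ y.1, .W) - 1
    | .S => X.t (σ y.1, .W) - 1
  else 0

theorem tieES_eq (T : κ → Prop) [DecidablePred T] (σ σ' : κ → ι) (y : κ × Dir) :
    tieES T σ σ' y = rtE (fun _ => true) (tieE T σ σ' (rtE (fun _ => true) y)) := by
  obtain ⟨k, d⟩ := y
  unfold tieES tieE rtE
  by_cases hT : T k
  · cases d <;> simp [hT, opp]
  · cases d <;> simp [hT, opp]

theorem tieCS_eq (X : Net ι) (T : κ → Prop) [DecidablePred T] (σ : κ → ι) (y : κ × Dir) :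
    tieCS X T σ y = tieC (rotN (fun _ => true) X) T σ (rtE (fun _ => true) y) := by
  obtain ⟨k, d⟩ := y
  unfold tieCS tieC rotN rtE
  by_cases hT : T k
  · cases d <;> simp [hT, opp]
  · cases d <;> simp [hT, opp]

/-- the same as `Ties` for caps below the line -/
structure TiesS (X : Net ι) (Y : Net κ) (T : κ → Prop) [DecidablePred T] (σ σ' : κ → ι)
    (q : ι → κ) : Prop where
  caps : CapsS X T σ σ' q
  wire : ∀ y, X.π (tieES T σ σ' y) = tieES T σ σ' (Y.π y)
  turn : ∀ y, X.t (tieES T σ σ' y) = Y.t y - tieCS X T σ y + tieCS X T σ (Y.π y)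
  x0 : tieES T σ σ' Y.x0 = X.x0
  y0 : tieES T σ σ' Y.y0 = X.y0

theorem TiesS.ties {X : Net ι} {Y : Net κ} {T : κ → Prop} [DecidablePred T] {σ σ' : κ → ι}
    {q : ι → κ} (h : TiesS X Y T σ σ' q) :
    Ties (rotN (fun _ => true) X) (rotN (fun _ => true) Y) T σ σ' q := by
  have c := h.caps.caps
  refine ⟨c.q1, c.q2, c.ne, c.all, c.inv, c.neg, c.wE, c.wN, c.tN, ?_, ?_, ?_, ?_⟩
  · intro y
    have h1 := h.wire (rtE (fun _ => true) y)
    rw [tieES_eq, tieES_eq, rtE_rtE] at h1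
    rw [rotN_pi, h1, rtE_rtE, rotN_pi]
  · intro y
    have h1 := h.turn (rtE (fun _ => true) y)
    rw [tieES_eq, tieCS_eq, tieCS_eq, rtE_rtE] at h1
    exact h1
  · have h1 := h.x0
    rw [tieES_eq] at h1
    rw [rotN_x0, rotN_x0, ← h1, rtE_rtE]
  · have h1 := h.y0
    rw [tieES_eq] at h1
    rw [rotN_y0, rotN_y0, ← h1, rtE_rtE]

/-- **A line above caps is a row of ties.** -/
theorem TiesS.Z [Fintype ι] [DecidableEq ι] [Fintype κ] [DecidableEq κ] {X : Net ι} {Y : Net κ}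
    {T : κ → Prop} [DecidablePred T] {σ σ' : κ → ι} {q : ι → κ}
    (h : TiesS X Y T σ σ' q) (a b : ι → ℂ) (a' b' : κ → ℂ)
    (ha : ∀ k, a' k = if T k then a (σ k) * b (σ' k) else a (σ k))
    (hb : ∀ k, b' k = if T k then a (σ k) * a (σ' k) + b (σ k) * a (σ' k) + b (σ k) * b (σ' k)
      else b (σ k)) :
    X.Z a b = zt ^ (-2 * (tieCS X T σ Y.y0 - tieCS X T σ Y.x0)) * Y.Z a' b' := by
  have h1 := Ties.Z_rot _ _ h.ties a b a' b' ha hb
  rw [tieCS_eq, tieCS_eq]
  exact h1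

/-- the network with ties, for caps below the line -/
theorem exists_tiesS [DecidableEq ι] {X : Net ι} {T : κ → Prop} [DecidablePred T]
    {σ σ' : κ → ι} {q : ι → κ} (h : CapsS X T σ σ' q) (hx : X.x0 ∈ Set.range (tieES T σ σ'))
    (hy : X.y0 ∈ Set.range (tieES T σ σ')) : ∃ Y : Net κ, TiesS X Y T σ σ' q := by
  have e : ∀ x, x ∈ Set.range (tieES T σ σ') →
      rtE (fun _ => true) x ∈ Set.range (tieE T σ σ') := by
    rintro x ⟨y, rfl⟩
    refine ⟨rtE (fun _ => true) y, ?_⟩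
    rw [tieES_eq, rtE_rtE]
  have c := tieNet_ties h.caps (e _ hx) (e _ hy)
  refine ⟨rotN (fun _ => true) (tieNet (rotN (fun _ => true) X) T σ σ' q), h, ?_, ?_, ?_, ?_⟩
  · intro y
    have h1 := c.wire (rtE (fun _ => true) y)
    rw [rotN_pi] at h1
    rw [tieES_eq, tieES_eq, rotN_pi, rtE_rtE, ← h1, rtE_rtE]
  · intro y
    have h1 := c.turn (rtE (fun _ => true) y)
    rw [rotN_t] at h1
    rw [tieES_eq, tieCS_eq, tieCS_eq, rotN_pi, rotN_t, rtE_rtE]
    exact h1
  · rw [tieES_eq, rotN_x0, rtE_rtE, c.x0, rotN_x0, rtE_rtE]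
  · rw [tieES_eq, rotN_y0, rtE_rtE, c.y0, rotN_y0, rtE_rtE]

end Pool.Agent.H13.Q1
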